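import Pool.Agent.H99.Inc.Defs

/-!
Algebra of truncated coefficients: recurrence in the truncation parameter, support, domination
and `ℓ¹` bounds.
-/

namespace Pool.Agent.H99.Inc

open Finset PowerSeries

/-- truncation of a sequence to the indices `< a` -/
noncomputable def tr (e : ℕ → ℝ) (a : ℕ) : ℕ → ℝ := fun b => if b < a then e b else 0

/-- coefficient of `Q * ∏ S (tr e a) (μ i)` -/
noncomputable def XX {ι : Type*} (Q : PowerSeries ℝ) (e : ℕ → ℝ) (μ : ι → ℕ) (J : Finset ι)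
    (a n : ℕ) : ℝ :=
  coeff n (Q * ∏ i ∈ J, S (tr e a) (μ i))

/-- shifted coefficient -/
noncomputable def sh {ι : Type*} (Q : PowerSeries ℝ) (e : ℕ → ℝ) (μ : ι → ℕ) (J : Finset ι)
    (a d n : ℕ) : ℝ :=
  if d ≤ n then XX Q e μ J a (n - d) else 0

theorem S_tr_succ (e : ℕ → ℝ) (a m : ℕ) (hm : 1 ≤ m) :
    S (tr e (a + 1)) m = PowerSeries.C (e a) * X ^ (m * a) + S (tr e a) m := by
  ext n
  simp only [S, coeff_mk, map_add, coeff_C_mul, coeff_X_pow]
  by_cases hd : m ∣ n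
  · obtain ⟨c, rfl⟩ := hd
    have h1 : m * c / m = c := Nat.mul_div_cancel_left _ hm
    simp only [h1, tr]
    by_cases hc : c = a
    · subst hc
      simp
    · have h2 : ¬ (m * c = m * a) := fun h => hc (Nat.eq_of_mul_eq_mul_left hm h)
      by_cases h3 : c < a
      · simp [h2, h3, Nat.lt_succ_of_lt h3]
      · have h4 : ¬ (c < a + 1) := by omega
        simp [h2, h3, h4]
  · have h2 : ¬ (n = m * a) := fun h => hd ⟨a, h⟩
    simp [hd, h2]

theorem coeff_mul_C_X_pow (Q F : PowerSeries ℝ) (c : ℝ) (d n : ℕ) :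
    coeff n (Q * ((PowerSeries.C c * X ^ d) * F)) = c * (if d ≤ n then coeff (n - d) (Q * F) else 0) := by
  have h : Q * ((PowerSeries.C c * X ^ d) * F) = PowerSeries.C c * (X ^ d * (Q * F)) := by ring
  rw [h, coeff_C_mul, coeff_X_pow_mul']

theorem XX_succ {ι : Type*} [DecidableEq ι] (Q : PowerSeries ℝ) (e : ℕ → ℝ) (μ : ι → ℕ)
    (J : Finset ι) (hμ : ∀ i ∈ J, 1 ≤ μ i) (a n : ℕ) :
    XX Q e μ J (a + 1) n
      = ∑ T ∈ J.powerset, (e a) ^ T.card * sh Q e μ (J \ T) a ((∑ i ∈ T, μ i) * a) n := by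
  unfold XX
  have h1 : ∏ i ∈ J, S (tr e (a + 1)) (μ i)
      = ∏ i ∈ J, (PowerSeries.C (e a) * X ^ (μ i * a) + S (tr e a) (μ i)) :=
    Finset.prod_congr rfl fun i hi => S_tr_succ e a (μ i) (hμ i hi)
  rw [h1, Finset.prod_add, Finset.mul_sum, map_sum]
  refine Finset.sum_congr rfl fun T _ => ?_
  have h2 : ∏ i ∈ T, (PowerSeries.C (e a) * (X : PowerSeries ℝ) ^ (μ i * a))
      = PowerSeries.C ((e a) ^ T.card) * X ^ ((∑ i ∈ T, μ i) * a) := by
    rw [Finset.prod_mul_distrib, Finset.prod_const, Finset.prod_pow_eq_pow_sum, Finset.sum_mul,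
      map_pow]
  rw [h2, coeff_mul_C_X_pow]
  rfl

theorem XX_zero {ι : Type*} (Q : PowerSeries ℝ) (e : ℕ → ℝ) (μ : ι → ℕ)
    (J : Finset ι) (hJ : J.Nonempty) (n : ℕ) : XX Q e μ J 0 n = 0 := by
  obtain ⟨i, hi⟩ := hJ
  have : ∏ i ∈ J, S (tr e 0) (μ i) = 0 := by
    apply Finset.prod_eq_zero hi
    ext n
    simp [S, tr]
  simp [XX, this]

/-- the interpolation coefficients of `x ↦ (x - p)^r` on `{0, 1}` -/
noncomputable def vv (r : ℕ) (p : ℝ) : ℝ := (1 - p) ^ r - (-p) ^ r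

noncomputable def uu (r : ℕ) (p : ℝ) : ℝ := (-p) ^ r + p * vv r p

theorem interp (r : ℕ) (p x : ℝ) (hx : x = 0 ∨ x = 1) :
    (x - p) ^ r = uu r p + (x - p) * vv r p := by
  rcases hx with rfl | rfl
  · simp only [uu, vv]; ring
  · simp only [uu, vv]; ring

theorem vv_abs (r : ℕ) (hr : 1 ≤ r) (p : ℝ) (h0 : 0 ≤ p) (h1 : p ≤ 1) : |vv r p| ≤ 1 := by
  unfold vv
  have ha : |(1 - p) ^ r| ≤ 1 - p := by
    rw [abs_pow, abs_of_nonneg (by linarith)]
    exact pow_le_of_le_one (by linarith) (by linarith) (by omega)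
  have hb : |(-p) ^ r| ≤ p := by
    rw [abs_pow, abs_neg, abs_of_nonneg h0]
    exact pow_le_of_le_one h0 h1 (by omega)
  calc |(1 - p) ^ r - (-p) ^ r| ≤ |(1 - p) ^ r| + |(-p) ^ r| := abs_sub _ _
    _ ≤ 1 := by linarith

theorem uu_one (p : ℝ) : uu 1 p = 0 := by
  simp [uu, vv]

theorem uu_abs (r : ℕ) (hr : 1 ≤ r) (p : ℝ) (h0 : 0 ≤ p) (h1 : p ≤ 1) : |uu r p| ≤ 2 * p := by
  have hb : |(-p) ^ r| ≤ p := by
    rw [abs_pow, abs_neg, abs_of_nonneg h0]
    exact pow_le_of_le_one h0 h1 (by omega)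
  have hc : |p * vv r p| ≤ p := by
    rw [abs_mul, abs_of_nonneg h0]
    exact mul_le_of_le_one_right h0 (vv_abs r hr p h0 h1)
  calc |uu r p| ≤ |(-p) ^ r| + |p * vv r p| := abs_add_le _ _
    _ ≤ 2 * p := by linarith

/-- predictable weight of the martingale part -/
noncomputable def WW {ι : Type*} [DecidableEq ι] (Q : PowerSeries ℝ) (x p : ℕ → ℝ) (μ : ι → ℕ)
    (J : Finset ι) (b n : ℕ) : ℝ :=
  ∑ T ∈ J.powerset.erase ∅,
    vv T.card (p b) * sh Q (fun i => x i - p i) μ (J \ T) b ((∑ i ∈ T, μ i) * b) n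

/-- drift -/
noncomputable def UU {ι : Type*} [DecidableEq ι] (Q : PowerSeries ℝ) (x p : ℕ → ℝ) (μ : ι → ℕ)
    (J : Finset ι) (b n : ℕ) : ℝ :=
  ∑ T ∈ J.powerset.erase ∅,
    uu T.card (p b) * sh Q (fun i => x i - p i) μ (J \ T) b ((∑ i ∈ T, μ i) * b) n

theorem XX_eq_sum {ι : Type*} [DecidableEq ι] (Q : PowerSeries ℝ) (x p : ℕ → ℝ)
    (hx : ∀ b, x b = 0 ∨ x b = 1) (μ : ι → ℕ) (J : Finset ι) (hJ : J.Nonempty)
    (hμ : ∀ i ∈ J, 1 ≤ μ i) (a n : ℕ) :
    XX Q (fun i => x i - p i) μ J a n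
      = ∑ b ∈ range a, (x b - p b) * WW Q x p μ J b n + ∑ b ∈ range a, UU Q x p μ J b n := by
  induction a with
  | zero => simp [XX_zero Q _ μ J hJ n]
  | succ a ih =>
    rw [XX_succ Q _ μ J hμ a n, Finset.sum_range_succ, Finset.sum_range_succ]
    have hmem : (∅ : Finset ι) ∈ J.powerset := Finset.empty_mem_powerset J
    rw [← Finset.add_sum_erase _ _ hmem]
    have h0 : (x a - p a) ^ (∅ : Finset ι).card
        * sh Q (fun i => x i - p i) μ (J \ ∅) a ((∑ i ∈ (∅ : Finset ι), μ i) * a) n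
        = XX Q (fun i => x i - p i) μ J a n := by
      simp [sh]
    rw [h0, ih]
    have h1 : ∑ T ∈ J.powerset.erase ∅, (x a - p a) ^ T.card
        * sh Q (fun i => x i - p i) μ (J \ T) a ((∑ i ∈ T, μ i) * a) n
        = (x a - p a) * WW Q x p μ J a n + UU Q x p μ J a n := by
      unfold WW UU
      rw [Finset.mul_sum, ← Finset.sum_add_distrib]
      refine Finset.sum_congr rfl fun T _ => ?_
      rw [interp T.card (p a) (x a) (hx a)]
      ring
    rw [h1]
    ring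

/-- `ℓ¹` norm of the first coefficients -/
noncomputable def l1 (F : PowerSeries ℝ) (n : ℕ) : ℝ := ∑ m ∈ range (n + 1), |coeff m F|

theorem l1_nonneg (F : PowerSeries ℝ) (n : ℕ) : 0 ≤ l1 F n :=
  Finset.sum_nonneg fun _ _ => abs_nonneg _

theorem l1_mono (F : PowerSeries ℝ) {m n : ℕ} (h : m ≤ n) : l1 F m ≤ l1 F n :=
  Finset.sum_le_sum_of_subset_of_nonneg (Finset.range_mono (by omega)) fun _ _ _ => abs_nonneg _

theorem abs_coeff_le_l1 (F : PowerSeries ℝ) (n : ℕ) : |coeff n F| ≤ l1 F n :=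
  Finset.single_le_sum (f := fun m => |coeff m F|) (fun _ _ => abs_nonneg _)
    (Finset.mem_range.mpr (Nat.lt_succ_self n))

theorem abs_coeff_mul_le (F G : PowerSeries ℝ) (n : ℕ) :
    |coeff n (F * G)| ≤ ∑ m ∈ range (n + 1), |coeff m F| * |coeff (n - m) G| := by
  rw [coeff_mul, Finset.Nat.sum_antidiagonal_eq_sum_range_succ_mk]
  refine (Finset.abs_sum_le_sum_abs _ _).trans (le_of_eq ?_)
  exact Finset.sum_congr rfl fun m _ => abs_mul _ _

theorem abs_coeff_mul_le_l1 (F G : PowerSeries ℝ) (n : ℕ) (M : ℝ)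
    (hM : ∀ m ≤ n, |coeff m G| ≤ M) : |coeff n (F * G)| ≤ l1 F n * M := by
  refine (abs_coeff_mul_le F G n).trans ?_
  unfold l1
  rw [Finset.sum_mul]
  exact Finset.sum_le_sum fun m _ => mul_le_mul_of_nonneg_left (hM _ (Nat.sub_le _ _)) (abs_nonneg _)

theorem l1_mul (F G : PowerSeries ℝ) (n : ℕ) : l1 (F * G) n ≤ l1 F n * l1 G n := by
  unfold l1
  calc ∑ m ∈ range (n + 1), |coeff m (F * G)|
      ≤ ∑ m ∈ range (n + 1), ∑ i ∈ range (m + 1), |coeff i F| * |coeff (m - i) G| :=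
        Finset.sum_le_sum fun m _ => abs_coeff_mul_le F G m
    _ = ∑ i ∈ range (n + 1), ∑ j ∈ range (n + 1 - i), |coeff i F| * |coeff j G| := by
        rw [Finset.sum_sigma', Finset.sum_sigma']
        refine Finset.sum_bij' (fun s _ => ⟨s.2, s.1 - s.2⟩) (fun s _ => ⟨s.1 + s.2, s.1⟩) ?_ ?_ ?_ ?_ ?_
        · rintro ⟨m, i⟩ h
          simp only [Finset.mem_sigma, Finset.mem_range] at h ⊢
          omega
        · rintro ⟨i, j⟩ h
          simp only [Finset.mem_sigma, Finset.mem_range] at h ⊢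
          omega
        · rintro ⟨m, i⟩ h
          simp only [Finset.mem_sigma, Finset.mem_range] at h
          have : i + (m - i) = m := by omega
          simp [this]
        · rintro ⟨i, j⟩ h
          simp
        · rintro ⟨m, i⟩ h
          rfl
    _ ≤ ∑ i ∈ range (n + 1), ∑ j ∈ range (n + 1), |coeff i F| * |coeff j G| := by
        refine Finset.sum_le_sum fun i _ => Finset.sum_le_sum_of_subset_of_nonneg
          (Finset.range_mono (by omega)) fun _ _ _ => by positivity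
    _ = (∑ m ∈ range (n + 1), |coeff m F|) * ∑ m ∈ range (n + 1), |coeff m G| := by
        rw [Finset.sum_mul_sum]

theorem l1_one (n : ℕ) : l1 1 n = 1 := by
  unfold l1
  rw [Finset.sum_eq_single_of_mem 0 (by simp)]
  · simp
  · intro b _ hb
    simp [coeff_one, hb]

theorem l1_prod {ι : Type*} (J : Finset ι) (F : ι → PowerSeries ℝ) (n : ℕ) :
    l1 (∏ i ∈ J, F i) n ≤ ∏ i ∈ J, l1 (F i) n := by
  classical
  induction J using Finset.induction_on with
  | empty => simp [l1_one]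
  | insert i J hi ih =>
    rw [Finset.prod_insert hi, Finset.prod_insert hi]
    exact (l1_mul _ _ _).trans (mul_le_mul_of_nonneg_left ih (l1_nonneg _ _))

theorem l1_S (e : ℕ → ℝ) (m : ℕ) (hm : 1 ≤ m) (n : ℕ) :
    l1 (S e m) n ≤ ∑ b ∈ range (n + 1), |e b| := by
  unfold l1 S
  simp only [coeff_mk]
  have h1 : ∑ j ∈ range (n + 1), |if m ∣ j then e (j / m) else 0|
      = ∑ j ∈ (range (n + 1)).filter (fun j => m ∣ j), |e (j / m)| := by
    rw [Finset.sum_filter]
    refine Finset.sum_congr rfl fun j _ => ?_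
    split_ifs <;> simp
  rw [h1]
  have h2 : ∑ j ∈ (range (n + 1)).filter (fun j => m ∣ j), |e (j / m)|
      = ∑ b ∈ ((range (n + 1)).filter (fun j => m ∣ j)).image (fun j => j / m), |e b| := by
    rw [Finset.sum_image]
    intro a ha b hb hab
    simp only [Finset.coe_filter, Finset.mem_range, Set.mem_ofPred_eq] at ha hb
    obtain ⟨c, hc⟩ := ha.2
    obtain ⟨d, hd⟩ := hb.2
    simp only [hc, hd, Nat.mul_div_cancel_left _ hm] at hab
    rw [hc, hd, hab]
  rw [h2]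
  refine Finset.sum_le_sum_of_subset_of_nonneg ?_ fun _ _ _ => abs_nonneg _
  intro b hb
  simp only [Finset.mem_image, Finset.mem_filter, Finset.mem_range] at hb ⊢
  obtain ⟨j, ⟨hj, _⟩, rfl⟩ := hb
  exact lt_of_le_of_lt (Nat.div_le_self _ _) hj

theorem l1_prod_S {ι : Type*} (e : ℕ → ℝ) (μ : ι → ℕ) (J : Finset ι) (hμ : ∀ i ∈ J, 1 ≤ μ i)
    (n : ℕ) : l1 (∏ i ∈ J, S e (μ i)) n ≤ (∑ b ∈ range (n + 1), |e b|) ^ J.card := by
  refine (l1_prod J _ n).trans ?_
  rw [← Finset.prod_const]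
  exact Finset.prod_le_prod (fun _ _ => l1_nonneg _ _) fun i hi => l1_S e _ (hμ i hi) n

/-- coefficientwise domination -/
def Dom (F G : PowerSeries ℝ) : Prop := ∀ n, |coeff n F| ≤ coeff n G

theorem Dom.mul {F G F' G' : PowerSeries ℝ} (h : Dom F G) (h' : Dom F' G') :
    Dom (F * F') (G * G') := by
  intro n
  rw [coeff_mul, coeff_mul]
  refine (Finset.abs_sum_le_sum_abs _ _).trans (Finset.sum_le_sum fun q _ => ?_)
  rw [abs_mul]
  exact mul_le_mul (h _) (h' _) (abs_nonneg _) ((abs_nonneg _).trans (h _))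

theorem Dom.one : Dom 1 1 := by
  intro n
  rw [coeff_one]
  split_ifs <;> simp

theorem Dom.prod {ι : Type*} (J : Finset ι) (F G : ι → PowerSeries ℝ)
    (h : ∀ i ∈ J, Dom (F i) (G i)) : Dom (∏ i ∈ J, F i) (∏ i ∈ J, G i) := by
  classical
  induction J using Finset.induction_on with
  | empty => simpa using Dom.one
  | insert i J hi ih =>
    rw [Finset.prod_insert hi, Finset.prod_insert hi]
    exact (h i (Finset.mem_insert_self _ _)).mul
      (ih fun j hj => h j (Finset.mem_insert_of_mem hj))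

theorem dom_S_tr (e : ℕ → ℝ) (a m : ℕ) : Dom (S (tr e a) m) (S (fun b => |e b|) m) := by
  intro n
  simp only [S, coeff_mk, tr]
  split_ifs <;> simp

theorem sum_abs_sh_le {ι : Type*} (e : ℕ → ℝ) (μ : ι → ℕ) (J : Finset ι)
    (hμ : ∀ i ∈ J, 1 ≤ μ i) (d : ℕ) (hd : 1 ≤ d) (a n : ℕ) :
    ∑ b ∈ range a, |sh 1 e μ J b (d * b) n| ≤ (∑ b ∈ range (n + 1), |e b|) ^ J.card := by
  set H : PowerSeries ℝ := ∏ i ∈ J, S (fun b => |e b|) (μ i) with hH
  have hdom : ∀ b m, |XX 1 e μ J b m| ≤ coeff m H := by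
    intro b m
    have := Dom.prod J (fun i => S (tr e b) (μ i)) (fun i => S (fun b => |e b|) (μ i))
      (fun i _ => dom_S_tr e b (μ i)) m
    simpa [XX, hH] using this
  have hH0 : ∀ m, 0 ≤ coeff m H := fun m => (abs_nonneg _).trans (hdom 0 m)
  have hl1 : ∑ m ∈ range (n + 1), coeff m H ≤ (∑ b ∈ range (n + 1), |e b|) ^ J.card := by
    have := l1_prod_S (fun b => |e b|) μ J hμ n
    simp only [abs_abs] at this
    refine le_trans (le_of_eq ?_) this
    unfold l1
    exact Finset.sum_congr rfl fun m _ => (abs_of_nonneg (hH0 m)).symm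
  refine le_trans ?_ hl1
  calc ∑ b ∈ range a, |sh 1 e μ J b (d * b) n|
      ≤ ∑ b ∈ range a, (if d * b ≤ n then coeff (n - d * b) H else 0) := by
        refine Finset.sum_le_sum fun b _ => ?_
        unfold sh
        split_ifs with h
        · exact hdom _ _
        · simp
    _ = ∑ b ∈ (range a).filter (fun b => d * b ≤ n), coeff (n - d * b) H := by
        rw [Finset.sum_filter]
    _ = ∑ m ∈ ((range a).filter (fun b => d * b ≤ n)).image (fun b => n - d * b), coeff m H := by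
        rw [Finset.sum_image]
        intro b hb c hc hbc
        simp only [Finset.coe_filter, Finset.mem_range, Set.mem_ofPred_eq] at hb hc hbc
        have : d * b = d * c := by omega
        exact Nat.eq_of_mul_eq_mul_left hd this
    _ ≤ ∑ m ∈ range (n + 1), coeff m H := by
        refine Finset.sum_le_sum_of_subset_of_nonneg ?_ fun m _ _ => hH0 m
        intro m hm
        simp only [Finset.mem_image, Finset.mem_filter, Finset.mem_range] at hm ⊢
        obtain ⟨b, _, rfl⟩ := hm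
        omega

/-- degree bound -/
def DegLe (F : PowerSeries ℝ) (D : ℕ) : Prop := ∀ n, D < n → coeff n F = 0

theorem DegLe.mul {F G : PowerSeries ℝ} {D D' : ℕ} (h : DegLe F D) (h' : DegLe G D') :
    DegLe (F * G) (D + D') := by
  intro n hn
  rw [coeff_mul]
  refine Finset.sum_eq_zero fun q hq => ?_
  rw [Finset.HasAntidiagonal.mem_antidiagonal] at hq
  by_cases h1 : D < q.1
  · rw [h _ h1, zero_mul]
  · rw [h' q.2 (by omega), mul_zero]

theorem DegLe.prod {ι : Type*} (J : Finset ι) (F : ι → PowerSeries ℝ) (D : ι → ℕ)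
    (h : ∀ i ∈ J, DegLe (F i) (D i)) : DegLe (∏ i ∈ J, F i) (∑ i ∈ J, D i) := by
  classical
  induction J using Finset.induction_on with
  | empty =>
    intro n hn
    simp only [Finset.sum_empty] at hn
    simp only [Finset.prod_empty, coeff_one]
    rw [if_neg (by omega)]
  | insert i J hi ih =>
    rw [Finset.prod_insert hi, Finset.sum_insert hi]
    exact (h i (Finset.mem_insert_self _ _)).mul
      (ih fun j hj => h j (Finset.mem_insert_of_mem hj))

theorem degLe_S_tr (e : ℕ → ℝ) (a m : ℕ) (hm : 1 ≤ m) : DegLe (S (tr e a) m) (m * a) := by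
  intro n hn
  simp only [S, coeff_mk, tr]
  split_ifs with h1 h2
  · exfalso
    obtain ⟨c, rfl⟩ := h1
    rw [Nat.mul_div_cancel_left _ hm] at h2
    have := Nat.mul_le_mul_left m h2.le
    omega
  · rfl
  · rfl

theorem sh_ne_zero {ι : Type*} [DecidableEq ι] (e : ℕ → ℝ) (μ : ι → ℕ) (J T : Finset ι)
    (hT : T ⊆ J) (hμ : ∀ i ∈ J, 1 ≤ μ i) (b n : ℕ)
    (h : sh 1 e μ (J \ T) b ((∑ i ∈ T, μ i) * b) n ≠ 0) : n ≤ (∑ i ∈ J, μ i) * b := by
  unfold sh at h
  split_ifs at h with h1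
  · by_contra hn
    push Not at hn
    apply h
    unfold XX
    rw [one_mul]
    have hdeg := DegLe.prod (J \ T) (fun i => S (tr e b) (μ i)) (fun i => μ i * b)
      (fun i hi => degLe_S_tr e b (μ i) (hμ i (Finset.mem_sdiff.mp hi).1))
    apply hdeg
    have h2 : (∑ i ∈ J \ T, μ i) + ∑ i ∈ T, μ i = ∑ i ∈ J, μ i := Finset.sum_sdiff hT
    rw [← h2, add_mul] at hn
    rw [← Finset.sum_mul]
    omega
  · exact absurd rfl h

theorem sh_eq_zero {ι : Type*} (Q : PowerSeries ℝ) (e : ℕ → ℝ) (μ : ι → ℕ) (J : Finset ι)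
    (a d b n : ℕ) (hd : 1 ≤ d) (h : n < b) : sh Q e μ J a (d * b) n = 0 := by
  unfold sh
  rw [if_neg]
  have := Nat.mul_le_mul_right b hd
  omega

theorem card_sdiff_lt {ι : Type*} [DecidableEq ι] {J T : Finset ι} (hT : T ∈ J.powerset.erase ∅) :
    (J \ T).card + T.card = J.card ∧ 1 ≤ T.card ∧ T ⊆ J := by
  rw [Finset.mem_erase, Finset.mem_powerset] at hT
  refine ⟨Finset.card_sdiff_add_card_eq_card hT.2, ?_, hT.2⟩
  exact Finset.card_pos.mpr (Finset.nonempty_iff_ne_empty.mpr hT.1)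

theorem one_le_sum {ι : Type*} [DecidableEq ι] {J T : Finset ι} {μ : ι → ℕ}
    (hμ : ∀ i ∈ J, 1 ≤ μ i) (hT : T ∈ J.powerset.erase ∅) : 1 ≤ ∑ i ∈ T, μ i := by
  obtain ⟨_, h2, h3⟩ := card_sdiff_lt hT
  calc 1 ≤ T.card := h2
    _ = ∑ i ∈ T, 1 := by simp
    _ ≤ ∑ i ∈ T, μ i := Finset.sum_le_sum fun i hi => hμ i (h3 hi)

end Pool.Agent.H99.Inc
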