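import Pool.Agent.H99.Inc.Defs

namespace Pool.Agent.H99.Inc

open Finset PowerSeries

theorem bc_zero_idx (β : ℝ) : bc β 0 = 1 := by simp [bc]

theorem bc_succ (β : ℝ) (n : ℕ) : bc β (n + 1) = bc β n * ((β + n) / (n + 1)) := by
  rw [bc, bc, Finset.prod_range_succ]

theorem bc_succ_mul (β : ℝ) (n : ℕ) : ((n : ℝ) + 1) * bc β (n + 1) = (β + n) * bc β n := by
  rw [bc_succ]
  have : (n : ℝ) + 1 ≠ 0 := by positivity
  field_simp

theorem B_mul (β γ : ℝ) : B β * B γ = B (β + γ) := by
  ext n
  simp only [B, coeff_mul, coeff_mk]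
  induction n with
  | zero => simp [bc_zero_idx]
  | succ n ih =>
    have hn : ((n : ℝ) + 1) ≠ 0 := by positivity
    apply mul_left_cancel₀ hn
    rw [bc_succ_mul, ← ih, Finset.mul_sum, Finset.mul_sum]
    have h1 : ∑ p ∈ antidiagonal (n + 1), ((n : ℝ) + 1) * (bc β p.1 * bc γ p.2) =
        ∑ p ∈ antidiagonal (n + 1), (p.1 : ℝ) * bc β p.1 * bc γ p.2 +
        ∑ p ∈ antidiagonal (n + 1), bc β p.1 * ((p.2 : ℝ) * bc γ p.2) := by
      rw [← Finset.sum_add_distrib]
      apply Finset.sum_congr rfl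
      intro p hp
      have h2 : p.1 + p.2 = n + 1 := by simpa using hp
      have h3 : (p.1 : ℝ) + p.2 = n + 1 := by exact_mod_cast h2
      rw [← h3]
      ring
    rw [h1, Finset.Nat.sum_antidiagonal_succ, Finset.Nat.sum_antidiagonal_succ']
    simp only [Nat.cast_zero, zero_mul, mul_zero, zero_add]
    rw [← Finset.sum_add_distrib]
    apply Finset.sum_congr rfl
    intro p hp
    have h2 : p.1 + p.2 = n := by simpa using hp
    have h3 : (p.1 : ℝ) + p.2 = n := by exact_mod_cast h2
    push_cast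
    rw [bc_succ_mul, bc_succ_mul, ← h3]
    ring

theorem bc_zero_left (n : ℕ) : bc 0 (n + 1) = 0 := by
  rw [bc]
  apply Finset.prod_eq_zero (i := 0) (by simp)
  simp

theorem B_zero : B 0 = 1 := by
  ext n
  rw [B, coeff_mk, coeff_one]
  rcases n with _ | n
  · simp [bc_zero_idx]
  · simp [bc_zero_left]

theorem bc_one_left (n : ℕ) : bc 1 n = 1 := by
  rw [bc]
  apply Finset.prod_eq_one
  intro i _
  have : (i : ℝ) + 1 ≠ 0 := by positivity
  rw [add_comm, div_self this]

theorem B_one : B 1 = PowerSeries.mk fun _ => (1 : ℝ) := by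
  ext n
  simp [B, bc_one_left]

theorem B_neg_one : B (-1) = 1 - X := by
  ext n
  rw [B, coeff_mk, map_sub, coeff_one, coeff_X]
  rcases n with _ | _ | n
  · simp [bc_zero_idx]
  · simp [bc_succ, bc_zero_idx]
  · have h1 : bc (-1) (n + 2) = 0 := by
      rw [bc]
      apply Finset.prod_eq_zero (i := 1) (by simp)
      norm_num
    rw [h1]
    have h2 : ¬ (n + 1 + 1 = 0) := by omega
    have h3 : ¬ (n + 1 + 1 = 1) := by omega
    rw [if_neg h2, if_neg h3]
    ring

theorem bc_pos {β : ℝ} (hβ : 0 < β) (n : ℕ) : 0 < bc β n := by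
  apply Finset.prod_pos
  intro i _
  positivity

theorem bc_le_one {β : ℝ} (h0 : 0 ≤ β) (h1 : β ≤ 1) (n : ℕ) : bc β n ≤ 1 := by
  apply Finset.prod_le_one
  · intro i _
    positivity
  · intro i _
    rw [div_le_one (by positivity)]
    linarith

theorem bc_prod_le_exp (f : ℕ → ℝ) (hf : ∀ i, 0 ≤ 1 + f i) (n : ℕ) :
    ∏ i ∈ range n, (1 + f i) ≤ Real.exp (∑ i ∈ range n, f i) := by
  rw [Real.exp_sum]
  apply Finset.prod_le_prod
  · intro i _
    exact hf i
  · intro i _
    rw [add_comm]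
    exact Real.add_one_le_exp _

theorem bc_harm_lower (n : ℕ) : Real.log ((n : ℝ) + 1) ≤ ∑ i ∈ range n, ((i : ℝ) + 1)⁻¹ := by
  have h := log_add_one_le_harmonic n
  rw [harmonic] at h
  push_cast at h
  exact h

theorem bc_harm_upper (n : ℕ) :
    ∑ i ∈ range n, ((i : ℝ) + 1)⁻¹ ≤ 1 + Real.log ((n : ℝ) + 1) := by
  have h := harmonic_le_one_add_log n
  rw [harmonic] at h
  push_cast at h
  refine h.trans ?_
  rcases Nat.eq_zero_or_pos n with h0 | h0
  · subst h0
    simp
  · have h1 : (0 : ℝ) < n := by exact_mod_cast h0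
    have := Real.log_le_log h1 (by linarith : (n : ℝ) ≤ n + 1)
    linarith

theorem bc_upper {β : ℝ} (hβ : 0 < β) :
    ∃ C > 0, ∀ n : ℕ, bc β n ≤ C * ((n : ℝ) + 1) ^ (β - 1) := by
  refine ⟨Real.exp |β - 1|, Real.exp_pos _, fun n => ?_⟩
  have hn : (0 : ℝ) < (n : ℝ) + 1 := by positivity
  have h1 : bc β n = ∏ i ∈ range n, (1 + (β - 1) * ((i : ℝ) + 1)⁻¹) := by
    rw [bc]
    apply Finset.prod_congr rfl
    intro i _
    have : (i : ℝ) + 1 ≠ 0 := by positivity
    field_simp
    ring
  have h2 : ∀ i : ℕ, 0 ≤ 1 + (β - 1) * ((i : ℝ) + 1)⁻¹ := by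
    intro i
    have h3 : 1 + (β - 1) * ((i : ℝ) + 1)⁻¹ = (β + i) / (i + 1) := by
      have : (i : ℝ) + 1 ≠ 0 := by positivity
      field_simp
      ring
    rw [h3]
    positivity
  rw [h1]
  refine (bc_prod_le_exp _ h2 n).trans ?_
  rw [← Finset.mul_sum, Real.rpow_def_of_pos hn, ← Real.exp_add]
  apply Real.exp_le_exp.2
  have hlo := bc_harm_lower n
  have hup := bc_harm_upper n
  rcases le_total 1 β with h | h
  · rw [abs_of_nonneg (by linarith)]
    have := mul_le_mul_of_nonneg_left hup (by linarith : 0 ≤ β - 1)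
    linarith
  · rw [abs_of_nonpos (by linarith)]
    have := mul_le_mul_of_nonpos_left hlo (by linarith : β - 1 ≤ 0)
    linarith

theorem bc_lower {β : ℝ} (hβ : 0 < β) :
    ∃ c > 0, ∀ n : ℕ, c * ((n : ℝ) + 1) ^ (β - 1) ≤ bc β n := by
  -- an upper bound for the inverse
  have key : ∃ K : ℝ, ∀ n : ℕ, (bc β n)⁻¹ ≤ Real.exp K * ((n : ℝ) + 1) ^ (1 - β) := by
    have h1 : ∀ n, (bc β n)⁻¹ = ∏ i ∈ range n, (1 + (1 - β) * (β + i)⁻¹) := by
      intro n
      rw [bc, ← Finset.prod_inv_distrib]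
      apply Finset.prod_congr rfl
      intro i _
      have h3 : β + (i : ℝ) ≠ 0 := by positivity
      have h4 : (i : ℝ) + 1 ≠ 0 := by positivity
      rw [inv_div]
      field_simp
      ring
    have h2 : ∀ i : ℕ, 0 ≤ 1 + (1 - β) * (β + (i : ℝ))⁻¹ := by
      intro i
      have h3 : 1 + (1 - β) * (β + (i : ℝ))⁻¹ = (i + 1) / (β + i) := by
        have h3 : β + (i : ℝ) ≠ 0 := by positivity
        field_simp
        ring
      rw [h3]
      positivity
    rcases le_total β 1 with h | h
    · refine ⟨(1 - β) * (β⁻¹ + 1), fun n => ?_⟩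
      have hn : (0 : ℝ) < (n : ℝ) + 1 := by positivity
      rw [h1]
      refine (bc_prod_le_exp _ h2 n).trans ?_
      rw [← Finset.mul_sum, Real.rpow_def_of_pos hn, ← Real.exp_add]
      apply Real.exp_le_exp.2
      have hsum : ∑ i ∈ range n, (β + (i : ℝ))⁻¹ ≤ β⁻¹ + 1 + Real.log ((n : ℝ) + 1) := by
        rcases n with _ | m
        · simp
          positivity
        · rw [Finset.sum_range_succ']
          have h5 : ∑ k ∈ range m, (β + ((k + 1 : ℕ) : ℝ))⁻¹ ≤
              ∑ k ∈ range m, ((k : ℝ) + 1)⁻¹ := by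
            apply Finset.sum_le_sum
            intro k _
            push_cast
            apply inv_anti₀ (by positivity)
            linarith
          have h6 := bc_harm_upper m
          have h7 : Real.log ((m : ℝ) + 1) ≤ Real.log (((m + 1 : ℕ) : ℝ) + 1) := by
            apply Real.log_le_log (by positivity)
            push_cast
            linarith
          simp only [Nat.cast_zero, add_zero]
          linarith
      have := mul_le_mul_of_nonneg_left hsum (by linarith : 0 ≤ 1 - β)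
      linarith
    · refine ⟨(β - 1) * Real.log β, fun n => ?_⟩
      have hn : (0 : ℝ) < (n : ℝ) + 1 := by positivity
      rw [h1]
      refine (bc_prod_le_exp _ h2 n).trans ?_
      rw [← Finset.mul_sum, Real.rpow_def_of_pos hn, ← Real.exp_add]
      apply Real.exp_le_exp.2
      have htel : ∀ m : ℕ, Real.log (β + m) - Real.log β ≤ ∑ i ∈ range m, (β + (i : ℝ))⁻¹ := by
        intro m
        induction m with
        | zero => simp
        | succ m ih =>
          rw [Finset.sum_range_succ]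
          have h5 : 0 < β + (m : ℝ) := by positivity
          have h6 : Real.log (β + ((m + 1 : ℕ) : ℝ)) - Real.log (β + m) ≤ (β + (m : ℝ))⁻¹ := by
            rw [← Real.log_div (by positivity) (by positivity)]
            refine (Real.log_le_sub_one_of_pos (by positivity)).trans (le_of_eq ?_)
            push_cast
            field_simp
            ring
          linarith
      have h8 : Real.log ((n : ℝ) + 1) ≤ Real.log (β + n) := by
        apply Real.log_le_log hn
        linarith
      have h9 := htel n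
      have h10 : Real.log ((n : ℝ) + 1) - Real.log β ≤ ∑ i ∈ range n, (β + (i : ℝ))⁻¹ := by
        linarith
      have := mul_le_mul_of_nonpos_left h10 (by linarith : 1 - β ≤ 0)
      linarith
  obtain ⟨K, hK⟩ := key
  refine ⟨(Real.exp K)⁻¹, by positivity, fun n => ?_⟩
  have hn : (0 : ℝ) < (n : ℝ) + 1 := by positivity
  have hb := bc_pos hβ n
  have h1 := hK n
  have h2 : ((n : ℝ) + 1) ^ (1 - β) = (((n : ℝ) + 1) ^ (β - 1))⁻¹ := by
    rw [← Real.rpow_neg hn.le]
    congr 1
    ring
  rw [h2] at h1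
  have h3 : 0 < ((n : ℝ) + 1) ^ (β - 1) := Real.rpow_pos_of_pos hn _
  have h4 : 0 < Real.exp K := Real.exp_pos K
  have h5 : ((n : ℝ) + 1) ^ (β - 1) ≤ Real.exp K * bc β n := by
    have := mul_le_mul_of_nonneg_left h1 (mul_pos h3 hb).le
    have e1 : ((n : ℝ) + 1) ^ (β - 1) * bc β n * (bc β n)⁻¹ = ((n : ℝ) + 1) ^ (β - 1) := by
      field_simp
    have e2 : ((n : ℝ) + 1) ^ (β - 1) * bc β n * (Real.exp K * (((n : ℝ) + 1) ^ (β - 1))⁻¹) =
        Real.exp K * bc β n := by
      field_simp
    rw [e1, e2] at this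
    exact this
  rw [inv_mul_le_iff₀ h4]
  exact h5

theorem bc_shift (β : ℝ) (n : ℕ) : ((n : ℝ) + 1) * bc β (n + 1) = β * bc (β + 1) n := by
  induction n with
  | zero => simp [bc_succ, bc_zero_idx]
  | succ n ih =>
    have h1 := bc_succ_mul β (n + 1)
    have h2 := bc_succ_mul (β + 1) n
    push_cast at h1 ⊢
    rw [h1]
    have hn : ((n : ℝ) + 1) ≠ 0 := by positivity
    apply mul_left_cancel₀ hn
    calc ((n : ℝ) + 1) * ((β + (n + 1)) * bc β (n + 1))
        = (β + (n + 1)) * (((n : ℝ) + 1) * bc β (n + 1)) := by ring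
      _ = (β + (n + 1)) * (β * bc (β + 1) n) := by rw [ih]
      _ = β * ((β + 1 + n) * bc (β + 1) n) := by ring
      _ = β * (((n : ℝ) + 1) * bc (β + 1) (n + 1)) := by rw [h2]
      _ = _ := by ring

theorem sum_bc (β : ℝ) (n : ℕ) : ∑ m ∈ range (n + 1), bc β m = bc (β + 1) n := by
  induction n with
  | zero => simp [bc_zero_idx]
  | succ n ih =>
    rw [Finset.sum_range_succ, ih]
    have h1 := bc_shift β n
    have h2 := bc_succ_mul (β + 1) n
    have hn : ((n : ℝ) + 1) ≠ 0 := by positivity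
    apply mul_left_cancel₀ hn
    rw [h2, mul_add, h1]
    ring

theorem bc_nonneg {β : ℝ} (hβ : 0 ≤ β) (n : ℕ) : 0 ≤ bc β n := by
  apply Finset.prod_nonneg
  intro i _
  positivity

theorem bc_l1 {β : ℝ} (hβ : -1 ≤ β) :
    ∃ C > 0, ∀ n : ℕ, ∑ m ∈ range (n + 1), |bc β m| ≤ C * ((n : ℝ) + 1) ^ (max β 0) := by
  rcases le_total 0 β with h | h
  · obtain ⟨C, hC, h1⟩ := bc_upper (β := β + 1) (by linarith)
    refine ⟨C, hC, fun n => ?_⟩
    rw [max_eq_left h]
    have h2 : ∑ m ∈ range (n + 1), |bc β m| = bc (β + 1) n := by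
      rw [← sum_bc]
      apply Finset.sum_congr rfl
      intro m _
      exact abs_of_nonneg (bc_nonneg h m)
    rw [h2]
    have := h1 n
    rwa [add_sub_cancel_right] at this
  · refine ⟨2, by norm_num, fun n => ?_⟩
    rw [max_eq_right h, Real.rpow_zero, mul_one]
    have h1 : ∀ m, bc β (m + 1) ≤ 0 := by
      intro m
      have h2 := bc_shift β m
      have h3 : 0 ≤ bc (β + 1) m := bc_nonneg (by linarith) m
      have h4 : β * bc (β + 1) m ≤ 0 := mul_nonpos_of_nonpos_of_nonneg h h3
      rw [← h2] at h4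
      have hm : (0 : ℝ) < (m : ℝ) + 1 := by positivity
      by_contra hcon
      push Not at hcon
      have := mul_pos hm hcon
      linarith
    rw [Finset.sum_range_succ', bc_zero_idx]
    have h5 : ∑ k ∈ range n, |bc β (k + 1)| = - ∑ k ∈ range n, bc β (k + 1) := by
      rw [← Finset.sum_neg_distrib]
      apply Finset.sum_congr rfl
      intro m _
      exact abs_of_nonpos (h1 m)
    have h6 := sum_bc β n
    rw [Finset.sum_range_succ', bc_zero_idx] at h6
    have h7 : 0 ≤ bc (β + 1) n := bc_nonneg (by linarith) n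
    rw [h5, abs_one]
    linarith

end Pool.Agent.H99.Inc
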