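import Pool.Agent.H99.Inc.Defs

namespace Pool.Agent.H99.Inc

open Finset PowerSeries

/-- weighted counts are coefficients of products -/
theorem card_eq_coeff {ι : Type*} [DecidableEq ι] (A : Set ℕ) (J : Finset ι) (μ : ι → ℕ)
    (hμ : ∀ i ∈ J, 1 ≤ μ i) (n : ℕ) :
    (Nat.card {b : J → ℕ // (∀ i, b i ∈ A) ∧ ∑ i : J, μ i * b i = n} : ℝ)
      = coeff n (∏ i ∈ J, S (ind A) (μ i)) := by
  classical
  let P : (ι →₀ ℕ) → Prop := fun l => ∀ i ∈ J, μ i ∣ l i ∧ l i / μ i ∈ A
  have h1 : coeff n (∏ i ∈ J, S (ind A) (μ i)) =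
      (((finsuppAntidiag J n).filter P).card : ℝ) := by
    rw [coeff_prod, Finset.card_filter]
    push_cast
    apply Finset.sum_congr rfl
    intro l _
    by_cases hP : P l
    · rw [if_pos hP]
      apply Finset.prod_eq_one
      intro i hi
      rw [S, coeff_mk, if_pos (hP i hi).1, ind, if_pos (hP i hi).2]
    · rw [if_neg hP]
      simp only [P] at hP
      push Not at hP
      obtain ⟨i, hi, h2⟩ := hP
      apply Finset.prod_eq_zero hi
      rw [S, coeff_mk]
      split_ifs with h3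
      · rw [ind, if_neg (h2 h3)]
      · rfl
  rw [h1, ← Nat.card_eq_finsetCard]
  congr 1
  apply Nat.card_congr
  refine ⟨fun b => ⟨Finsupp.onFinset J
      (fun i => if h : i ∈ J then μ i * b.1 ⟨i, h⟩ else 0) ?_, ?_⟩,
    fun l => ⟨fun i => l.1 i / μ i, ?_⟩, ?_, ?_⟩
  · intro i hi
    by_contra hcon
    rw [dif_neg hcon] at hi
    exact hi rfl
  · rw [Finset.mem_filter, Finset.mem_finsuppAntidiag]
    refine ⟨⟨?_, Finsupp.support_onFinset_subset⟩, ?_⟩
    · refine Eq.trans ?_ b.2.2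
      simp only [Finsupp.onFinset_apply]
      rw [← Finset.sum_coe_sort J]
      apply Finset.sum_congr rfl
      intro i _
      rw [dif_pos i.2]
    · intro i hi
      simp only [Finsupp.onFinset_apply]
      rw [dif_pos hi]
      refine ⟨dvd_mul_right _ _, ?_⟩
      rw [Nat.mul_div_cancel_left _ (hμ i hi)]
      exact b.2.1 ⟨i, hi⟩
  · have hl := Finset.mem_filter.1 l.2
    rw [Finset.mem_finsuppAntidiag] at hl
    refine ⟨fun i => (hl.2 i i.2).2, Eq.trans ?_ hl.1.1⟩
    rw [← Finset.sum_coe_sort J]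
    apply Finset.sum_congr rfl
    intro i _
    exact Nat.mul_div_cancel' (hl.2 i i.2).1
  · intro b
    apply Subtype.ext
    funext i
    simp only [Finsupp.onFinset_apply]
    rw [dif_pos i.2, Nat.mul_div_cancel_left _ (hμ i i.2)]
  · intro l
    have hl := Finset.mem_filter.1 l.2
    rw [Finset.mem_finsuppAntidiag] at hl
    apply Subtype.ext
    ext i
    simp only [Finsupp.onFinset_apply]
    split_ifs with hi
    · exact Nat.mul_div_cancel' (hl.2 i hi).1
    · symm
      by_contra hcon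
      exact hi (hl.1.2 (Finsupp.mem_support_iff.2 hcon))

theorem coeff_invariant {k : ℕ} {σ : Equiv.Perm (Fin k)} {a : Fin k → ℕ}
    (ha : ∀ i, a (σ i) = a i) {i j : Fin k} (h : σ.SameCycle i j) : a i = a j := by
  have h1 : ∀ (m : ℕ) (x : Fin k), a ((σ ^ m) x) = a x := by
    intro m
    induction m with
    | zero => intro x; simp
    | succ m ih =>
      intro x
      rw [pow_succ, Equiv.Perm.mul_apply, ih, ha]
  obtain ⟨z, hz⟩ := h
  rcases Int.eq_nat_or_neg z with ⟨m, rfl | rfl⟩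
  · rw [zpow_natCast] at hz
    rw [← hz, h1]
  · rw [zpow_neg, zpow_natCast, Equiv.Perm.inv_eq_iff_eq] at hz
    rw [hz, h1]

theorem FixC_eq_coeff {k : ℕ} (σ : Equiv.Perm (Fin k)) :
    ∃ (J : Finset (Fin k)) (μ : Fin k → ℕ), (∀ i ∈ J, 1 ≤ μ i) ∧ (∀ i, μ i ≤ k) ∧
      ∑ i ∈ J, μ i = k ∧ (σ ≠ 1 → ∃ i ∈ J, 2 ≤ μ i) ∧
      ∀ (A : Set ℕ) (n : ℕ), (FixC A σ n : ℝ) = coeff n (∏ i ∈ J, S (ind A) (μ i)) := by
  classical
  let cls : Fin k → Finset (Fin k) := fun i => univ.filter (fun j => σ.SameCycle i j)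
  have hself : ∀ i, i ∈ cls i := fun i =>
    Finset.mem_filter.2 ⟨Finset.mem_univ _, Equiv.Perm.SameCycle.refl σ i⟩
  let rep : Fin k → Fin k := fun i => (cls i).min' ⟨i, hself i⟩
  have hrep : ∀ i, σ.SameCycle i (rep i) := fun i =>
    (Finset.mem_filter.1 ((cls i).min'_mem ⟨i, hself i⟩)).2
  have hcls : ∀ i j, σ.SameCycle i j → cls i = cls j := by
    intro i j hij
    ext x
    simp only [cls, Finset.mem_filter, Finset.mem_univ, true_and]
    exact ⟨fun h => hij.symm.trans h, fun h => hij.trans h⟩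
  have hrepeq : ∀ i j, σ.SameCycle i j → rep i = rep j := by
    intro i j hij
    simp only [rep]
    congr 1
    exact hcls i j hij
  have hreprep : ∀ i, rep (rep i) = rep i := fun i => (hrepeq _ _ (hrep i)).symm
  let J : Finset (Fin k) := univ.filter (fun i => rep i = i)
  let μ : Fin k → ℕ := fun i => (cls i).card
  have hrepJ : ∀ i, rep i ∈ J := fun i => Finset.mem_filter.2 ⟨Finset.mem_univ _, hreprep i⟩
  have hfib : ∀ j ∈ J, univ.filter (fun i => rep i = j) = cls j := by
    intro j hj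
    ext x
    simp only [cls, Finset.mem_filter, Finset.mem_univ, true_and]
    constructor
    · intro h
      rw [← h]
      exact (hrep x).symm
    · intro h
      rw [← hrepeq j x h]
      exact (Finset.mem_filter.1 hj).2
  have hμ1 : ∀ i, 1 ≤ μ i := fun i => Finset.card_pos.2 ⟨i, hself i⟩
  have hsumf : ∀ a : Fin k → ℕ, (∀ i, a (σ i) = a i) → ∑ i ∈ J, μ i * a i = ∑ i, a i := by
    intro a ha
    rw [← Finset.sum_fiberwise_of_maps_to (s := univ) (t := J) (g := rep) (fun i _ => hrepJ i) a]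
    apply Finset.sum_congr rfl
    intro j hj
    have h1 : ∑ i ∈ univ.filter (fun i => rep i = j), a i =
        ∑ _i ∈ univ.filter (fun i => rep i = j), a j := by
      apply Finset.sum_congr rfl
      intro i hi
      have h2 := (Finset.mem_filter.1 hi).2
      rw [← h2]
      exact coeff_invariant ha (hrep i)
    rw [h1, Finset.sum_const, hfib j hj, smul_eq_mul]
  refine ⟨J, μ, fun i _ => hμ1 i, ?_, ?_, ?_, ?_⟩
  · intro i
    have := Finset.card_le_univ (cls i)
    rwa [Fintype.card_fin] at this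
  · have h1 := hsumf (fun _ => 1) (fun _ => rfl)
    simpa using h1
  · intro hσ
    obtain ⟨x, hx⟩ : ∃ x, σ x ≠ x := by
      by_contra hcon
      push Not at hcon
      exact hσ (Equiv.ext hcon)
    refine ⟨rep x, hrepJ x, ?_⟩
    have h1 : cls (rep x) = cls x := (hcls x (rep x) (hrep x)).symm
    have h2 : σ x ∈ cls x := by
      simp only [cls, Finset.mem_filter, Finset.mem_univ, true_and]
      exact Equiv.Perm.sameCycle_apply_right.2 (Equiv.Perm.SameCycle.refl σ x)
    have h3 : 1 < (cls x).card := Finset.one_lt_card.2 ⟨σ x, h2, x, hself x, hx⟩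
    simp only [μ]
    rw [h1]
    exact h3
  · intro A n
    rw [← card_eq_coeff A J μ (fun i _ => hμ1 i) n, FixC]
    congr 1
    apply Nat.card_congr
    refine ⟨fun a => ⟨fun j => a.1 j, ?_⟩, fun b => ⟨fun i => b.1 ⟨rep i, hrepJ i⟩, ?_⟩, ?_, ?_⟩
    · refine ⟨fun i => a.2.1 i, Eq.trans ?_ a.2.2.1⟩
      rw [← hsumf a.1 a.2.2.2, ← Finset.sum_coe_sort J]
    · have hinv : ∀ i, b.1 ⟨rep (σ i), hrepJ (σ i)⟩ = b.1 ⟨rep i, hrepJ i⟩ := by
        intro i
        exact congrArg b.1 (Subtype.ext (hrepeq _ _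
          (Equiv.Perm.sameCycle_apply_left.2 (Equiv.Perm.SameCycle.refl σ i))))
      refine ⟨fun i => b.2.1 _, Eq.trans ?_ b.2.2, hinv⟩
      rw [← hsumf (fun i => b.1 ⟨rep i, hrepJ i⟩) hinv, ← Finset.sum_coe_sort J]
      apply Finset.sum_congr rfl
      intro i _
      exact congrArg (fun t => μ i * t)
        (congrArg b.1 (Subtype.ext (Finset.mem_filter.1 i.2).2))
    · intro a
      apply Subtype.ext
      funext i
      exact (coeff_invariant a.2.2.2 (hrep i)).symm
    · intro b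
      apply Subtype.ext
      funext j
      exact congrArg b.1 (Subtype.ext (Finset.mem_filter.1 j.2).2)

theorem R1_eq_coeff (A : Set ℕ) (k n : ℕ) :
    (R1 A k n : ℝ) = coeff n (∏ _i : Fin k, S (ind A) 1) := by
  classical
  rw [← card_eq_coeff A (univ : Finset (Fin k)) (fun _ => 1) (fun _ _ => le_rfl) n, R1]
  congr 1
  apply Nat.card_congr
  refine ⟨fun a => ⟨fun j => a.1 j, ?_⟩, fun b => ⟨fun i => b.1 ⟨i, Finset.mem_univ i⟩, ?_⟩, ?_, ?_⟩
  · refine ⟨fun i => a.2.1 i, Eq.trans ?_ a.2.2⟩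
    simp only [one_mul]
    exact Finset.sum_coe_sort univ a.1
  · refine ⟨fun i => b.2.1 _, Eq.trans ?_ b.2.2⟩
    simp only [one_mul]
    exact (Finset.sum_coe_sort univ (fun i => b.1 ⟨i, Finset.mem_univ i⟩)).symm
  · intro a
    rfl
  · intro b
    rfl

end Pool.Agent.H99.Inc
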