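import Pool.Agent.H99.Inc.Alg

/-!
The induction giving square root cancellation for all truncated coefficients.
-/

namespace Pool.Agent.H99.Inc

open Finset PowerSeries

/-- clamp to `[-1, 1]` -/
noncomputable def cl (y : ℝ) : ℝ := max (-1) (min 1 y)

theorem cl_abs (y : ℝ) : |cl y| ≤ 1 := by
  unfold cl
  rw [abs_le]
  exact ⟨le_max_left _ _, max_le (by norm_num) (min_le_left _ _)⟩

theorem cl_eq {y : ℝ} (h : |y| ≤ 1) : cl y = y := by
  rw [abs_le] at h
  unfold cl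
  rw [min_eq_right h.2, max_eq_right h.1]

theorem sum_range_le_of_vanish (f : ℕ → ℝ) (hf : ∀ b, 0 ≤ f b) (n a : ℕ)
    (hv : ∀ b, n < b → f b = 0) : ∑ b ∈ range a, f b ≤ ∑ b ∈ range (n + 1), f b := by
  have h1 : ∑ b ∈ range a, f b ≤ ∑ b ∈ range (max a (n + 1)), f b :=
    Finset.sum_le_sum_of_subset_of_nonneg (Finset.range_mono (le_max_left _ _))
      fun _ _ _ => hf _
  refine h1.trans (le_of_eq ?_)
  symm
  apply Finset.sum_subset (Finset.range_mono (le_max_right _ _))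
  intro b _ hb
  rw [Finset.mem_range] at hb
  exact hv b (by omega)

theorem step_bound {ι : Type*} [DecidableEq ι] (Q : PowerSeries ℝ) (x p : ℕ → ℝ)
    (hx : ∀ b, x b = 0 ∨ x b = 1) (μ : ι → ℕ) (J : Finset ι) (hJ : J.Nonempty)
    (hμ : ∀ i ∈ J, 1 ≤ μ i) (a n : ℕ) (lam : ℝ) (hl : 0 < lam) (K1 L D : ℝ)
    (hW : ∀ b, |lam * WW Q x p μ J b n| ≤ 1)
    (hpath : |∑ b ∈ range a, (x b - p b) * cl (lam * WW Q x p μ J b n)|
      ≤ ∑ b ∈ range a, p b * (cl (lam * WW Q x p μ J b n)) ^ 2 + L)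
    (hQ : lam ^ 2 * ∑ b ∈ range a, p b * (WW Q x p μ J b n) ^ 2 ≤ K1)
    (hU : ∑ b ∈ range a, |UU Q x p μ J b n| ≤ D) :
    |XX Q (fun i => x i - p i) μ J a n| ≤ (K1 + L) / lam + D := by
  rw [XX_eq_sum Q x p hx μ J hJ hμ a n]
  refine (abs_add_le _ _).trans (add_le_add ?_ ((Finset.abs_sum_le_sum_abs _ _).trans hU))
  have h1 : ∑ b ∈ range a, (x b - p b) * cl (lam * WW Q x p μ J b n)
      = lam * ∑ b ∈ range a, (x b - p b) * WW Q x p μ J b n := by
    rw [Finset.mul_sum]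
    refine Finset.sum_congr rfl fun b _ => ?_
    rw [cl_eq (hW b)]; ring
  have h2 : ∑ b ∈ range a, p b * (cl (lam * WW Q x p μ J b n)) ^ 2
      = lam ^ 2 * ∑ b ∈ range a, p b * (WW Q x p μ J b n) ^ 2 := by
    rw [Finset.mul_sum]
    refine Finset.sum_congr rfl fun b _ => ?_
    rw [cl_eq (hW b)]; ring
  rw [h1, h2, abs_mul, abs_of_pos hl] at hpath
  rw [le_div_iff₀ hl]
  linarith

theorem card_powerset_erase_le {k : ℕ} (J : Finset (Fin k)) :
    ((J.powerset.erase ∅).card : ℝ) ≤ 2 ^ k := by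
  have h1 : (J.powerset.erase ∅).card ≤ 2 ^ J.card := by
    rw [← Finset.card_powerset]
    exact Finset.card_le_card (Finset.erase_subset _ _)
  have h2 : J.card ≤ k := by
    simpa using Finset.card_le_univ J
  have h3 : (2 : ℕ) ^ J.card ≤ 2 ^ k := Nat.pow_le_pow_right (by norm_num) h2
  exact_mod_cast h1.trans h3

/-- the series `1/(1-z)` or `1` -/
noncomputable def Qser : Bool → PowerSeries ℝ
  | true => PowerSeries.mk fun _ => (1 : ℝ)
  | false => 1

theorem abs_Qser_mul_le (τ : Bool) (F : PowerSeries ℝ) (n : ℕ) :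
    |coeff n (Qser τ * F)| ≤ l1 F n := by
  cases τ with
  | false => simpa [Qser] using abs_coeff_le_l1 F n
  | true =>
    rw [mul_comm]
    have := abs_coeff_mul_le_l1 F (Qser true) n 1 (by intro m _; simp [Qser])
    simpa using this

/-- hypotheses on the density `p` and the constructed `0/1` sequence `x` -/
structure PathHyp (k : ℕ) (α ε : ℝ) (p x : ℕ → ℝ) (Cp C0 : ℝ) : Prop where
  hk : 1 ≤ k
  hα : 0 < α
  hα1 : α < 1
  hε : 0 < ε
  hεα : ε ≤ α / 2
  p0 : ∀ b, 0 ≤ p b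
  p1 : ∀ b, p b ≤ 1
  hCp : 0 < Cp
  hpu : ∀ b : ℕ, p b ≤ Cp * ((b : ℝ) + 1) ^ (α - 1)
  hps : ∀ n : ℕ, ∑ b ∈ range (n + 1), p b ≤ Cp * ((n : ℝ) + 2) ^ α
  hx : ∀ b, x b = 0 ∨ x b = 1
  hC0 : 0 ≤ C0
  path1 : ∀ (J : Finset (Fin k)) (μ : Fin k → Fin (k + 1)) (n a : ℕ),
    |∑ b ∈ range a, (x b - p b) * cl (((n : ℝ) + 2) ^ (-((J.card : ℝ) * (α / 2 + ε) - ε))
        * WW (Qser true) x p (fun i => (μ i : ℕ)) J b n)|
      ≤ ∑ b ∈ range a, p b * (cl (((n : ℝ) + 2) ^ (-((J.card : ℝ) * (α / 2 + ε) - ε))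
        * WW (Qser true) x p (fun i => (μ i : ℕ)) J b n)) ^ 2 + (C0 + 2 * Real.log ((n : ℝ) + 2))
  path0 : ∀ (J : Finset (Fin k)) (μ : Fin k → Fin (k + 1)) (n a : ℕ),
    |∑ b ∈ range a, (x b - p b)
        * cl (((n : ℝ) + 2) ^ (-(max ((J.card : ℝ) * α - 1) 0 / 2 + (J.card : ℝ) * ε - ε / 2))
        * WW (Qser false) x p (fun i => (μ i : ℕ)) J b n)|
      ≤ ∑ b ∈ range a, p b
        * (cl (((n : ℝ) + 2) ^ (-(max ((J.card : ℝ) * α - 1) 0 / 2 + (J.card : ℝ) * ε - ε / 2))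
        * WW (Qser false) x p (fun i => (μ i : ℕ)) J b n)) ^ 2 + (C0 + 2 * Real.log ((n : ℝ) + 2))

section

variable {k : ℕ} {α ε : ℝ} {p x : ℕ → ℝ} {Cp C0 : ℝ}

theorem PathHyp.e_abs (H : PathHyp k α ε p x Cp C0) (b : ℕ) : |x b - p b| ≤ 1 := by
  have h0 := H.p0 b
  have h1 := H.p1 b
  rcases H.hx b with h | h
  · rw [h, abs_le]; constructor <;> linarith
  · rw [h, abs_le]; constructor <;> linarith

/-- trivial bound -/
theorem PathHyp.trivial (H : PathHyp k α ε p x Cp C0) (τ : Bool) (μ : Fin k → Fin (k + 1))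
    (J : Finset (Fin k)) (hμ : ∀ i ∈ J, 1 ≤ (μ i : ℕ)) (a n : ℕ) :
    |XX (Qser τ) (fun i => x i - p i) (fun i => (μ i : ℕ)) J a n| ≤ ((n : ℝ) + 2) ^ k := by
  unfold XX
  refine (abs_Qser_mul_le τ _ n).trans ?_
  refine (l1_prod_S _ (fun i => (μ i : ℕ)) J hμ n).trans ?_
  have h1 : ∑ b ∈ range (n + 1), |tr (fun i => x i - p i) a b| ≤ (n : ℝ) + 2 := by
    calc ∑ b ∈ range (n + 1), |tr (fun i => x i - p i) a b|
        ≤ ∑ b ∈ range (n + 1), (1 : ℝ) := by
          refine Finset.sum_le_sum fun b _ => ?_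
          unfold tr
          split_ifs
          · exact H.e_abs b
          · simp
      _ = (n : ℝ) + 1 := by simp
      _ ≤ (n : ℝ) + 2 := by linarith
  have h0 : 0 ≤ ∑ b ∈ range (n + 1), |tr (fun i => x i - p i) a b| :=
    Finset.sum_nonneg fun _ _ => abs_nonneg _
  have hJ : J.card ≤ k := by simpa using Finset.card_le_univ J
  calc (∑ b ∈ range (n + 1), |tr (fun i => x i - p i) a b|) ^ J.card
      ≤ ((n : ℝ) + 2) ^ J.card := pow_le_pow_left₀ h0 h1 _
    _ ≤ ((n : ℝ) + 2) ^ k := pow_le_pow_right₀ (by linarith [Nat.cast_nonneg (α := ℝ) n]) hJ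

theorem log_le_pow {y ε : ℝ} (hy : 1 ≤ y) (hε : 0 < ε) : Real.log y ≤ y ^ ε / ε :=
  Real.log_le_rpow_div (by linarith) hε

/-- final assembling of exponents -/
theorem assemble {y ε g K1 C0 : ℝ} (hy : 1 ≤ y) (hε : 0 < ε) (hK : 0 ≤ K1) (hC0 : 0 ≤ C0) :
    (K1 + (C0 + 2 * Real.log y)) / y ^ (-(g - ε)) ≤ (K1 + C0 + 2 / ε) * y ^ g := by
  have hy0 : 0 < y := by linarith
  rw [Real.rpow_neg hy0.le, div_inv_eq_mul]
  have h1 : Real.log y ≤ y ^ ε / ε := log_le_pow hy hε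
  have h2 : (1 : ℝ) ≤ y ^ ε := Real.one_le_rpow hy hε.le
  have h3 : y ^ g = y ^ ε * y ^ (g - ε) := by
    rw [← Real.rpow_add hy0]; congr 1; ring
  rw [h3, ← mul_assoc]
  refine mul_le_mul_of_nonneg_right ?_ (Real.rpow_nonneg hy0.le _)
  have h4 : (K1 + C0) * 1 ≤ (K1 + C0) * y ^ ε := mul_le_mul_of_nonneg_left h2 (by linarith)
  have h5 : 2 * (y ^ ε / ε) = 2 / ε * y ^ ε := by ring
  nlinarith

/-- uniform constant over smaller cardinalities -/
theorem exists_uniform {P : ℕ → ℝ → Prop} (hmono : ∀ j K K', K ≤ K' → P j K → P j K') (j : ℕ)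
    (h : ∀ i < j, ∃ K > 0, P i K) : ∃ K > 0, ∀ i < j, P i K := by
  induction j with
  | zero => exact ⟨1, one_pos, fun i hi => absurd hi (Nat.not_lt_zero _)⟩
  | succ j ih =>
    obtain ⟨K, hK, hP⟩ := ih fun i hi => h i (Nat.lt_succ_of_lt hi)
    obtain ⟨K', hK', hP'⟩ := h j (Nat.lt_succ_self j)
    refine ⟨max K K', lt_max_of_lt_left hK, fun i hi => ?_⟩
    rcases Nat.lt_succ_iff_lt_or_eq.mp hi with h1 | h1
    · exact hmono _ _ _ (le_max_left _ _) (hP i h1)
    · subst h1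
      exact hmono _ _ _ (le_max_right _ _) hP'

theorem small_n_bound {y A M : ℝ} {δ : ℝ} {k : ℕ} (hy : 1 ≤ y) (hδ : 0 < δ)
    (h : ¬ (M ≤ y ^ δ)) (hA : A ≤ y ^ k) : A ≤ (M ^ (1 / δ)) ^ k := by
  push Not at h
  have hy0 : 0 < y := by linarith
  refine hA.trans (pow_le_pow_left₀ hy0.le ?_ k)
  have h1 : (y ^ δ) ^ (1 / δ) ≤ M ^ (1 / δ) :=
    Real.rpow_le_rpow (Real.rpow_nonneg hy0.le _) h.le (by positivity)
  rwa [← Real.rpow_mul hy0.le, mul_one_div_cancel hδ.ne', Real.rpow_one] at h1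

/-- **Partial sums**: bounds for `[F/(1-z)]_n`. -/
theorem PathHyp.Y_bound (H : PathHyp k α ε p x Cp C0) (j : ℕ) :
    ∃ K > 0, ∀ (J : Finset (Fin k)) (μ : Fin k → Fin (k + 1)), J.card = j →
      (∀ i ∈ J, 1 ≤ (μ i : ℕ)) → ∀ a n : ℕ,
        |XX (Qser true) (fun i => x i - p i) (fun i => (μ i : ℕ)) J a n|
          ≤ K * ((n : ℝ) + 2) ^ ((j : ℝ) * (α / 2 + ε)) := by
  induction j using Nat.strong_induction_on with
  | _ j ih =>
  have hα := H.hα
  have hε := H.hε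
  have hCp := H.hCp
  set θ : ℝ := α / 2 + ε with hθ
  have hθ0 : 0 < θ := by positivity
  rcases Nat.eq_zero_or_pos j with rfl | hj
  · refine ⟨1, one_pos, fun J μ hJ _ a n => ?_⟩
    rw [Finset.card_eq_zero] at hJ
    subst hJ
    simp [XX, Qser]
  obtain ⟨K, hK, hKb⟩ := exists_uniform
    (P := fun i K => ∀ (J : Finset (Fin k)) (μ : Fin k → Fin (k + 1)), J.card = i →
      (∀ i ∈ J, 1 ≤ (μ i : ℕ)) → ∀ a n : ℕ,
        |XX (Qser true) (fun i => x i - p i) (fun i => (μ i : ℕ)) J a n|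
          ≤ K * ((n : ℝ) + 2) ^ ((i : ℝ) * θ))
    (fun i K K' hKK hP J μ hJ hμ a n => (hP J μ hJ hμ a n).trans
      (mul_le_mul_of_nonneg_right hKK (Real.rpow_nonneg (by positivity) _))) j ih
  set M0 : ℝ := 2 ^ k * K with hM0
  have hM0p : 0 < M0 := by positivity
  set K1 : ℝ := M0 ^ 2 * Cp with hK1
  have hK1p : 0 < K1 := by positivity
  have hC0 := H.hC0
  refine ⟨K1 + C0 + 2 / ε + 2 * M0 * Cp + (M0 ^ (1 / (α / 2))) ^ k, by positivity, ?_⟩
  intro J μ hJ hμ a n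
  set y : ℝ := (n : ℝ) + 2 with hy
  have hy1 : 1 ≤ y := by rw [hy]; linarith [Nat.cast_nonneg (α := ℝ) n]
  have hy0 : 0 < y := by linarith
  have hyj : 1 ≤ y ^ ((j : ℝ) * θ) := Real.one_le_rpow hy1 (by positivity)
  have hj1 : (1 : ℝ) ≤ j := by exact_mod_cast hj
  -- bound for `sh`
  have hsh : ∀ T ∈ J.powerset.erase ∅, ∀ b,
      |sh (Qser true) (fun i => x i - p i) (fun i => (μ i : ℕ)) (J \ T) b
        ((∑ i ∈ T, (μ i : ℕ)) * b) n| ≤ K * y ^ (((j : ℝ) - T.card) * θ) := by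
    intro T hT b
    obtain ⟨h1, h2, h3⟩ := card_sdiff_lt hT
    unfold sh
    split_ifs with hle
    · have h4 := hKb (J \ T).card (by omega) (J \ T) μ rfl
        (fun i hi => hμ i (Finset.mem_sdiff.mp hi).1) b (n - (∑ i ∈ T, (μ i : ℕ)) * b)
      refine h4.trans (mul_le_mul_of_nonneg_left ?_ hK.le)
      have h5 : ((J \ T).card : ℝ) = (j : ℝ) - T.card := by
        rw [← hJ, ← h1]; push_cast; ring
      rw [h5]
      refine Real.rpow_le_rpow (by positivity) ?_ ?_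
      · rw [hy]
        have : ((n - (∑ i ∈ T, (μ i : ℕ)) * b : ℕ) : ℝ) ≤ n := by
          exact_mod_cast Nat.sub_le _ _
        linarith
      · rw [← h5]; positivity
    · rw [abs_zero]; positivity
  have hWb : ∀ b, |WW (Qser true) x p (fun i => (μ i : ℕ)) J b n|
      ≤ M0 * y ^ (((j : ℝ) - 1) * θ) := by
    intro b
    unfold WW
    refine (Finset.abs_sum_le_sum_abs _ _).trans ?_
    calc ∑ T ∈ J.powerset.erase ∅, |vv T.card (p b)
          * sh (Qser true) (fun i => x i - p i) (fun i => (μ i : ℕ)) (J \ T) b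
            ((∑ i ∈ T, (μ i : ℕ)) * b) n|
        ≤ ∑ T ∈ J.powerset.erase ∅, K * y ^ (((j : ℝ) - 1) * θ) := by
          refine Finset.sum_le_sum fun T hT => ?_
          obtain ⟨h1, h2, h3⟩ := card_sdiff_lt hT
          rw [abs_mul]
          have h6 := vv_abs T.card h2 (p b) (H.p0 b) (H.p1 b)
          have h7 := hsh T hT b
          have h8 : y ^ (((j : ℝ) - T.card) * θ) ≤ y ^ (((j : ℝ) - 1) * θ) := by
            apply Real.rpow_le_rpow_of_exponent_le hy1
            have : (1 : ℝ) ≤ T.card := by exact_mod_cast h2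
            nlinarith
          calc _ ≤ 1 * (K * y ^ (((j : ℝ) - T.card) * θ)) :=
                mul_le_mul h6 h7 (abs_nonneg _) zero_le_one
            _ ≤ K * y ^ (((j : ℝ) - 1) * θ) := by
                rw [one_mul]; exact mul_le_mul_of_nonneg_left h8 hK.le
      _ = (J.powerset.erase ∅).card * (K * y ^ (((j : ℝ) - 1) * θ)) := by
          rw [Finset.sum_const, nsmul_eq_mul]
      _ ≤ 2 ^ k * (K * y ^ (((j : ℝ) - 1) * θ)) :=
          mul_le_mul_of_nonneg_right (card_powerset_erase_le J) (by positivity)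
      _ = M0 * y ^ (((j : ℝ) - 1) * θ) := by rw [hM0]; ring
  have hWv : ∀ b, n < b → WW (Qser true) x p (fun i => (μ i : ℕ)) J b n = 0 := by
    intro b hb
    unfold WW
    refine Finset.sum_eq_zero fun T hT => ?_
    rw [sh_eq_zero _ _ _ _ _ _ _ _ (one_le_sum hμ hT) hb, mul_zero]
  have hUb : ∀ b, |UU (Qser true) x p (fun i => (μ i : ℕ)) J b n|
      ≤ p b * (2 * M0 * y ^ (((j : ℝ) - 2) * θ)) := by
    intro b
    unfold UU
    refine (Finset.abs_sum_le_sum_abs _ _).trans ?_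
    calc ∑ T ∈ J.powerset.erase ∅, |uu T.card (p b)
          * sh (Qser true) (fun i => x i - p i) (fun i => (μ i : ℕ)) (J \ T) b
            ((∑ i ∈ T, (μ i : ℕ)) * b) n|
        ≤ ∑ T ∈ J.powerset.erase ∅, p b * (2 * K * y ^ (((j : ℝ) - 2) * θ)) := by
          refine Finset.sum_le_sum fun T hT => ?_
          obtain ⟨h1, h2, h3⟩ := card_sdiff_lt hT
          rcases Nat.lt_or_ge 1 T.card with h9 | h9
          · rw [abs_mul]
            have h6 := uu_abs T.card h2 (p b) (H.p0 b) (H.p1 b)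
            have h7 := hsh T hT b
            have h8 : y ^ (((j : ℝ) - T.card) * θ) ≤ y ^ (((j : ℝ) - 2) * θ) := by
              apply Real.rpow_le_rpow_of_exponent_le hy1
              have : (2 : ℝ) ≤ T.card := by exact_mod_cast h9
              nlinarith
            have hp := H.p0 b
            calc _ ≤ (2 * p b) * (K * y ^ (((j : ℝ) - T.card) * θ)) :=
                  mul_le_mul h6 h7 (abs_nonneg _) (by positivity)
              _ ≤ (2 * p b) * (K * y ^ (((j : ℝ) - 2) * θ)) := by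
                  refine mul_le_mul_of_nonneg_left (mul_le_mul_of_nonneg_left h8 hK.le)
                    (by positivity)
              _ = p b * (2 * K * y ^ (((j : ℝ) - 2) * θ)) := by ring
          · have h10 : T.card = 1 := by omega
            rw [h10, uu_one, zero_mul, abs_zero]
            have hp := H.p0 b
            positivity
      _ = (J.powerset.erase ∅).card * (p b * (2 * K * y ^ (((j : ℝ) - 2) * θ))) := by
          rw [Finset.sum_const, nsmul_eq_mul]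
      _ ≤ 2 ^ k * (p b * (2 * K * y ^ (((j : ℝ) - 2) * θ))) := by
          have hp := H.p0 b
          exact mul_le_mul_of_nonneg_right (card_powerset_erase_le J) (by positivity)
      _ = p b * (2 * M0 * y ^ (((j : ℝ) - 2) * θ)) := by rw [hM0]; ring
  have hUv : ∀ b, n < b → UU (Qser true) x p (fun i => (μ i : ℕ)) J b n = 0 := by
    intro b hb
    unfold UU
    refine Finset.sum_eq_zero fun T hT => ?_
    rw [sh_eq_zero _ _ _ _ _ _ _ _ (one_le_sum hμ hT) hb, mul_zero]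
  by_cases hbig : M0 ≤ y ^ (α / 2)
  · have hJne : J.Nonempty := Finset.card_pos.mp (by omega)
    have hlam : 0 < y ^ (-((j : ℝ) * θ - ε)) := Real.rpow_pos_of_pos hy0 _
    have key := step_bound (Qser true) x p H.hx (fun i => (μ i : ℕ)) J hJne hμ a n
      (y ^ (-((j : ℝ) * θ - ε))) hlam K1 (C0 + 2 * Real.log y)
      (2 * M0 * Cp * y ^ ((j : ℝ) * θ)) ?_ ?_ ?_ ?_
    · refine key.trans ?_
      have h1 := assemble (y := y) (ε := ε) (g := (j : ℝ) * θ) (K1 := K1) (C0 := C0)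
        hy1 hε hK1p.le hC0
      have h2 : 0 ≤ (M0 ^ (1 / (α / 2))) ^ k := by positivity
      have h3 : 0 ≤ y ^ ((j : ℝ) * θ) := by positivity
      nlinarith [mul_nonneg h2 h3]
    · intro b
      rw [abs_mul, abs_of_pos hlam]
      calc y ^ (-((j : ℝ) * θ - ε)) * |WW (Qser true) x p (fun i => (μ i : ℕ)) J b n|
          ≤ y ^ (-((j : ℝ) * θ - ε)) * (M0 * y ^ (((j : ℝ) - 1) * θ)) :=
            mul_le_mul_of_nonneg_left (hWb b) hlam.le
        _ = M0 * y ^ (-(α / 2)) := by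
            rw [mul_left_comm, ← Real.rpow_add hy0]
            congr 2
            rw [hθ]; ring
        _ ≤ y ^ (α / 2) * y ^ (-(α / 2)) :=
            mul_le_mul_of_nonneg_right hbig (Real.rpow_nonneg hy0.le _)
        _ = 1 := by rw [← Real.rpow_add hy0]; simp
    · have := H.path1 J μ n a
      rw [hJ] at this
      exact this
    · have h1 : ∑ b ∈ range a, p b * (WW (Qser true) x p (fun i => (μ i : ℕ)) J b n) ^ 2
          ≤ ∑ b ∈ range (n + 1), p b * (M0 * y ^ (((j : ℝ) - 1) * θ)) ^ 2 := by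
        refine (sum_range_le_of_vanish _ (fun b => mul_nonneg (H.p0 b) (sq_nonneg _)) n a
          (fun b hb => by rw [hWv b hb]; ring)).trans ?_
        refine Finset.sum_le_sum fun b _ => mul_le_mul_of_nonneg_left ?_ (H.p0 b)
        rw [← sq_abs]
        exact pow_le_pow_left₀ (abs_nonneg _) (hWb b) 2
      rw [← Finset.sum_mul] at h1
      have h2 : (∑ b ∈ range (n + 1), p b) * (M0 * y ^ (((j : ℝ) - 1) * θ)) ^ 2
          ≤ (Cp * y ^ α) * (M0 * y ^ (((j : ℝ) - 1) * θ)) ^ 2 :=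
        mul_le_mul_of_nonneg_right (H.hps n) (sq_nonneg _)
      calc _ ≤ (y ^ (-((j : ℝ) * θ - ε))) ^ 2
            * ((Cp * y ^ α) * (M0 * y ^ (((j : ℝ) - 1) * θ)) ^ 2) :=
            mul_le_mul_of_nonneg_left (h1.trans h2) (sq_nonneg _)
        _ = K1 * (y ^ (-((j : ℝ) * θ - ε)) * y ^ (-((j : ℝ) * θ - ε)) * y ^ α
            * (y ^ (((j : ℝ) - 1) * θ) * y ^ (((j : ℝ) - 1) * θ))) := by rw [hK1]; ring
        _ = K1 * y ^ (0 : ℝ) := by
            rw [← Real.rpow_add hy0, ← Real.rpow_add hy0, ← Real.rpow_add hy0,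
              ← Real.rpow_add hy0]
            congr 2
            rw [hθ]; ring
        _ ≤ K1 := by simp
    · have h1 : ∑ b ∈ range a, |UU (Qser true) x p (fun i => (μ i : ℕ)) J b n|
          ≤ ∑ b ∈ range (n + 1), p b * (2 * M0 * y ^ (((j : ℝ) - 2) * θ)) := by
        refine (sum_range_le_of_vanish _ (fun b => abs_nonneg _) n a
          (fun b hb => by rw [hUv b hb]; simp)).trans ?_
        exact Finset.sum_le_sum fun b _ => hUb b
      rw [← Finset.sum_mul] at h1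
      calc _ ≤ (∑ b ∈ range (n + 1), p b) * (2 * M0 * y ^ (((j : ℝ) - 2) * θ)) := h1
        _ ≤ (Cp * y ^ α) * (2 * M0 * y ^ (((j : ℝ) - 2) * θ)) :=
            mul_le_mul_of_nonneg_right (H.hps n) (by positivity)
        _ = 2 * M0 * Cp * (y ^ α * y ^ (((j : ℝ) - 2) * θ)) := by ring
        _ ≤ 2 * M0 * Cp * y ^ ((j : ℝ) * θ) := by
            refine mul_le_mul_of_nonneg_left ?_ (by positivity)
            rw [← Real.rpow_add hy0]
            apply Real.rpow_le_rpow_of_exponent_le hy1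
            rw [hθ]; nlinarith
  · have h1 := small_n_bound (δ := α / 2) hy1 (by positivity) hbig
      (H.trivial true μ J hμ a n)
    have h2 : (M0 ^ (1 / (α / 2))) ^ k ≤ (M0 ^ (1 / (α / 2))) ^ k * y ^ ((j : ℝ) * θ) :=
      le_mul_of_one_le_right (by positivity) hyj
    have h3 : 0 ≤ (K1 + C0 + 2 / ε + 2 * M0 * Cp) * y ^ ((j : ℝ) * θ) := by positivity
    calc _ ≤ (M0 ^ (1 / (α / 2))) ^ k := h1
      _ ≤ (M0 ^ (1 / (α / 2))) ^ k * y ^ ((j : ℝ) * θ) := h2
      _ ≤ _ := by nlinarith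

end

end Pool.Agent.H99.Inc
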