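import Pool.Agent.H99.Inc.Core

/-!
Pointwise square root cancellation `[F]_n`.
-/

namespace Pool.Agent.H99.Inc

open Finset PowerSeries

section

variable {k : ℕ} {α ε : ℝ} {p x : ℕ → ℝ} {Cp C0 : ℝ}

theorem coeff_S_one (e : ℕ → ℝ) (n : ℕ) : coeff n (S e 1) = e n := by
  simp [S]

theorem PathHyp.sum_e (H : PathHyp k α ε p x Cp C0) :
    ∃ K > 0, ∀ n : ℕ, |∑ b ∈ range (n + 1), (x b - p b)| ≤ K * ((n : ℝ) + 2) ^ (α / 2 + ε) := by
  obtain ⟨K, hK, hb⟩ := H.Y_bound 1
  refine ⟨K, hK, fun n => ?_⟩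
  have hk := H.hk
  have h := hb {⟨0, hk⟩} (fun _ => ⟨1, by omega⟩) (by simp) (by intro i _; simp) (n + 1) n
  simp only [Nat.cast_one, one_mul] at h
  refine le_trans (le_of_eq ?_) h
  congr 1
  unfold XX Qser
  rw [Finset.prod_singleton, coeff_mul, Finset.Nat.sum_antidiagonal_eq_sum_range_succ_mk,
    ← Finset.sum_range_reflect]
  refine Finset.sum_congr rfl fun b hb => ?_
  rw [Finset.mem_range] at hb
  have h1 : n + 1 - 1 - b = n - b := by omega
  simp only [h1, coeff_mk, coeff_S_one, tr, one_mul]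
  rw [if_pos (by omega)]

theorem PathHyp.l1_e (H : PathHyp k α ε p x Cp C0) :
    ∃ Ce > 0, ∀ n : ℕ, ∑ b ∈ range (n + 1), |x b - p b| ≤ Ce * ((n : ℝ) + 2) ^ α := by
  obtain ⟨K, hK, hb⟩ := H.sum_e
  have hCp := H.hCp
  refine ⟨K + 2 * Cp, by positivity, fun n => ?_⟩
  have hy1 : 1 ≤ (n : ℝ) + 2 := by linarith [Nat.cast_nonneg (α := ℝ) n]
  have h1 : ∑ b ∈ range (n + 1), |x b - p b|
      ≤ ∑ b ∈ range (n + 1), (x b - p b) + 2 * ∑ b ∈ range (n + 1), p b := by
    rw [Finset.mul_sum, ← Finset.sum_add_distrib]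
    refine Finset.sum_le_sum fun b _ => ?_
    have h0 := H.p0 b
    have h1 := H.p1 b
    rcases H.hx b with h | h
    · rw [h, abs_le]; constructor <;> linarith
    · rw [h, abs_le]; constructor <;> linarith
  have h2 := (le_abs_self _).trans (hb n)
  have h3 : ((n : ℝ) + 2) ^ (α / 2 + ε) ≤ ((n : ℝ) + 2) ^ α :=
    Real.rpow_le_rpow_of_exponent_le hy1 (by linarith [H.hεα])
  have h4 := H.hps n
  nlinarith [mul_le_mul_of_nonneg_left h3 hK.le]

/-- exponent of the pointwise bound -/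
noncomputable def be (α ε : ℝ) (j : ℕ) : ℝ := max ((j : ℝ) * α - 1) 0 / 2 + (j : ℝ) * ε

theorem be_nonneg {α ε : ℝ} (hε : 0 < ε) (j : ℕ) : 0 ≤ be α ε j := by
  unfold be; positivity

theorem be_mono {α ε : ℝ} (hα : 0 < α) (hε : 0 < ε) {i j : ℕ} (h : i ≤ j) :
    be α ε i ≤ be α ε j := by
  unfold be
  have h1 : (i : ℝ) ≤ j := by exact_mod_cast h
  have h2 : max ((i : ℝ) * α - 1) 0 ≤ max ((j : ℝ) * α - 1) 0 :=
    max_le_max (by nlinarith) le_rfl
  have h3 : (i : ℝ) * ε ≤ (j : ℝ) * ε := mul_le_mul_of_nonneg_right h1 hε.le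
  linarith

/-- the `ℓ²` bound along the diagonal -/
theorem PathHyp.l2diag (H : PathHyp k α ε p x Cp C0) {Ce : ℝ}
    (hCe : 0 < Ce) (hl1 : ∀ n : ℕ, ∑ b ∈ range (n + 1), |x b - p b| ≤ Ce * ((n : ℝ) + 2) ^ α)
    (J : Finset (Fin k)) (μ : Fin k → Fin (k + 1)) (hμ : ∀ i ∈ J, 1 ≤ (μ i : ℕ)) {K : ℝ}
    (hK : 0 < K)
    (hb : ∀ a n : ℕ, |XX (Qser false) (fun i => x i - p i) (fun i => (μ i : ℕ)) J a n|
      ≤ K * ((n : ℝ) + 2) ^ (be α ε J.card)) (d : ℕ) (hd : 1 ≤ d) (a n : ℕ) :
    ∑ b ∈ range a, (sh (Qser false) (fun i => x i - p i) (fun i => (μ i : ℕ)) J b (d * b) n) ^ 2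
      ≤ (K ^ 2 + K * Ce ^ J.card) * ((n : ℝ) + 2) ^ ((J.card : ℝ) * (α + 2 * ε)) := by
  have hα := H.hα
  have hε := H.hε
  set y : ℝ := (n : ℝ) + 2 with hy
  have hy1 : 1 ≤ y := by rw [hy]; linarith [Nat.cast_nonneg (α := ℝ) n]
  have hy0 : 0 < y := by linarith
  have hsh : ∀ b, |sh (Qser false) (fun i => x i - p i) (fun i => (μ i : ℕ)) J b (d * b) n|
      ≤ K * y ^ (be α ε J.card) := by
    intro b
    unfold sh
    split_ifs with hle
    · refine (hb b (n - d * b)).trans (mul_le_mul_of_nonneg_left ?_ hK.le)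
      refine Real.rpow_le_rpow (by positivity) ?_ (be_nonneg hε _)
      rw [hy]
      have : ((n - d * b : ℕ) : ℝ) ≤ n := by exact_mod_cast Nat.sub_le _ _
      linarith
    · rw [abs_zero]; positivity
  have hyc : 0 ≤ y ^ ((J.card : ℝ) * (α + 2 * ε)) := Real.rpow_nonneg hy0.le _
  rcases le_or_gt ((J.card : ℝ) * α) 1 with hs | hs
  · have hbe : be α ε J.card = (J.card : ℝ) * ε := by
      unfold be
      rw [max_eq_right (by linarith)]; ring
    have h1 : ∑ b ∈ range a,
        (sh (Qser false) (fun i => x i - p i) (fun i => (μ i : ℕ)) J b (d * b) n) ^ 2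
        ≤ ∑ b ∈ range a, (K * y ^ ((J.card : ℝ) * ε))
          * |sh (Qser false) (fun i => x i - p i) (fun i => (μ i : ℕ)) J b (d * b) n| := by
      refine Finset.sum_le_sum fun b _ => ?_
      rw [← sq_abs, sq]
      refine mul_le_mul_of_nonneg_right ?_ (abs_nonneg _)
      rw [← hbe]; exact hsh b
    rw [← Finset.mul_sum] at h1
    have h2 := sum_abs_sh_le (fun i => x i - p i) (fun i => (μ i : ℕ)) J hμ d hd a n
    have h3 : (∑ b ∈ range (n + 1), |x b - p b|) ^ J.card ≤ (Ce * y ^ α) ^ J.card :=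
      pow_le_pow_left₀ (Finset.sum_nonneg fun _ _ => abs_nonneg _) (hl1 n) _
    have h4 : (Ce * y ^ α) ^ J.card = Ce ^ J.card * y ^ ((J.card : ℝ) * α) := by
      rw [mul_pow, ← Real.rpow_natCast (y ^ α), ← Real.rpow_mul hy0.le, mul_comm α]
    have h5 : (K * y ^ ((J.card : ℝ) * ε)) * (Ce ^ J.card * y ^ ((J.card : ℝ) * α))
        ≤ K * Ce ^ J.card * y ^ ((J.card : ℝ) * (α + 2 * ε)) := by
      have : y ^ ((J.card : ℝ) * ε) * y ^ ((J.card : ℝ) * α)
          ≤ y ^ ((J.card : ℝ) * (α + 2 * ε)) := by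
        rw [← Real.rpow_add hy0]
        apply Real.rpow_le_rpow_of_exponent_le hy1
        have : (0 : ℝ) ≤ J.card := Nat.cast_nonneg _
        nlinarith
      calc (K * y ^ ((J.card : ℝ) * ε)) * (Ce ^ J.card * y ^ ((J.card : ℝ) * α))
          = K * Ce ^ J.card * (y ^ ((J.card : ℝ) * ε) * y ^ ((J.card : ℝ) * α)) := by ring
        _ ≤ _ := mul_le_mul_of_nonneg_left this (by positivity)
    calc _ ≤ _ := h1
      _ ≤ (K * y ^ ((J.card : ℝ) * ε)) * (Ce ^ J.card * y ^ ((J.card : ℝ) * α)) := by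
          refine mul_le_mul_of_nonneg_left ?_ (by positivity)
          exact (h2.trans h3).trans (le_of_eq h4)
      _ ≤ K * Ce ^ J.card * y ^ ((J.card : ℝ) * (α + 2 * ε)) := h5
      _ ≤ _ := by
          rw [add_mul]
          have : 0 ≤ K ^ 2 * y ^ ((J.card : ℝ) * (α + 2 * ε)) := by positivity
          linarith
  · have hbe : be α ε J.card = ((J.card : ℝ) * α - 1) / 2 + (J.card : ℝ) * ε := by
      unfold be
      rw [max_eq_left (by linarith)]
    have h1 : ∑ b ∈ range a,
        (sh (Qser false) (fun i => x i - p i) (fun i => (μ i : ℕ)) J b (d * b) n) ^ 2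
        ≤ ∑ b ∈ range (n + 1), (K * y ^ (be α ε J.card)) ^ 2 := by
      refine (sum_range_le_of_vanish _ (fun b => sq_nonneg _) n a
        (fun b hb => by rw [sh_eq_zero _ _ _ _ _ _ _ _ hd hb]; ring)).trans ?_
      refine Finset.sum_le_sum fun b _ => ?_
      rw [← sq_abs]
      exact pow_le_pow_left₀ (abs_nonneg _) (hsh b) 2
    rw [Finset.sum_const, Finset.card_range, nsmul_eq_mul] at h1
    have h2 : (((n + 1 : ℕ) : ℝ)) ≤ y := by rw [hy]; push_cast; linarith
    calc _ ≤ _ := h1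
      _ ≤ y * (K * y ^ (be α ε J.card)) ^ 2 := mul_le_mul_of_nonneg_right h2 (sq_nonneg _)
      _ = K ^ 2 * (y ^ (1 : ℝ) * (y ^ (be α ε J.card) * y ^ (be α ε J.card))) := by
          rw [Real.rpow_one]; ring
      _ = K ^ 2 * y ^ ((J.card : ℝ) * (α + 2 * ε)) := by
          rw [← Real.rpow_add hy0, ← Real.rpow_add hy0, hbe]
          congr 2; ring
      _ ≤ _ := by
          rw [add_mul]
          have : 0 ≤ K * Ce ^ J.card * y ^ ((J.card : ℝ) * (α + 2 * ε)) := by positivity
          linarith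

theorem PathHyp.p_le_of_sh (H : PathHyp k α ε p x Cp C0) (J T : Finset (Fin k)) (hT : T ⊆ J)
    (μ : Fin k → Fin (k + 1)) (hμ : ∀ i ∈ J, 1 ≤ (μ i : ℕ)) (b n : ℕ)
    (h : sh (Qser false) (fun i => x i - p i) (fun i => (μ i : ℕ)) (J \ T) b
      ((∑ i ∈ T, (μ i : ℕ)) * b) n ≠ 0) :
    p b ≤ Cp * ((k : ℝ) ^ 2 + 2) ^ (1 - α) * ((n : ℝ) + 2) ^ (α - 1) := by
  have h1 : n ≤ (∑ i ∈ J, (μ i : ℕ)) * b := sh_ne_zero _ (fun i => (μ i : ℕ)) J T hT hμ b n h
  have h2 : ∑ i ∈ J, (μ i : ℕ) ≤ k ^ 2 := by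
    calc ∑ i ∈ J, (μ i : ℕ) ≤ ∑ i ∈ J, k :=
          Finset.sum_le_sum fun i _ => Nat.lt_succ_iff.mp (μ i).2
      _ = J.card * k := by simp
      _ ≤ k * k := Nat.mul_le_mul_right _ (by simpa using Finset.card_le_univ J)
      _ = k ^ 2 := by ring
  have h3 : n + 2 ≤ (k ^ 2 + 2) * (b + 1) := by nlinarith [Nat.mul_le_mul_right b h2]
  have h4 : ((n : ℝ) + 2) / ((k : ℝ) ^ 2 + 2) ≤ (b : ℝ) + 1 := by
    rw [div_le_iff₀ (by positivity)]
    have : ((n + 2 : ℕ) : ℝ) ≤ (((k ^ 2 + 2) * (b + 1) : ℕ) : ℝ) := by exact_mod_cast h3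
    push_cast at this
    linarith
  have hα1 := H.hα1
  have h5 : ((b : ℝ) + 1) ^ (α - 1) ≤ (((n : ℝ) + 2) / ((k : ℝ) ^ 2 + 2)) ^ (α - 1) :=
    Real.rpow_le_rpow_of_nonpos (by positivity) h4 (by linarith)
  have h6 : (((n : ℝ) + 2) / ((k : ℝ) ^ 2 + 2)) ^ (α - 1)
      = ((k : ℝ) ^ 2 + 2) ^ (1 - α) * ((n : ℝ) + 2) ^ (α - 1) := by
    rw [Real.div_rpow (by positivity) (by positivity), div_eq_mul_inv,
      ← Real.rpow_neg (by positivity)]
    rw [mul_comm]
    congr 2
    ring
  calc p b ≤ Cp * ((b : ℝ) + 1) ^ (α - 1) := H.hpu b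
    _ ≤ Cp * (((k : ℝ) ^ 2 + 2) ^ (1 - α) * ((n : ℝ) + 2) ^ (α - 1)) :=
        mul_le_mul_of_nonneg_left (h5.trans (le_of_eq h6)) H.hCp.le
    _ = _ := by ring

theorem sum_abs_le_sqrt (f : ℕ → ℝ) (n a : ℕ) (hv : ∀ b, n < b → f b = 0) {V : ℝ}
    (hV : ∑ b ∈ range a, (f b) ^ 2 ≤ V) :
    ∑ b ∈ range a, |f b| ≤ Real.sqrt (((n : ℝ) + 2) * V) := by
  have h1 : ∑ b ∈ range a, |f b| = ∑ b ∈ (range a).filter (fun b => b ≤ n), |f b| := by
    rw [Finset.sum_filter]
    refine Finset.sum_congr rfl fun b _ => ?_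
    split_ifs with h
    · rfl
    · rw [hv b (by omega), abs_zero]
  rw [h1]
  apply Real.le_sqrt_of_sq_le
  have h2 : (∑ b ∈ (range a).filter (fun b => b ≤ n), |f b|) ^ 2
      ≤ ((range a).filter (fun b => b ≤ n)).card
        * ∑ b ∈ (range a).filter (fun b => b ≤ n), |f b| ^ 2 := sq_sum_le_card_mul_sum_sq
  have h3 : ((range a).filter (fun b => b ≤ n)).card ≤ n + 1 := by
    calc ((range a).filter (fun b => b ≤ n)).card ≤ (range (n + 1)).card := by
          apply Finset.card_le_card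
          intro b hb
          simp only [Finset.mem_filter, Finset.mem_range] at hb ⊢
          omega
      _ = n + 1 := Finset.card_range _
  have h4 : ∑ b ∈ (range a).filter (fun b => b ≤ n), |f b| ^ 2 ≤ V := by
    refine le_trans ?_ hV
    calc ∑ b ∈ (range a).filter (fun b => b ≤ n), |f b| ^ 2
        ≤ ∑ b ∈ range a, |f b| ^ 2 :=
          Finset.sum_le_sum_of_subset_of_nonneg (Finset.filter_subset _ _)
            fun _ _ _ => by positivity
      _ = ∑ b ∈ range a, (f b) ^ 2 := Finset.sum_congr rfl fun b _ => sq_abs _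
  have h5 : 0 ≤ ∑ b ∈ (range a).filter (fun b => b ≤ n), |f b| ^ 2 :=
    Finset.sum_nonneg fun _ _ => by positivity
  have h6 : (((range a).filter (fun b => b ≤ n)).card : ℝ) ≤ (n : ℝ) + 2 := by
    have : (((range a).filter (fun b => b ≤ n)).card : ℝ) ≤ ((n + 1 : ℕ) : ℝ) := by
      exact_mod_cast h3
    push_cast at this
    linarith
  calc _ ≤ _ := h2
    _ ≤ ((n : ℝ) + 2) * ∑ b ∈ (range a).filter (fun b => b ≤ n), |f b| ^ 2 :=
        mul_le_mul_of_nonneg_right h6 h5
    _ ≤ ((n : ℝ) + 2) * V := mul_le_mul_of_nonneg_left h4 (by positivity)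

/-- **Pointwise bounds** for `[F]_n`. -/
theorem PathHyp.X_bound (H : PathHyp k α ε p x Cp C0) (j : ℕ) :
    ∃ K > 0, ∀ (J : Finset (Fin k)) (μ : Fin k → Fin (k + 1)), J.card = j →
      (∀ i ∈ J, 1 ≤ (μ i : ℕ)) → ∀ a n : ℕ,
        |XX (Qser false) (fun i => x i - p i) (fun i => (μ i : ℕ)) J a n|
          ≤ K * ((n : ℝ) + 2) ^ (be α ε j) := by
  obtain ⟨Ce, hCe, hl1⟩ := H.l1_e
  induction j using Nat.strong_induction_on with
  | _ j ih =>
  have hα := H.hα
  have hε := H.hε
  have hCp := H.hCp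
  rcases Nat.eq_zero_or_pos j with rfl | hj
  · refine ⟨1, one_pos, fun J μ hJ _ a n => ?_⟩
    rw [Finset.card_eq_zero] at hJ
    subst hJ
    have h1 : (1 : ℝ) ≤ ((n : ℝ) + 2) ^ (be α ε 0) :=
      Real.one_le_rpow (by linarith [Nat.cast_nonneg (α := ℝ) n]) (be_nonneg hε 0)
    simp only [XX, Qser, Finset.prod_empty, mul_one, one_mul, coeff_one]
    split_ifs
    · simpa using h1
    · simpa using zero_le_one.trans h1
  obtain ⟨K, hK, hKb⟩ := exists_uniform
    (P := fun i K => ∀ (J : Finset (Fin k)) (μ : Fin k → Fin (k + 1)), J.card = i →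
      (∀ i ∈ J, 1 ≤ (μ i : ℕ)) → ∀ a n : ℕ,
        |XX (Qser false) (fun i => x i - p i) (fun i => (μ i : ℕ)) J a n|
          ≤ K * ((n : ℝ) + 2) ^ (be α ε i))
    (fun i K K' hKK hP J μ hJ hμ a n => (hP J μ hJ hμ a n).trans
      (mul_le_mul_of_nonneg_right hKK (Real.rpow_nonneg (by positivity) _))) j ih
  set Ce1 : ℝ := max Ce 1 with hCe1
  have hCe1p : 1 ≤ Ce1 := le_max_right _ _
  set V0 : ℝ := K ^ 2 + K * Ce1 ^ k with hV0
  have hV0p : 0 < V0 := by positivity
  set M0 : ℝ := 2 ^ k * K with hM0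
  have hM0p : 0 < M0 := by positivity
  set C1 : ℝ := Cp * ((k : ℝ) ^ 2 + 2) ^ (1 - α) with hC1
  have hC1p : 0 < C1 := by positivity
  set K1 : ℝ := 2 ^ k * (2 ^ k * (C1 * V0)) with hK1
  have hK1p : 0 < K1 := by positivity
  have hC0 := H.hC0
  refine ⟨K1 + C0 + 2 / (ε / 2) + 2 ^ k * (2 * C1 * Real.sqrt V0)
    + (M0 ^ (1 / (ε / 2))) ^ k, by positivity, ?_⟩
  intro J μ hJ hμ a n
  set y : ℝ := (n : ℝ) + 2 with hy
  have hy1 : 1 ≤ y := by rw [hy]; linarith [Nat.cast_nonneg (α := ℝ) n]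
  have hy0 : 0 < y := by linarith
  have hyj : 1 ≤ y ^ (be α ε j) := Real.one_le_rpow hy1 (be_nonneg hε j)
  have hj1 : (1 : ℝ) ≤ j := by exact_mod_cast hj
  have hp' : ∀ b, 0 ≤ p b := H.p0
  -- abbreviation
  set s : Finset (Fin k) → ℕ → ℝ := fun T b =>
    sh (Qser false) (fun i => x i - p i) (fun i => (μ i : ℕ)) (J \ T) b
        ((∑ i ∈ T, (μ i : ℕ)) * b) n with hs
  have hcard : ∀ T ∈ J.powerset.erase ∅, ((J \ T).card : ℝ) = (j : ℝ) - T.card := by
    intro T hT
    obtain ⟨h1, h2, h3⟩ := card_sdiff_lt hT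
    rw [← hJ, ← h1]; push_cast; ring
  have hbb : ∀ T ∈ J.powerset.erase ∅, ∀ a n : ℕ,
      |XX (Qser false) (fun i => x i - p i) (fun i => (μ i : ℕ)) (J \ T) a n|
      ≤ K * ((n : ℝ) + 2) ^ (be α ε (J \ T).card) := by
    intro T hT a n
    obtain ⟨h1, h2, h3⟩ := card_sdiff_lt hT
    exact hKb (J \ T).card (by omega) (J \ T) μ rfl
        (fun i hi => hμ i (Finset.mem_sdiff.mp hi).1) a n
  -- l2 bound
  have hl2 : ∀ T ∈ J.powerset.erase ∅, ∑ b ∈ range a, (s T b) ^ 2
      ≤ V0 * y ^ (((j : ℝ) - T.card) * (α + 2 * ε)) := by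
    intro T hT
    obtain ⟨h1, h2, h3⟩ := card_sdiff_lt hT
    have hl := H.l2diag hCe hl1 (J \ T) μ (fun i hi => hμ i (Finset.mem_sdiff.mp hi).1) hK
      (hbb T hT) (∑ i ∈ T, (μ i : ℕ)) (one_le_sum hμ hT) a n
    rw [hcard T hT] at hl
    refine hl.trans (mul_le_mul_of_nonneg_right ?_ (Real.rpow_nonneg hy0.le _))
    rw [hV0]
    have h4 : Ce ^ (J \ T).card ≤ Ce1 ^ k := by
      calc Ce ^ (J \ T).card ≤ Ce1 ^ (J \ T).card :=
            pow_le_pow_left₀ hCe.le (le_max_left _ _) _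
        _ ≤ Ce1 ^ k := pow_le_pow_right₀ hCe1p (by simpa using Finset.card_le_univ (J \ T))
    nlinarith [mul_le_mul_of_nonneg_left h4 hK.le]
  -- pointwise bound
  have hsh : ∀ T ∈ J.powerset.erase ∅, ∀ b, |s T b| ≤ K * y ^ (be α ε (j - 1)) := by
    intro T hT b
    obtain ⟨h1, h2, h3⟩ := card_sdiff_lt hT
    rw [hs]
    simp only [sh]
    split_ifs with hle
    · have h4 := hbb T hT b (n - (∑ i ∈ T, (μ i : ℕ)) * b)
      refine h4.trans (mul_le_mul_of_nonneg_left ?_ hK.le)
      have h6 : be α ε (J \ T).card ≤ be α ε (j - 1) := be_mono hα hε (by omega)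
      have h7 : ((n - (∑ i ∈ T, (μ i : ℕ)) * b : ℕ) : ℝ) + 2 ≤ y := by
        rw [hy]
        have : ((n - (∑ i ∈ T, (μ i : ℕ)) * b : ℕ) : ℝ) ≤ n := by
          exact_mod_cast Nat.sub_le _ _
        linarith
      calc _ ≤ y ^ (be α ε (J \ T).card) :=
            Real.rpow_le_rpow (by positivity) h7 (be_nonneg hε _)
        _ ≤ _ := Real.rpow_le_rpow_of_exponent_le hy1 h6
    · rw [abs_zero]; positivity
  have hWb : ∀ b, |WW (Qser false) x p (fun i => (μ i : ℕ)) J b n|
      ≤ M0 * y ^ (be α ε (j - 1)) := by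
    intro b
    unfold WW
    refine (Finset.abs_sum_le_sum_abs _ _).trans ?_
    calc ∑ T ∈ J.powerset.erase ∅, |vv T.card (p b) * s T b|
        ≤ ∑ T ∈ J.powerset.erase ∅, K * y ^ (be α ε (j - 1)) := by
          refine Finset.sum_le_sum fun T hT => ?_
          obtain ⟨h1, h2, h3⟩ := card_sdiff_lt hT
          rw [abs_mul]
          have h6 := vv_abs T.card h2 (p b) (H.p0 b) (H.p1 b)
          calc _ ≤ 1 * (K * y ^ (be α ε (j - 1))) :=
                mul_le_mul h6 (hsh T hT b) (abs_nonneg _) zero_le_one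
            _ = _ := one_mul _
      _ = (J.powerset.erase ∅).card * (K * y ^ (be α ε (j - 1))) := by
          rw [Finset.sum_const, nsmul_eq_mul]
      _ ≤ 2 ^ k * (K * y ^ (be α ε (j - 1))) :=
          mul_le_mul_of_nonneg_right (card_powerset_erase_le J) (by positivity)
      _ = M0 * y ^ (be α ε (j - 1)) := by rw [hM0]; ring
  have hps : ∀ T ∈ J.powerset.erase ∅, ∀ b (F : ℝ → ℝ), (∀ t, 0 ≤ F t) → F 0 = 0 →
      p b * F (s T b) ≤ C1 * y ^ (α - 1) * F (s T b) := by
    intro T hT b F hF hF0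
    by_cases h0 : s T b = 0
    · rw [h0, hF0]; simp
    · refine mul_le_mul_of_nonneg_right ?_ (hF _)
      exact H.p_le_of_sh J T (card_sdiff_lt hT).2.2 μ hμ b n h0
  have hlam2 : 0 < y ^ (-(be α ε j - ε / 2)) := Real.rpow_pos_of_pos hy0 _
  by_cases hbig : M0 ≤ y ^ (ε / 2)
  · have hJne : J.Nonempty := Finset.card_pos.mp (by omega)
    have key := step_bound (Qser false) x p H.hx (fun i => (μ i : ℕ)) J hJne hμ a n
      (y ^ (-(be α ε j - ε / 2))) hlam2 K1 (C0 + 2 * Real.log y)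
      (2 ^ k * (2 * C1 * Real.sqrt V0) * y ^ (be α ε j)) ?_ ?_ ?_ ?_
    · refine key.trans ?_
      have h1 := assemble (y := y) (ε := ε / 2) (g := be α ε j) (K1 := K1) (C0 := C0)
        hy1 (by positivity) hK1p.le hC0
      have h2 : 0 ≤ (M0 ^ (1 / (ε / 2))) ^ k := by positivity
      have h3 : 0 ≤ y ^ (be α ε j) := by positivity
      nlinarith [mul_nonneg h2 h3]
    · intro b
      rw [abs_mul, abs_of_pos hlam2]
      have hexp : be α ε (j - 1) ≤ be α ε j - ε := by
        unfold be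
        have hc : ((j - 1 : ℕ) : ℝ) = (j : ℝ) - 1 := by
          rw [Nat.cast_sub hj]; simp
        rw [hc]
        have : max (((j : ℝ) - 1) * α - 1) 0 ≤ max ((j : ℝ) * α - 1) 0 :=
          max_le_max (by nlinarith) le_rfl
        nlinarith
      calc y ^ (-(be α ε j - ε / 2)) * |WW (Qser false) x p (fun i => (μ i : ℕ)) J b n|
          ≤ y ^ (-(be α ε j - ε / 2)) * (M0 * y ^ (be α ε (j - 1))) :=
            mul_le_mul_of_nonneg_left (hWb b) hlam2.le
        _ ≤ y ^ (-(be α ε j - ε / 2)) * (y ^ (ε / 2) * y ^ (be α ε j - ε)) := by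
            refine mul_le_mul_of_nonneg_left ?_ hlam2.le
            exact mul_le_mul hbig (Real.rpow_le_rpow_of_exponent_le hy1 hexp)
              (Real.rpow_nonneg hy0.le _) (Real.rpow_nonneg hy0.le _)
        _ = 1 := by
            rw [← Real.rpow_add hy0, ← Real.rpow_add hy0]
            rw [show -(be α ε j - ε / 2) + (ε / 2 + (be α ε j - ε)) = 0 by ring,
              Real.rpow_zero]
    · have := H.path0 J μ n a
      rw [hJ] at this
      exact this
    · have h1 : ∀ b, p b * (WW (Qser false) x p (fun i => (μ i : ℕ)) J b n) ^ 2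
          ≤ 2 ^ k * ∑ T ∈ J.powerset.erase ∅, C1 * y ^ (α - 1) * (s T b) ^ 2 := by
        intro b
        have h2 : (WW (Qser false) x p (fun i => (μ i : ℕ)) J b n) ^ 2
            ≤ 2 ^ k * ∑ T ∈ J.powerset.erase ∅, (s T b) ^ 2 := by
          unfold WW
          calc (∑ T ∈ J.powerset.erase ∅, vv T.card (p b) * s T b) ^ 2
              ≤ (J.powerset.erase ∅).card
                * ∑ T ∈ J.powerset.erase ∅, (vv T.card (p b) * s T b) ^ 2 :=
                sq_sum_le_card_mul_sum_sq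
            _ ≤ 2 ^ k * ∑ T ∈ J.powerset.erase ∅, (vv T.card (p b) * s T b) ^ 2 :=
                mul_le_mul_of_nonneg_right (card_powerset_erase_le J)
                  (Finset.sum_nonneg fun _ _ => sq_nonneg _)
            _ ≤ 2 ^ k * ∑ T ∈ J.powerset.erase ∅, (s T b) ^ 2 := by
                refine mul_le_mul_of_nonneg_left (Finset.sum_le_sum fun T hT => ?_)
                  (by positivity)
                obtain ⟨_, h2, _⟩ := card_sdiff_lt hT
                rw [mul_pow]
                have h6 := vv_abs T.card h2 (p b) (H.p0 b) (H.p1 b)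
                have h7 : (vv T.card (p b)) ^ 2 ≤ 1 := by
                  rw [← sq_abs]; exact pow_le_one₀ (abs_nonneg _) h6
                exact mul_le_of_le_one_left (sq_nonneg _) h7
        calc p b * (WW (Qser false) x p (fun i => (μ i : ℕ)) J b n) ^ 2
            ≤ p b * (2 ^ k * ∑ T ∈ J.powerset.erase ∅, (s T b) ^ 2) :=
              mul_le_mul_of_nonneg_left h2 (hp' b)
          _ = 2 ^ k * ∑ T ∈ J.powerset.erase ∅, p b * (s T b) ^ 2 := by
              rw [← Finset.mul_sum]; ring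
          _ ≤ _ := by
              refine mul_le_mul_of_nonneg_left (Finset.sum_le_sum fun T hT => ?_)
                (by positivity)
              exact hps T hT b (fun t => t ^ 2) (fun t => sq_nonneg t) (by norm_num)
      have h3 : ∑ b ∈ range a, p b * (WW (Qser false) x p (fun i => (μ i : ℕ)) J b n) ^ 2
          ≤ 2 ^ k * (2 ^ k * (C1 * V0 * (y ^ (α - 1) * y ^ (((j : ℝ) - 1) * (α + 2 * ε))))) := by
        refine (Finset.sum_le_sum fun b _ => h1 b).trans ?_
        rw [← Finset.mul_sum, Finset.sum_comm]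
        refine mul_le_mul_of_nonneg_left ?_ (by positivity)
        calc ∑ T ∈ J.powerset.erase ∅, ∑ b ∈ range a, C1 * y ^ (α - 1) * (s T b) ^ 2
            ≤ ∑ T ∈ J.powerset.erase ∅,
              C1 * V0 * (y ^ (α - 1) * y ^ (((j : ℝ) - 1) * (α + 2 * ε))) := by
              refine Finset.sum_le_sum fun T hT => ?_
              obtain ⟨_, h2, _⟩ := card_sdiff_lt hT
              rw [← Finset.mul_sum]
              have h8 : y ^ (((j : ℝ) - T.card) * (α + 2 * ε))
                  ≤ y ^ (((j : ℝ) - 1) * (α + 2 * ε)) := by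
                apply Real.rpow_le_rpow_of_exponent_le hy1
                have : (1 : ℝ) ≤ T.card := by exact_mod_cast h2
                nlinarith
              calc C1 * y ^ (α - 1) * ∑ b ∈ range a, (s T b) ^ 2
                  ≤ C1 * y ^ (α - 1) * (V0 * y ^ (((j : ℝ) - 1) * (α + 2 * ε))) := by
                    refine mul_le_mul_of_nonneg_left ?_ (by positivity)
                    exact (hl2 T hT).trans (mul_le_mul_of_nonneg_left h8 hV0p.le)
                _ = _ := by ring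
          _ = (J.powerset.erase ∅).card
              * (C1 * V0 * (y ^ (α - 1) * y ^ (((j : ℝ) - 1) * (α + 2 * ε)))) := by
              rw [Finset.sum_const, nsmul_eq_mul]
          _ ≤ _ := mul_le_mul_of_nonneg_right (card_powerset_erase_le J) (by positivity)
      calc _ ≤ (y ^ (-(be α ε j - ε / 2))) ^ 2
            * (2 ^ k * (2 ^ k * (C1 * V0
              * (y ^ (α - 1) * y ^ (((j : ℝ) - 1) * (α + 2 * ε)))))) :=
            mul_le_mul_of_nonneg_left h3 (sq_nonneg _)
        _ = K1 * (y ^ (-(be α ε j - ε / 2)) * y ^ (-(be α ε j - ε / 2))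
            * (y ^ (α - 1) * y ^ (((j : ℝ) - 1) * (α + 2 * ε)))) := by rw [hK1]; ring
        _ ≤ K1 * 1 := by
            refine mul_le_mul_of_nonneg_left ?_ hK1p.le
            rw [← Real.rpow_add hy0, ← Real.rpow_add hy0, ← Real.rpow_add hy0]
            apply Real.rpow_le_one_of_one_le_of_nonpos hy1
            unfold be
            have := le_max_left ((j : ℝ) * α - 1) 0
            nlinarith
        _ = K1 := mul_one _
    · have h1 : ∀ b, |UU (Qser false) x p (fun i => (μ i : ℕ)) J b n|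
          ≤ ∑ T ∈ J.powerset.erase ∅, |uu T.card (p b) * s T b| := by
        intro b
        unfold UU
        exact Finset.abs_sum_le_sum_abs _ _
      calc ∑ b ∈ range a, |UU (Qser false) x p (fun i => (μ i : ℕ)) J b n|
          ≤ ∑ b ∈ range a, ∑ T ∈ J.powerset.erase ∅, |uu T.card (p b) * s T b| :=
            Finset.sum_le_sum fun b _ => h1 b
        _ = ∑ T ∈ J.powerset.erase ∅, ∑ b ∈ range a, |uu T.card (p b) * s T b| :=
            Finset.sum_comm
        _ ≤ ∑ T ∈ J.powerset.erase ∅, 2 * C1 * Real.sqrt V0 * y ^ (be α ε j) := by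
            refine Finset.sum_le_sum fun T hT => ?_
            obtain ⟨hc1, h2, h3⟩ := card_sdiff_lt hT
            rcases Nat.lt_or_ge 1 T.card with h9 | h9
            · have h4 : ∑ b ∈ range a, |uu T.card (p b) * s T b|
                  ≤ 2 * (C1 * y ^ (α - 1)) * ∑ b ∈ range a, |s T b| := by
                rw [Finset.mul_sum]
                refine Finset.sum_le_sum fun b _ => ?_
                rw [abs_mul]
                have h6 := uu_abs T.card h2 (p b) (H.p0 b) (H.p1 b)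
                calc |uu T.card (p b)| * |s T b| ≤ (2 * p b) * |s T b| :=
                      mul_le_mul_of_nonneg_right h6 (abs_nonneg _)
                  _ = 2 * (p b * |s T b|) := by ring
                  _ ≤ 2 * (C1 * y ^ (α - 1) * |s T b|) :=
                      mul_le_mul_of_nonneg_left
                        (hps T hT b (fun t => |t|) (fun t => abs_nonneg t) abs_zero)
                        (by norm_num)
                  _ = _ := by ring
              have h5 : ∑ b ∈ range a, |s T b|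
                  ≤ Real.sqrt (y * (V0 * y ^ (((j : ℝ) - T.card) * (α + 2 * ε)))) := by
                refine sum_abs_le_sqrt (s T) n a (fun b hb => ?_) (hl2 T hT)
                exact sh_eq_zero _ _ _ _ _ _ _ _ (one_le_sum hμ hT) hb
              have h7 : Real.sqrt (y * (V0 * y ^ (((j : ℝ) - T.card) * (α + 2 * ε))))
                  = Real.sqrt V0 * y ^ (1 / 2 + ((j : ℝ) - T.card) * (α / 2 + ε)) := by
                rw [show y * (V0 * y ^ (((j : ℝ) - T.card) * (α + 2 * ε)))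
                  = V0 * (y ^ (1 : ℝ) * y ^ (((j : ℝ) - T.card) * (α + 2 * ε))) by
                    rw [Real.rpow_one]; ring]
                rw [← Real.rpow_add hy0, Real.sqrt_mul hV0p.le]
                congr 1
                rw [Real.sqrt_eq_rpow, ← Real.rpow_mul hy0.le]
                congr 1; ring
              rw [h7] at h5
              calc _ ≤ 2 * (C1 * y ^ (α - 1)) * ∑ b ∈ range a, |s T b| := h4
                _ ≤ 2 * (C1 * y ^ (α - 1))
                    * (Real.sqrt V0 * y ^ (1 / 2 + ((j : ℝ) - T.card) * (α / 2 + ε))) :=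
                    mul_le_mul_of_nonneg_left h5 (by positivity)
                _ = 2 * C1 * Real.sqrt V0
                    * (y ^ (α - 1) * y ^ (1 / 2 + ((j : ℝ) - T.card) * (α / 2 + ε))) := by ring
                _ ≤ 2 * C1 * Real.sqrt V0 * y ^ (be α ε j) := by
                    refine mul_le_mul_of_nonneg_left ?_ (by positivity)
                    rw [← Real.rpow_add hy0]
                    apply Real.rpow_le_rpow_of_exponent_le hy1
                    unfold be
                    have h10 := le_max_left ((j : ℝ) * α - 1) 0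
                    have : (2 : ℝ) ≤ T.card := by exact_mod_cast h9
                    nlinarith
            · have h10 : T.card = 1 := by omega
              simp only [h10, uu_one, zero_mul, abs_zero, Finset.sum_const_zero]
              positivity
        _ = (J.powerset.erase ∅).card * (2 * C1 * Real.sqrt V0 * y ^ (be α ε j)) := by
            rw [Finset.sum_const, nsmul_eq_mul]
        _ ≤ 2 ^ k * (2 * C1 * Real.sqrt V0 * y ^ (be α ε j)) :=
            mul_le_mul_of_nonneg_right (card_powerset_erase_le J) (by positivity)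
        _ = _ := by ring
  · have h1 := small_n_bound (δ := ε / 2) hy1 (by positivity) hbig
      (H.trivial false μ J hμ a n)
    have h2 : (M0 ^ (1 / (ε / 2))) ^ k ≤ (M0 ^ (1 / (ε / 2))) ^ k * y ^ (be α ε j) :=
      le_mul_of_one_le_right (by positivity) hyj
    have h3 : 0 ≤ (K1 + C0 + 2 / (ε / 2) + 2 ^ k * (2 * C1 * Real.sqrt V0))
      * y ^ (be α ε j) := by positivity
    calc _ ≤ (M0 ^ (1 / (ε / 2))) ^ k := h1
      _ ≤ (M0 ^ (1 / (ε / 2))) ^ k * y ^ (be α ε j) := h2
      _ ≤ _ := by nlinarith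

end

end Pool.Agent.H99.Inc
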