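import Mathlib

/-!
Basic objects for the problem on eventually increasing representation functions
(thin random-like sets, exponent 3/k).
-/

namespace Pool.Agent.H99.Inc

open Finset PowerSeries

/-- The power series `∑ e_b z^(m b)` of a real sequence `e`. -/
noncomputable def S (e : ℕ → ℝ) (m : ℕ) : PowerSeries ℝ :=
  PowerSeries.mk fun n => if m ∣ n then e (n / m) else 0

/-- The indicator sequence of a set of natural numbers. -/
noncomputable def ind (A : Set ℕ) : ℕ → ℝ := by
  classical exact fun n => if n ∈ A then 1 else 0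

/-- Coefficients of `(1 - z)^(-β)`. -/
noncomputable def bc (β : ℝ) (n : ℕ) : ℝ := ∏ i ∈ range n, ((β + i) / (i + 1))

/-- The power series `(1 - z)^(-β)`. -/
noncomputable def B (β : ℝ) : PowerSeries ℝ := PowerSeries.mk (bc β)

/-- Number of `k`-tuples of elements of `A` with sum `n`. -/
noncomputable def R1 (A : Set ℕ) (k n : ℕ) : ℕ :=
  Nat.card {a : Fin k → ℕ // (∀ i, a i ∈ A) ∧ ∑ i, a i = n}

/-- Number of non-decreasing `k`-tuples of elements of `A` with sum `n`. -/
noncomputable def R2 (A : Set ℕ) (k n : ℕ) : ℕ :=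
  Nat.card {a : Fin k → ℕ // (∀ i, a i ∈ A) ∧ ∑ i, a i = n ∧ Monotone a}

/-- Number of strictly increasing `k`-tuples of elements of `A` with sum `n`. -/
noncomputable def R3 (A : Set ℕ) (k n : ℕ) : ℕ :=
  Nat.card {a : Fin k → ℕ // (∀ i, a i ∈ A) ∧ ∑ i, a i = n ∧ StrictMono a}

/-- Number of `k`-tuples of elements of `A` with sum `n` which are invariant under `σ`. -/
noncomputable def FixC (A : Set ℕ) {k : ℕ} (σ : Equiv.Perm (Fin k)) (n : ℕ) : ℕ :=
  Nat.card {a : Fin k → ℕ // (∀ i, a i ∈ A) ∧ ∑ i, a i = n ∧ ∀ i, a (σ i) = a i}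

end Pool.Agent.H99.Inc
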