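import Pool.Agent.H99.Inc.Defs

namespace Pool.Agent.H99.Inc

open Finset

namespace PermAux

/-- The tuples with values in `A` and sum `n`. -/
noncomputable def XX (A : Set ℕ) (k n : ℕ) : Finset (Fin k → ℕ) :=
  @Finset.filter _ (fun a => ∀ i, a i ∈ A) (Classical.decPred _)
    ((univ : Finset (Fin k)).piAntidiag n)

theorem mem_XX {A : Set ℕ} {k n : ℕ} {a : Fin k → ℕ} :
    a ∈ XX A k n ↔ (∀ i, a i ∈ A) ∧ ∑ i, a i = n := by
  unfold XX
  rw [@mem_filter _ _ (Classical.decPred _), mem_piAntidiag]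
  constructor
  · rintro ⟨⟨h1, -⟩, h2⟩
    exact ⟨h2, h1⟩
  · rintro ⟨h1, h2⟩
    exact ⟨⟨h2, fun i _ => mem_univ i⟩, h1⟩

theorem card_XX (A : Set ℕ) (k n : ℕ) (P : (Fin k → ℕ) → Prop) [DecidablePred P] :
    Nat.card {a : Fin k → ℕ // (∀ i, a i ∈ A) ∧ ∑ i, a i = n ∧ P a} =
      ((XX A k n).filter P).card := by
  rw [Nat.subtype_card]
  intro a
  rw [mem_filter, mem_XX, and_assoc]

theorem comp_mem {A : Set ℕ} {k n : ℕ} {a : Fin k → ℕ} (h : a ∈ XX A k n)
    (σ : Equiv.Perm (Fin k)) : a ∘ σ ∈ XX A k n := by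
  rw [mem_XX] at h ⊢
  refine ⟨fun i => h.1 _, ?_⟩
  rw [← h.2]
  exact Equiv.sum_comp σ a

/-- Moving a tuple by a permutation. -/
theorem card_comp (A : Set ℕ) (k n : ℕ) (P : (Fin k → ℕ) → Prop) [DecidablePred P] (σ : Equiv.Perm (Fin k)) :
    ((XX A k n).filter fun a => P (a ∘ σ)).card = ((XX A k n).filter P).card := by
  refine Finset.card_bij (fun a _ => a ∘ σ) ?_ ?_ ?_
  · intro a ha
    rw [mem_filter] at ha ⊢
    exact ⟨comp_mem ha.1 σ, ha.2⟩
  · intro a _ b _ hab
    exact (Equiv.surjective σ).injective_comp_right hab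
  · intro b hb
    rw [mem_filter] at hb
    refine ⟨b ∘ σ.symm, ?_, ?_⟩
    · rw [mem_filter]
      refine ⟨comp_mem hb.1 σ.symm, ?_⟩
      have : (b ∘ σ.symm) ∘ σ = b := by ext i; simp
      rw [this]
      exact hb.2
    · ext i; simp

theorem double (A : Set ℕ) (k n : ℕ) (P : (Fin k → ℕ) → Prop) [DecidablePred P] :
    k.factorial * ((XX A k n).filter P).card =
      ∑ a ∈ XX A k n, (univ.filter fun σ : Equiv.Perm (Fin k) => P (a ∘ σ)).card := by
  calc k.factorial * ((XX A k n).filter P).card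
      = ∑ σ : Equiv.Perm (Fin k), ((XX A k n).filter P).card := by
        rw [sum_const, card_univ, Fintype.card_perm, Fintype.card_fin, smul_eq_mul]
    _ = ∑ σ : Equiv.Perm (Fin k), ((XX A k n).filter fun a => P (a ∘ σ)).card :=
        sum_congr rfl fun σ _ => (card_comp A k n P σ).symm
    _ = ∑ σ : Equiv.Perm (Fin k), ∑ a ∈ XX A k n, (if P (a ∘ σ) then 1 else 0) := by
        refine sum_congr rfl fun σ _ => ?_
        rw [card_filter]
    _ = ∑ a ∈ XX A k n, (univ.filter fun σ : Equiv.Perm (Fin k) => P (a ∘ σ)).card := by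
        rw [sum_comm]
        refine sum_congr rfl fun a _ => ?_
        rw [card_filter]

theorem count_mono {k : ℕ} (a : Fin k → ℕ)
    [DecidablePred fun σ : Equiv.Perm (Fin k) => Monotone (a ∘ σ)] :
    (univ.filter fun σ : Equiv.Perm (Fin k) => Monotone (a ∘ σ)).card =
      (univ.filter fun σ : Equiv.Perm (Fin k) => a ∘ σ = a).card := by
  have hτ : Monotone (a ∘ Tuple.sort a) := Tuple.monotone_sort a
  refine Finset.card_bij (fun σ _ => σ * (Tuple.sort a)⁻¹) ?_ ?_ ?_
  · intro σ hσ
    rw [mem_filter] at hσ ⊢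
    refine ⟨mem_univ _, ?_⟩
    have h := Tuple.unique_monotone hσ.2 hτ
    ext i
    have := congrFun h ((Tuple.sort a)⁻¹ i)
    simp only [Function.comp_apply] at this
    rw [Function.comp_apply, Equiv.Perm.mul_apply, this]
    simp
  · intro σ _ σ' _ h
    exact mul_right_cancel h
  · intro σ hσ
    rw [mem_filter] at hσ
    refine ⟨σ * Tuple.sort a, ?_, by simp⟩
    rw [mem_filter]
    refine ⟨mem_univ _, ?_⟩
    have : a ∘ ⇑(σ * Tuple.sort a) = a ∘ Tuple.sort a := by
      ext i
      have := congrFun hσ.2 (Tuple.sort a i)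
      simpa using this
    rw [this]
    exact hτ

theorem count_strict {k : ℕ} (a : Fin k → ℕ)
    [DecidablePred fun σ : Equiv.Perm (Fin k) => StrictMono (a ∘ σ)] :
    ((univ.filter fun σ : Equiv.Perm (Fin k) => StrictMono (a ∘ σ)).card : ℤ) =
      ∑ σ ∈ univ.filter (fun σ : Equiv.Perm (Fin k) => a ∘ σ = a), (Equiv.Perm.sign σ : ℤ) := by
  by_cases ha : Function.Injective a
  · have h1 : (univ.filter fun σ : Equiv.Perm (Fin k) => a ∘ σ = a) = {1} := by
      ext σ
      rw [mem_filter, mem_singleton]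
      constructor
      · rintro ⟨-, h⟩
        ext i
        exact congrArg _ (ha (congrFun h i))
      · rintro rfl
        exact ⟨mem_univ _, rfl⟩
    have h2 : (univ.filter fun σ : Equiv.Perm (Fin k) => StrictMono (a ∘ σ)) =
        {Tuple.sort a} := by
      ext σ
      rw [mem_filter, mem_singleton]
      constructor
      · rintro ⟨-, h⟩
        have := Tuple.unique_monotone h.monotone (Tuple.monotone_sort a)
        ext i
        exact congrArg _ (ha (congrFun this i))
      · rintro rfl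
        exact ⟨mem_univ _, (Tuple.monotone_sort a).strictMono_of_injective
          (ha.comp (Equiv.injective _))⟩
    rw [h1, h2]
    simp
  · have h2 : (univ.filter fun σ : Equiv.Perm (Fin k) => StrictMono (a ∘ σ)) = ∅ := by
      rw [filter_eq_empty_iff]
      intro σ _ h
      apply ha
      have h3 := h.injective
      exact (Equiv.injective_comp σ a).mp h3
    rw [h2, card_empty, Nat.cast_zero]
    symm
    unfold Function.Injective at ha
    push Not at ha
    obtain ⟨i, j, hij, hne⟩ := ha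
    have hs : a ∘ Equiv.swap i j = a := by
      ext x
      rw [Function.comp_apply]
      rcases eq_or_ne x i with rfl | hxi
      · rw [Equiv.swap_apply_left]; exact hij.symm
      rcases eq_or_ne x j with rfl | hxj
      · rw [Equiv.swap_apply_right]; exact hij
      rw [Equiv.swap_apply_of_ne_of_ne hxi hxj]
    refine Finset.sum_involution (fun σ _ => Equiv.swap i j * σ) ?_ ?_ ?_ ?_
    · intro σ _
      rw [Equiv.Perm.sign_mul, Equiv.Perm.sign_swap hne]
      simp
    · intro σ _ _ h
      have h1 : Equiv.swap i j * σ = 1 * σ := by rw [one_mul]; exact h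
      have h2 := mul_right_cancel h1
      exact hne (Equiv.swap_eq_one_iff.mp h2)
    · intro σ hσ
      rw [mem_filter] at hσ ⊢
      refine ⟨mem_univ _, ?_⟩
      ext x
      have e1 := congrFun hs (σ x)
      have e2 := congrFun hσ.2 x
      simp only [Function.comp_apply] at e1 e2
      rw [Function.comp_apply, Equiv.Perm.mul_apply, e1, e2]
    · intro σ _
      rw [← mul_assoc, Equiv.swap_mul_self, one_mul]

end PermAux

open PermAux

theorem FixC_eq (A : Set ℕ) {k : ℕ} (σ : Equiv.Perm (Fin k)) (n : ℕ) :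
    FixC A σ n = ((XX A k n).filter fun a => a ∘ σ = a).card := by
  unfold FixC
  rw [card_XX A k n (fun a => ∀ i, a (σ i) = a i)]
  congr 1
  ext a
  rw [mem_filter, mem_filter]
  refine and_congr_right fun _ => ⟨fun h => funext h, fun h i => congrFun h i⟩

theorem fact_mul_R2 (A : Set ℕ) (k n : ℕ) :
    k.factorial * R2 A k n = ∑ σ : Equiv.Perm (Fin k), FixC A σ n := by
  classical
  unfold R2
  rw [card_XX, double, sum_congr rfl fun a _ => count_mono a]
  simp only [FixC_eq, card_filter]
  rw [sum_comm]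

theorem fact_mul_R3 (A : Set ℕ) (k n : ℕ) :
    (k.factorial : ℤ) * R3 A k n
      = ∑ σ : Equiv.Perm (Fin k), (Equiv.Perm.sign σ : ℤ) * FixC A σ n := by
  classical
  unfold R3
  rw [card_XX]
  have h := double A k n StrictMono
  have h' : (k.factorial : ℤ) * (((XX A k n).filter StrictMono).card : ℤ) =
      ∑ a ∈ XX A k n, ((univ.filter fun σ : Equiv.Perm (Fin k) => StrictMono (a ∘ σ)).card : ℤ) := by
    exact_mod_cast h
  rw [h', sum_congr rfl fun a _ => count_strict a]
  have h2 : ∀ a : Fin k → ℕ, ∑ σ ∈ univ.filter (fun σ : Equiv.Perm (Fin k) => a ∘ σ = a),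
      (Equiv.Perm.sign σ : ℤ) = ∑ σ : Equiv.Perm (Fin k),
        if a ∘ σ = a then (Equiv.Perm.sign σ : ℤ) else 0 := fun a => by rw [sum_filter]
  rw [sum_congr rfl fun a _ => h2 a, sum_comm]
  refine sum_congr rfl fun σ _ => ?_
  rw [FixC_eq, card_filter]
  push_cast
  rw [mul_sum]
  refine sum_congr rfl fun a _ => ?_
  split_ifs <;> simp

theorem FixC_one (A : Set ℕ) (k n : ℕ) : FixC A (1 : Equiv.Perm (Fin k)) n = R1 A k n := by
  unfold FixC R1
  simp

end Pool.Agent.H99.Inc
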