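import Pool.Agent.H99.Inc.Mixed
import Pool.Agent.H99.Inc.Perm
import Pool.Agent.H99.Inc.Coeff

/-!
Assembly: existence of thin sets with increasing representation functions.
-/

namespace Pool.Agent.H99.Inc

open Finset PowerSeries

section

variable {k : ℕ} {α ε : ℝ} {x : ℕ → ℝ} {Cp C0 : ℝ}

/-- the set given by the `0/1` sequence -/
def setOf' (x : ℕ → ℝ) : Set ℕ := {b | x b = 1}

theorem ind_setOf' (x : ℕ → ℝ) (hx : ∀ b, x b = 0 ∨ x b = 1) : ind (setOf' x) = x := by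
  funext b
  unfold ind
  by_cases h : b ∈ setOf' x
  · rw [if_pos h]
    exact h.symm
  · rw [if_neg h]
    rcases hx b with h0 | h0
    · exact h0.symm
    · exact absurd h0 h

theorem S_add (e f : ℕ → ℝ) (m : ℕ) : S (fun b => e b + f b) m = S e m + S f m := by
  ext n
  simp only [S, coeff_mk, map_add]
  split_ifs <;> simp

/-- non-main products -/
theorem PathHyp.prod_expand (x : ℕ → ℝ) (α : ℝ) (J : Finset (Fin k)) (μ : Fin k → ℕ) :
    ∏ i ∈ J, S x (μ i) = ∑ I ∈ J.powerset,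
      (∏ i ∈ I, S (bc α) (μ i)) * ∏ i ∈ J \ I, S (ee α x) (μ i) := by
  rw [← Finset.prod_add]
  refine Finset.prod_congr rfl fun i _ => ?_
  rw [← S_add]
  congr 1
  funext b
  simp [ee]

theorem PathHyp.bd_fix (H : PathHyp k α ε (bc α) x Cp C0) (h3 : 3 < (k : ℝ) * α)
    (δ : ℝ) (hδ1 : δ + (k : ℝ) * ε ≤ ((k : ℝ) * α - 3) / 2) (hδ2 : δ + (k : ℝ) * ε ≤ α / 2)
    (J : Finset (Fin k)) (μ : Fin k → ℕ) (hμk : ∀ i, μ i ≤ k)
    (hμ : ∀ i ∈ J, 1 ≤ μ i) (hsum : ∑ i ∈ J, μ i = k) (h2 : ∃ i ∈ J, 2 ≤ μ i) :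
    Bd ((k : ℝ) * α - 2 - δ) (fun n => coeff n ((1 - X) * ∏ i ∈ J, S x (μ i))) := by
  have h : (fun n => coeff n ((1 - X) * ∏ i ∈ J, S x (μ i)))
      = fun n => ∑ I ∈ J.powerset, coeff n ((1 - X) *
        ((∏ i ∈ I, S (bc α) (μ i)) * ∏ i ∈ J \ I, S (ee α x) (μ i))) := by
    funext n
    rw [PathHyp.prod_expand x α J μ, Finset.mul_sum, map_sum]
  rw [h]
  refine Bd.sum _ _ fun I hI => ?_
  rw [Finset.mem_powerset] at hI
  refine H.mixed h3 δ hδ1 hδ2 J I hI μ hμk hμ hsum ?_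
  obtain ⟨i, hi, h2⟩ := h2
  by_cases hiI : i ∈ I
  · exact Or.inl ⟨i, hiI, h2⟩
  · exact Or.inr ⟨i, Finset.mem_sdiff.mpr ⟨hi, hiI⟩⟩

theorem PathHyp.bd_main (H : PathHyp k α ε (bc α) x Cp C0) (h3 : 3 < (k : ℝ) * α)
    (δ : ℝ) (hδ1 : δ + (k : ℝ) * ε ≤ ((k : ℝ) * α - 3) / 2) (hδ2 : δ + (k : ℝ) * ε ≤ α / 2) :
    Bd ((k : ℝ) * α - 2 - δ) (fun n => coeff n ((1 - X) * ∏ _i : Fin k, S x 1)
      - bc ((k : ℝ) * α - 1) n) := by
  have hk := H.hk
  have h : (fun n => coeff n ((1 - X) * ∏ _i : Fin k, S x 1) - bc ((k : ℝ) * α - 1) n)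
      = fun n => ∑ I ∈ (univ : Finset (Fin k)).powerset.erase univ, coeff n ((1 - X) *
        ((∏ _i ∈ I, S (bc α) 1) * ∏ _i ∈ univ \ I, S (ee α x) 1)) := by
    funext n
    have h1 := PathHyp.prod_expand x α (univ : Finset (Fin k)) (fun _ => 1)
    rw [h1, Finset.mul_sum, map_sum,
      ← Finset.add_sum_erase _ _ (Finset.mem_powerset.mpr (Finset.Subset.refl univ))]
    have h2 : coeff n ((1 - X) *
        ((∏ _i : Fin k, S (bc α) 1) * ∏ _i ∈ univ \ (univ : Finset (Fin k)), S (ee α x) 1))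
        = bc ((k : ℝ) * α - 1) n := by
      rw [Finset.sdiff_self, Finset.prod_empty, mul_one, Finset.prod_const, S_bc_one, B_pow,
        ← B_neg_one, B_mul, Finset.card_univ, Fintype.card_fin]
      simp only [B, coeff_mk]
      congr 1; ring
    rw [h2]; ring
  rw [h]
  refine Bd.sum _ _ fun I hI => ?_
  rw [Finset.mem_erase] at hI
  refine H.mixed h3 δ hδ1 hδ2 univ I (Finset.subset_univ _) (fun _ => 1) (fun _ => hk)
    (fun _ _ => le_rfl) (by simp) (Or.inr ?_)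
  rw [Finset.nonempty_iff_ne_empty]
  intro h0
  rw [Finset.sdiff_eq_empty_iff_subset] at h0
  exact hI.1 (Finset.Subset.antisymm (Finset.subset_univ _) h0)

/-- eventually positive -/
theorem eventually_pos_of_bd {β δ : ℝ} (hβ : 0 < β) (hδ : 0 < δ) {f : ℕ → ℝ}
    (h : Bd (β - 1 - δ) (fun n => f n - bc β n)) : ∃ n₀, ∀ n ≥ n₀, 0 < f n := by
  obtain ⟨C, hC, hb⟩ := h
  obtain ⟨c, hc, hl⟩ := bc_lower hβ
  -- need `c (n+1)^(β-1) > C (n+2)^(β-1-δ)`
  have hlim : Filter.Tendsto (fun n : ℕ => ((n : ℝ) + 2) ^ δ) Filter.atTop Filter.atTop := by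
    have h1 : Filter.Tendsto (fun n : ℕ => ((n : ℝ) + 2)) Filter.atTop Filter.atTop :=
      Filter.tendsto_atTop_add_const_right _ _ tendsto_natCast_atTop_atTop
    exact (tendsto_rpow_atTop hδ).comp h1
  obtain ⟨n₀, hn₀⟩ := Filter.eventually_atTop.mp
    (hlim.eventually_gt_atTop (C * 2 ^ |β - 1| / c))
  refine ⟨n₀, fun n hn => ?_⟩
  have h1 := hn₀ n hn
  have hy0 : (0 : ℝ) < (n : ℝ) + 2 := by positivity
  have hz0 : (0 : ℝ) < (n : ℝ) + 1 := by positivity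
  have h2 : ((n : ℝ) + 2) ^ (β - 1) ≤ 2 ^ |β - 1| * ((n : ℝ) + 1) ^ (β - 1) := by
    rcases le_total 0 (β - 1) with h0 | h0
    · rw [abs_of_nonneg h0, ← Real.mul_rpow (by norm_num) hz0.le]
      apply Real.rpow_le_rpow hy0.le _ h0
      linarith [Nat.cast_nonneg (α := ℝ) n]
    · have h4 : ((n : ℝ) + 2) ^ (β - 1) ≤ ((n : ℝ) + 1) ^ (β - 1) :=
        Real.rpow_le_rpow_of_nonpos hz0 (by linarith) h0
      have h5 : (1 : ℝ) ≤ 2 ^ |β - 1| := Real.one_le_rpow (by norm_num) (abs_nonneg _)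
      have h6 : 0 ≤ ((n : ℝ) + 1) ^ (β - 1) := Real.rpow_nonneg hz0.le _
      nlinarith
  have h3 : C * ((n : ℝ) + 2) ^ (β - 1 - δ) < c * ((n : ℝ) + 1) ^ (β - 1) := by
    have h4 : ((n : ℝ) + 2) ^ (β - 1 - δ) = ((n : ℝ) + 2) ^ (β - 1) / ((n : ℝ) + 2) ^ δ :=
      Real.rpow_sub hy0 _ _
    have hyd : 0 < ((n : ℝ) + 2) ^ δ := Real.rpow_pos_of_pos hy0 _
    have hzb : 0 < ((n : ℝ) + 1) ^ (β - 1) := Real.rpow_pos_of_pos hz0 _
    rw [h4, ← mul_div_assoc, div_lt_iff₀ hyd]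
    have h5 : C * 2 ^ |β - 1| < c * ((n : ℝ) + 2) ^ δ := by
      rw [div_lt_iff₀ hc] at h1
      linarith
    calc C * ((n : ℝ) + 2) ^ (β - 1) ≤ C * (2 ^ |β - 1| * ((n : ℝ) + 1) ^ (β - 1)) :=
          mul_le_mul_of_nonneg_left h2 hC
      _ = (C * 2 ^ |β - 1|) * ((n : ℝ) + 1) ^ (β - 1) := by ring
      _ < (c * ((n : ℝ) + 2) ^ δ) * ((n : ℝ) + 1) ^ (β - 1) :=
          mul_lt_mul_of_pos_right h5 hzb
      _ = _ := by ring
  have h6 := hb n
  rw [abs_le] at h6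
  have h7 := hl n
  linarith [h6.1]

end

/-- Shift of a set by one. -/
def shift (A : Set ℕ) : Set ℕ := {a | ∃ b ∈ A, a = b + 1}

theorem shift_card {k : ℕ} (A : Set ℕ) (n : ℕ) (P Q : (Fin k → ℕ) → Prop)
    (hPQ : ∀ a : Fin k → ℕ, P a ↔ Q (fun i => a i + 1)) :
    Nat.card {a : Fin k → ℕ // (∀ i, a i ∈ shift A) ∧ ∑ i, a i = n + k ∧ Q a}
      = Nat.card {a : Fin k → ℕ // (∀ i, a i ∈ A) ∧ ∑ i, a i = n ∧ P a} := by
  symm
  refine Nat.card_congr ?_
  refine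
    { toFun := fun a => ⟨fun i => a.1 i + 1, ?_, ?_, ?_⟩
      invFun := fun a => ⟨fun i => a.1 i - 1, ?_, ?_, ?_⟩
      left_inv := ?_
      right_inv := ?_ }
  · exact fun i => ⟨a.1 i, a.2.1 i, rfl⟩
  · rw [Finset.sum_add_distrib, a.2.2.1]; simp
  · exact (hPQ _).mp a.2.2.2
  · intro i
    obtain ⟨b, hb, hab⟩ := a.2.1 i
    simp only [hab, Nat.add_sub_cancel]
    exact hb
  · have h1 : ∀ i, a.1 i = (a.1 i - 1) + 1 := by
      intro i
      obtain ⟨b, _, hab⟩ := a.2.1 i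
      omega
    have h2 := a.2.2.1
    have h3 : ∑ i, a.1 i = ∑ i, ((a.1 i - 1) + 1) := Finset.sum_congr rfl fun i _ => h1 i
    rw [h3, Finset.sum_add_distrib] at h2
    simp at h2
    exact h2
  · rw [hPQ]
    have h1 : (fun i => a.1 i - 1 + 1) = a.1 := by
      funext i
      obtain ⟨b, _, hab⟩ := a.2.1 i
      omega
    rw [h1]
    exact a.2.2.2
  · intro a
    apply Subtype.ext
    funext i
    simp
  · intro a
    apply Subtype.ext
    funext i
    obtain ⟨b, _, hab⟩ := a.2.1 i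
    simp only
    omega

theorem R1_shift (A : Set ℕ) (k n : ℕ) : R1 (shift A) k (n + k) = R1 A k n := by
  have := shift_card (k := k) A n (fun _ => True) (fun _ => True) (fun _ => Iff.rfl)
  simpa [R1] using this

theorem R2_shift (A : Set ℕ) (k n : ℕ) : R2 (shift A) k (n + k) = R2 A k n := by
  refine shift_card (k := k) A n Monotone Monotone fun a => ?_
  constructor
  · intro h i j hij
    exact Nat.add_le_add_right (h hij) 1
  · intro h i j hij
    exact Nat.le_of_add_le_add_right (h hij)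

theorem R3_shift (A : Set ℕ) (k n : ℕ) : R3 (shift A) k (n + k) = R3 A k n := by
  refine shift_card (k := k) A n StrictMono StrictMono fun a => ?_
  constructor
  · intro h i j hij
    exact Nat.add_lt_add_right (h hij) 1
  · intro h i j hij
    exact Nat.lt_of_add_lt_add_right (h hij)

/-- The core existence statement for subsets of `{0, 1, 2, …}`. -/
theorem exists_set (k : ℕ) (hk : 4 ≤ k) (α : ℝ) (hα3 : (3 : ℝ) / k < α) (hα1 : α < 1) :
    ∃ A : Set ℕ, (∃ (c C : ℝ) (n₀ : ℕ), 0 < c ∧ ∀ n ≥ n₀,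
        c * (n : ℝ) ^ α ≤ ∑ b ∈ range n, ind A b ∧
        ∑ b ∈ range n, ind A b ≤ C * (n : ℝ) ^ α) ∧
      ∃ n₀ : ℕ, ∀ n ≥ n₀, R1 A k n < R1 A k (n + 1) ∧ R2 A k n < R2 A k (n + 1) ∧
        R3 A k n < R3 A k (n + 1) := by
  have hk0 : (0 : ℝ) < k := by exact_mod_cast (by omega : 0 < k)
  have hk4 : (4 : ℝ) ≤ k := by exact_mod_cast hk
  have hα : 0 < α := lt_trans (by positivity) hα3
  have h3 : 3 < (k : ℝ) * α := by
    rw [div_lt_iff₀ hk0] at hα3; linarith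
  set m : ℝ := min (((k : ℝ) * α - 3) / 2) (α / 2) with hm
  have hm0 : 0 < m := lt_min (by linarith) (by linarith)
  set ε : ℝ := m / (2 * k) with hε
  have hε0 : 0 < ε := by positivity
  have hkε : (k : ℝ) * ε = m / 2 := by rw [hε]; field_simp
  have hεα' : ε ≤ α / 4 := by
    have h1 : m ≤ α / 2 := min_le_right _ _
    have h2 : ε ≤ (k : ℝ) * ε := by nlinarith
    linarith
  have hεα : ε ≤ α / 2 := by linarith
  obtain ⟨x, Cp, C0, H⟩ := exists_pathHyp k (by omega) hα hα1 hε0 hεα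
  set δ : ℝ := m / 2 with hδ
  have hδ0 : 0 < δ := by positivity
  have hδ1 : δ + (k : ℝ) * ε ≤ ((k : ℝ) * α - 3) / 2 := by
    rw [hkε, hδ]; linarith [min_le_left (((k : ℝ) * α - 3) / 2) (α / 2)]
  have hδ2 : δ + (k : ℝ) * ε ≤ α / 2 := by
    rw [hkε, hδ]; linarith [min_le_right (((k : ℝ) * α - 3) / 2) (α / 2)]
  refine ⟨setOf' x, ?_, ?_⟩
  · obtain ⟨K, hK, hse⟩ := H.sum_e
    obtain ⟨cl', hcl, hlow⟩ := bc_lower (β := α + 1) (by linarith)
    obtain ⟨cu, hcu, hupp⟩ := bc_upper (β := α + 1) (by linarith)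
    have hev : ∃ n₀ : ℕ, ∀ n ≥ n₀, 4 * K / cl' < (n : ℝ) ^ (α / 4) := by
      have h1 := (tendsto_rpow_atTop (y := α / 4) (by linarith)).comp
        (tendsto_natCast_atTop_atTop (R := ℝ))
      exact Filter.eventually_atTop.mp (h1.eventually_gt_atTop (4 * K / cl'))
    obtain ⟨n₀, hn₀⟩ := hev
    refine ⟨cl' / 2, cu + 2 * K, n₀ + 1, by positivity, fun n hn => ?_⟩
    rw [ind_setOf' x H.hx]
    obtain ⟨N, rfl⟩ : ∃ N, n = N + 1 := ⟨n - 1, by omega⟩
    have hn0 : (0 : ℝ) < ((N + 1 : ℕ) : ℝ) := by positivity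
    have hn1 : (1 : ℝ) ≤ ((N + 1 : ℕ) : ℝ) := by
      push_cast; linarith [Nat.cast_nonneg (α := ℝ) N]
    have e1 : ∑ b ∈ range (N + 1), x b
        = ∑ b ∈ range (N + 1), (x b - bc α b) + bc (α + 1) N := by
      rw [← sum_bc, ← Finset.sum_add_distrib]
      exact Finset.sum_congr rfl fun b _ => by ring
    have e2 := hse N
    have e3 : ((N : ℝ) + 2) ^ (α / 2 + ε) ≤ 2 * ((N + 1 : ℕ) : ℝ) ^ (3 * α / 4) := by
      calc ((N : ℝ) + 2) ^ (α / 2 + ε) ≤ (2 * ((N + 1 : ℕ) : ℝ)) ^ (α / 2 + ε) := by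
            apply Real.rpow_le_rpow (by positivity)
            · push_cast; linarith [Nat.cast_nonneg (α := ℝ) N]
            · positivity
        _ ≤ (2 * ((N + 1 : ℕ) : ℝ)) ^ (3 * α / 4) := by
            apply Real.rpow_le_rpow_of_exponent_le
            · linarith
            · linarith
        _ = 2 ^ (3 * α / 4) * ((N + 1 : ℕ) : ℝ) ^ (3 * α / 4) :=
            Real.mul_rpow (by norm_num) hn0.le
        _ ≤ 2 ^ (1 : ℝ) * ((N + 1 : ℕ) : ℝ) ^ (3 * α / 4) := by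
            refine mul_le_mul_of_nonneg_right ?_ (Real.rpow_nonneg hn0.le _)
            exact Real.rpow_le_rpow_of_exponent_le (by norm_num) (by linarith)
        _ = _ := by rw [Real.rpow_one]
    have e4 : ((N + 1 : ℕ) : ℝ) ^ α
        = ((N + 1 : ℕ) : ℝ) ^ (α / 4) * ((N + 1 : ℕ) : ℝ) ^ (3 * α / 4) := by
      rw [← Real.rpow_add hn0]; congr 1; ring
    have e5 : bc (α + 1) N ≤ cu * ((N + 1 : ℕ) : ℝ) ^ α := by
      have := hupp N
      rw [add_sub_cancel_right] at this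
      simpa using this
    have e6 : cl' * ((N + 1 : ℕ) : ℝ) ^ α ≤ bc (α + 1) N := by
      have := hlow N
      rw [add_sub_cancel_right] at this
      simpa using this
    have e7 : ((N + 1 : ℕ) : ℝ) ^ (3 * α / 4) ≤ ((N + 1 : ℕ) : ℝ) ^ α :=
      Real.rpow_le_rpow_of_exponent_le hn1 (by linarith)
    have e8 : K * (2 * ((N + 1 : ℕ) : ℝ) ^ (3 * α / 4)) ≤ cl' / 2 * ((N + 1 : ℕ) : ℝ) ^ α := by
      have h1 := hn₀ (N + 1) (by omega)
      rw [div_lt_iff₀ hcl] at h1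
      rw [e4]
      have h2 : 0 ≤ ((N + 1 : ℕ) : ℝ) ^ (3 * α / 4) := Real.rpow_nonneg hn0.le _
      nlinarith
    have e9 : K * ((N : ℝ) + 2) ^ (α / 2 + ε) ≤ K * (2 * ((N + 1 : ℕ) : ℝ) ^ (3 * α / 4)) :=
      mul_le_mul_of_nonneg_left e3 hK.le
    rw [abs_le] at e2
    rw [e1]
    constructor
    · linarith [e2.1]
    · have : K * (2 * ((N + 1 : ℕ) : ℝ) ^ (3 * α / 4)) ≤ 2 * K * ((N + 1 : ℕ) : ℝ) ^ α := by
        nlinarith
      rw [add_mul]
      linarith [e2.2]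
  · -- differences
    have hind := ind_setOf' x H.hx
    set A := setOf' x with hA
    have hmain : Bd ((k : ℝ) * α - 1 - 1 - δ) (fun n =>
        coeff n ((1 - X) * ∏ _i : Fin k, S (ind A) 1) - bc ((k : ℝ) * α - 1) n) := by
      rw [hind]
      refine (H.bd_main h3 δ hδ1 hδ2).mono (by linarith)
    have hfix : ∀ σ : Equiv.Perm (Fin k), σ ≠ 1 → ∃ F : PowerSeries ℝ,
        (∀ n, (FixC A σ n : ℝ) = coeff n F) ∧
        Bd ((k : ℝ) * α - 1 - 1 - δ) (fun n => coeff n ((1 - X) * F)) := by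
      intro σ hσ
      obtain ⟨J, μ, h1, h2, h4, h5, h6⟩ := FixC_eq_coeff σ
      refine ⟨∏ i ∈ J, S (ind A) (μ i), fun n => h6 A n, ?_⟩
      rw [hind]
      exact (H.bd_fix h3 δ hδ1 hδ2 J μ h2 h1 h4 (h5 hσ)).mono (by linarith)
    choose! F hF1 hF2 using hfix
    have hβ : 0 < (k : ℝ) * α - 1 := by linarith
    -- a general statement for signed sums
    have gen : ∀ s : Equiv.Perm (Fin k) → ℝ, s 1 = 1 → ∃ n₀, ∀ n ≥ n₀,
        0 < ∑ σ : Equiv.Perm (Fin k), s σ * ((FixC A σ (n + 1) : ℝ) - FixC A σ n) := by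
      intro s hs
      set f : ℕ → ℝ := fun n => coeff n ((1 - X) * ∏ _i : Fin k, S (ind A) 1)
        + ∑ σ ∈ (univ : Finset (Equiv.Perm (Fin k))).erase 1, s σ * coeff n ((1 - X) * F σ)
        with hf
      have hb : Bd ((k : ℝ) * α - 1 - 1 - δ) (fun n => f n - bc ((k : ℝ) * α - 1) n) := by
        have h1 : Bd ((k : ℝ) * α - 1 - 1 - δ) (fun n =>
            ∑ σ ∈ (univ : Finset (Equiv.Perm (Fin k))).erase 1,
              s σ * coeff n ((1 - X) * F σ)) := by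
          refine Bd.sum _ _ fun σ hσ => ?_
          exact (hF2 σ (Finset.ne_of_mem_erase hσ)).const_mul _
        have h2 := hmain.add h1
        have h4 : (fun n => f n - bc ((k : ℝ) * α - 1) n)
            = fun n => (coeff n ((1 - X) * ∏ _i : Fin k, S (ind A) 1)
              - bc ((k : ℝ) * α - 1) n)
              + ∑ σ ∈ (univ : Finset (Equiv.Perm (Fin k))).erase 1,
                s σ * coeff n ((1 - X) * F σ) := by
          funext n; rw [hf]; ring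
        rw [h4]; exact h2
      obtain ⟨n₀, hn₀⟩ := eventually_pos_of_bd hβ hδ0 hb
      refine ⟨n₀, fun n hn => ?_⟩
      have h1 := hn₀ (n + 1) (by omega)
      rw [hf] at h1
      simp only [coeff_one_sub_X_mul] at h1
      rw [← Finset.add_sum_erase _ _ (Finset.mem_univ (1 : Equiv.Perm (Fin k))), hs, one_mul,
        FixC_one, FixC_one, R1_eq_coeff, R1_eq_coeff]
      have h2 : ∑ σ ∈ (univ : Finset (Equiv.Perm (Fin k))).erase 1,
          s σ * ((FixC A σ (n + 1) : ℝ) - FixC A σ n)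
          = ∑ σ ∈ (univ : Finset (Equiv.Perm (Fin k))).erase 1,
          s σ * (coeff (n + 1) (F σ) - coeff n (F σ)) := by
        refine Finset.sum_congr rfl fun σ hσ => ?_
        rw [hF1 σ (Finset.ne_of_mem_erase hσ), hF1 σ (Finset.ne_of_mem_erase hσ)]
      rw [h2]
      exact h1
    -- the three functions
    obtain ⟨n1, hn1⟩ := eventually_pos_of_bd hβ hδ0 hmain
    obtain ⟨n2, hn2⟩ := gen (fun _ => 1) rfl
    obtain ⟨n3, hn3⟩ := gen (fun σ => ((Equiv.Perm.sign σ : ℤ) : ℝ)) (by simp)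
    refine ⟨max n1 (max n2 n3), fun n hn => ⟨?_, ?_, ?_⟩⟩
    · have h1 := hn1 (n + 1) (by omega)
      rw [coeff_one_sub_X_mul, ← R1_eq_coeff, ← R1_eq_coeff] at h1
      have h2 : (R1 A k n : ℝ) < R1 A k (n + 1) := by linarith
      exact_mod_cast h2
    · have h1 := hn2 n (by omega)
      simp only [one_mul, Finset.sum_sub_distrib] at h1
      have h2 : ((k.factorial * R2 A k (n + 1) : ℕ) : ℝ)
          = ∑ σ : Equiv.Perm (Fin k), (FixC A σ (n + 1) : ℝ) := by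
        rw [fact_mul_R2]; push_cast; rfl
      have h4 : ((k.factorial * R2 A k n : ℕ) : ℝ)
          = ∑ σ : Equiv.Perm (Fin k), (FixC A σ n : ℝ) := by
        rw [fact_mul_R2]; push_cast; rfl
      have h5 : ((k.factorial * R2 A k n : ℕ) : ℝ) < ((k.factorial * R2 A k (n + 1) : ℕ) : ℝ) := by
        rw [h2, h4]; linarith
      have h6 : k.factorial * R2 A k n < k.factorial * R2 A k (n + 1) := by exact_mod_cast h5
      exact Nat.lt_of_mul_lt_mul_left h6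
    · have h1 := hn3 n (by omega)
      simp only [mul_sub, Finset.sum_sub_distrib] at h1
      have h2 : ((k.factorial : ℝ) * R3 A k (n + 1))
          = ∑ σ : Equiv.Perm (Fin k), ((Equiv.Perm.sign σ : ℤ) : ℝ) * (FixC A σ (n + 1) : ℝ) := by
        have := fact_mul_R3 A k (n + 1)
        exact_mod_cast congrArg (fun z : ℤ => (z : ℝ)) this
      have h4 : ((k.factorial : ℝ) * R3 A k n)
          = ∑ σ : Equiv.Perm (Fin k), ((Equiv.Perm.sign σ : ℤ) : ℝ) * (FixC A σ n : ℝ) := by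
        have := fact_mul_R3 A k n
        exact_mod_cast congrArg (fun z : ℤ => (z : ℝ)) this
      have h5 : (k.factorial : ℝ) * R3 A k n < (k.factorial : ℝ) * R3 A k (n + 1) := by
        rw [h2, h4]; linarith
      have h6 : k.factorial * R3 A k n < k.factorial * R3 A k (n + 1) := by exact_mod_cast h5
      exact Nat.lt_of_mul_lt_mul_left h6

theorem R1_eq_zero_of_finite {A : Set ℕ} (hA : A.Finite) (k : ℕ) :
    ∃ N, ∀ n ≥ N, R1 A k n = 0 := by
  obtain ⟨M, hM⟩ := hA.bddAbove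
  refine ⟨k * M + 1, fun n hn => ?_⟩
  unfold R1
  rw [Nat.card_eq_zero]
  left
  constructor
  rintro ⟨a, ha, hs⟩
  have : ∑ i, a i ≤ ∑ _i : Fin k, M := Finset.sum_le_sum fun i _ => hM (ha i)
  simp at this
  omega

theorem card_shift (A : Set ℕ) (n : ℕ) :
    (Nat.card {a : ℕ // a ∈ shift A ∧ a ≤ n} : ℝ) = ∑ b ∈ range n, ind A b := by
  classical
  have h1 : Nat.card {a : ℕ // a ∈ shift A ∧ a ≤ n}
      = (((range n).filter (fun b => b ∈ A)).image (fun b => b + 1)).card := by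
    apply Nat.subtype_card
    intro a
    simp only [Finset.mem_image, Finset.mem_filter, Finset.mem_range]
    constructor
    · rintro ⟨b, ⟨hb, hbA⟩, rfl⟩
      exact ⟨⟨b, hbA, rfl⟩, by omega⟩
    · rintro ⟨⟨b, hbA, rfl⟩, h⟩
      exact ⟨b, ⟨by omega, hbA⟩, rfl⟩
  have h3 : ∑ b ∈ range n, ind A b = (((range n).filter (fun b => b ∈ A)).card : ℝ) := by
    rw [Finset.card_filter]
    push_cast
    refine Finset.sum_congr rfl fun b _ => ?_
    unfold ind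
    by_cases h : b ∈ A <;> simp [h]
  rw [h1, h3, Finset.card_image_of_injective _ (fun a b h => Nat.succ_injective h)]

/-- **Main theorem.** -/
theorem main (k : ℕ) (hk : 4 ≤ k) (α : ℝ) (hα3 : (3 : ℝ) / k < α) (hα1 : α < 1) :
    ∃ A : Set ℕ, A.Infinite ∧ (∀ a ∈ A, 1 ≤ a) ∧ ∃ (c C : ℝ) (n₀ : ℕ), 0 < c ∧ ∀ n ≥ n₀,
      c * (n : ℝ) ^ α ≤ (Nat.card {a : ℕ // a ∈ A ∧ a ≤ n} : ℝ) ∧
      (Nat.card {a : ℕ // a ∈ A ∧ a ≤ n} : ℝ) ≤ C * (n : ℝ) ^ α ∧
      R1 A k n < R1 A k (n + 1) ∧ R2 A k n < R2 A k (n + 1) ∧ R3 A k n < R3 A k (n + 1) := by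
  obtain ⟨A, ⟨c, C, n1, hc, hcount⟩, n₀, hinc⟩ := exists_set k hk α hα3 hα1
  have hinc' : ∀ n ≥ n₀ + k, R1 (shift A) k n < R1 (shift A) k (n + 1) ∧
      R2 (shift A) k n < R2 (shift A) k (n + 1) ∧
        R3 (shift A) k n < R3 (shift A) k (n + 1) := by
    intro n hn
    obtain ⟨m, rfl⟩ : ∃ m, n = m + k := ⟨n - k, by omega⟩
    have h := hinc m (by omega)
    rw [show m + k + 1 = (m + 1) + k by ring]
    simp only [R1_shift, R2_shift, R3_shift]
    exact h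
  refine ⟨shift A, ?_, ?_, c, C, max n1 (n₀ + k), hc, fun n hn => ?_⟩
  · intro hfin
    obtain ⟨N, hN⟩ := R1_eq_zero_of_finite hfin k
    have h1 := (hinc' (max N (n₀ + k)) (le_max_right _ _)).1
    rw [hN _ (le_trans (le_max_left N (n₀ + k)) (Nat.le_succ _))] at h1
    exact Nat.not_lt_zero _ h1
  · rintro a ⟨b, _, rfl⟩
    omega
  · rw [card_shift]
    have h1 := hcount n ((le_max_left _ _).trans hn)
    exact ⟨h1.1, h1.2, hinc' n ((le_max_right _ _).trans hn)⟩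

end Pool.Agent.H99.Inc
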