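import Pool.Agent.H99.Inc.Defs

/-!
# A deterministic martingale lemma
-/

namespace Pool.Agent.H99.Inc
open Finset

/-- One term of the potential. -/
noncomputable def PathT {F : Type} (p : ℕ → ℝ) (g : F → ℕ → ℕ → (ℕ → ℝ) → ℝ) (s : ℝ) (a : ℕ)
    (f : F) (n : ℕ) (x : ℕ → ℝ) : ℝ :=
  Real.exp (s * ∑ b ∈ range a, (x b - p b) * g f n b x - ∑ b ∈ range a, p b * (g f n b x) ^ 2) /
    ((n : ℝ) + 2) ^ 2

/-- The potential. -/
noncomputable def PathV {F : Type} [Fintype F] (p : ℕ → ℝ) (g : F → ℕ → ℕ → (ℕ → ℝ) → ℝ)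
    (a : ℕ) (x : ℕ → ℝ) : ENNReal :=
  ∑ f : F, ∑' n : ℕ, (ENNReal.ofReal (PathT p g 1 a f n x) + ENNReal.ofReal (PathT p g (-1) a f n x))

theorem PathT_nonneg {F : Type} (p : ℕ → ℝ) (g : F → ℕ → ℕ → (ℕ → ℝ) → ℝ) (s : ℝ) (a : ℕ)
    (f : F) (n : ℕ) (x : ℕ → ℝ) : 0 ≤ PathT p g s a f n x := by
  unfold PathT; positivity

theorem PathV_zero_ne_top {F : Type} [Fintype F] (p : ℕ → ℝ) (g : F → ℕ → ℕ → (ℕ → ℝ) → ℝ)
    (x : ℕ → ℝ) : PathV p g 0 x ≠ ⊤ := by
  unfold PathV
  refine ENNReal.sum_ne_top.2 fun f _ => ?_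
  have h : Summable fun n : ℕ => 1 / ((n : ℝ) + 2) ^ 2 := by
    have h1 : Summable fun n : ℕ => 1 / ((n : ℝ)) ^ 2 :=
      Real.summable_one_div_nat_pow.2 (by norm_num)
    have h2 := (summable_nat_add_iff 2).2 h1
    refine h2.congr fun n => ?_
    push_cast
    rfl
  have h3 : ∀ s : ℝ, ∀ n : ℕ, PathT p g s 0 f n x = 1 / ((n : ℝ) + 2) ^ 2 := by
    intro s n
    simp [PathT]
  simp_rw [h3]
  rw [ENNReal.tsum_add]
  exact ENNReal.add_ne_top.2 ⟨h.tsum_ofReal_ne_top, h.tsum_ofReal_ne_top⟩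

theorem PathT_congr {F : Type} (p : ℕ → ℝ) (g : F → ℕ → ℕ → (ℕ → ℝ) → ℝ)
    (hloc : ∀ f n b (x y : ℕ → ℝ), (∀ i < b, x i = y i) → g f n b x = g f n b y)
    (s : ℝ) (a : ℕ) (f : F) (n : ℕ) (x y : ℕ → ℝ) (h : ∀ i < a, x i = y i) :
    PathT p g s a f n x = PathT p g s a f n y := by
  unfold PathT
  have h1 : ∀ b ∈ range a, g f n b x = g f n b y := fun b hb =>
    hloc f n b x y fun i hi => h i (hi.trans (mem_range.1 hb))
  have e1 : ∑ b ∈ range a, (x b - p b) * g f n b x = ∑ b ∈ range a, (y b - p b) * g f n b y :=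
    Finset.sum_congr rfl fun b hb => by rw [h1 b hb, h b (mem_range.1 hb)]
  have e2 : ∑ b ∈ range a, p b * (g f n b x) ^ 2 = ∑ b ∈ range a, p b * (g f n b y) ^ 2 :=
    Finset.sum_congr rfl fun b hb => by rw [h1 b hb]
  rw [e1, e2]

theorem PathV_congr {F : Type} [Fintype F] (p : ℕ → ℝ) (g : F → ℕ → ℕ → (ℕ → ℝ) → ℝ)
    (hloc : ∀ f n b (x y : ℕ → ℝ), (∀ i < b, x i = y i) → g f n b x = g f n b y)
    (a : ℕ) (x y : ℕ → ℝ) (h : ∀ i < a, x i = y i) :
    PathV p g a x = PathV p g a y := by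
  unfold PathV
  refine Finset.sum_congr rfl fun f _ => tsum_congr fun n => ?_
  rw [PathT_congr p g hloc 1 a f n x y h, PathT_congr p g hloc (-1) a f n x y h]

theorem Path_exp {p y : ℝ} (hp0 : 0 ≤ p) (hp1 : p ≤ 1) (hy : |y| ≤ 1) :
    p * Real.exp ((1 - p) * y) + (1 - p) * Real.exp (-p * y) ≤ Real.exp (p * y ^ 2) := by
  have hexp : ∀ u : ℝ, |u| ≤ 1 → Real.exp u ≤ 1 + u + u ^ 2 := by
    intro u hu
    have h1 := Real.abs_exp_sub_one_sub_id_le hu
    have h2 := (abs_le.1 h1).2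
    linarith
  have h1p : 0 ≤ 1 - p := by linarith
  have h1 := hexp ((1 - p) * y) (by
    rw [abs_mul, abs_of_nonneg h1p]
    nlinarith [abs_nonneg y])
  have h2 := hexp (-p * y) (by
    rw [abs_mul, abs_neg, abs_of_nonneg hp0]
    nlinarith [abs_nonneg y])
  have h3 := mul_le_mul_of_nonneg_left h1 hp0
  have h4 := mul_le_mul_of_nonneg_left h2 h1p
  have h5 := Real.add_one_le_exp (p * y ^ 2)
  have h6 : 0 ≤ p ^ 2 * y ^ 2 := by positivity
  nlinarith

theorem PathT_succ {F : Type} (p : ℕ → ℝ) (hp0 : ∀ b, 0 ≤ p b)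
    (hp1 : ∀ b, p b ≤ 1) (g : F → ℕ → ℕ → (ℕ → ℝ) → ℝ)
    (hg : ∀ f n b x, |g f n b x| ≤ 1)
    (hloc : ∀ f n b (x y : ℕ → ℝ), (∀ i < b, x i = y i) → g f n b x = g f n b y)
    (s : ℝ) (hs : |s| = 1) (a : ℕ) (f : F) (n : ℕ) (x : ℕ → ℝ) :
    p a * PathT p g s (a + 1) f n (Function.update x a 1) +
      (1 - p a) * PathT p g s (a + 1) f n (Function.update x a 0) ≤ PathT p g s a f n x := by
  have hstep : ∀ c : ℝ, PathT p g s (a + 1) f n (Function.update x a c) =
      PathT p g s a f n x * (Real.exp (s * ((c - p a) * g f n a x)) *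
        Real.exp (-(p a * (g f n a x) ^ 2))) := by
    intro c
    have h1 : PathT p g s a f n x = PathT p g s a f n (Function.update x a c) :=
      PathT_congr p g hloc s a f n _ _ fun i hi => (Function.update_of_ne hi.ne _ _).symm
    have h2 : g f n a x = g f n a (Function.update x a c) :=
      hloc f n a _ _ fun i hi => (Function.update_of_ne hi.ne _ _).symm
    rw [h1, h2]
    unfold PathT
    rw [Finset.sum_range_succ, Finset.sum_range_succ, Function.update_self, div_mul_eq_mul_div,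
      ← Real.exp_add, ← Real.exp_add]
    congr 2
    ring
  rw [hstep, hstep]
  have hT := PathT_nonneg p g s a f n x
  set y : ℝ := s * g f n a x with hy
  have hy1 : |y| ≤ 1 := by
    rw [hy, abs_mul, hs, one_mul]
    exact hg f n a x
  have hy2 : y ^ 2 = (g f n a x) ^ 2 := by
    rw [hy, mul_pow, ← sq_abs s, hs]
    ring
  have h3 := Path_exp (hp0 a) (hp1 a) hy1
  have h4 : Real.exp (p a * y ^ 2) * Real.exp (-(p a * (g f n a x) ^ 2)) = 1 := by
    rw [← Real.exp_add, hy2, add_neg_cancel, Real.exp_zero]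
  have h5 := mul_le_mul_of_nonneg_right h3 (Real.exp_pos (-(p a * (g f n a x) ^ 2))).le
  rw [h4] at h5
  have e1 : s * ((1 - p a) * g f n a x) = (1 - p a) * y := by rw [hy]; ring
  have e2 : s * ((0 - p a) * g f n a x) = -p a * y := by rw [hy]; ring
  rw [e1, e2]
  have h6 := mul_le_mul_of_nonneg_left h5 hT
  nlinarith

theorem PathV_succ {F : Type} [Fintype F] (p : ℕ → ℝ) (hp0 : ∀ b, 0 ≤ p b)
    (hp1 : ∀ b, p b ≤ 1) (g : F → ℕ → ℕ → (ℕ → ℝ) → ℝ)
    (hg : ∀ f n b x, |g f n b x| ≤ 1)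
    (hloc : ∀ f n b (x y : ℕ → ℝ), (∀ i < b, x i = y i) → g f n b x = g f n b y)
    (a : ℕ) (x : ℕ → ℝ) :
    ∃ c : ℝ, (c = 0 ∨ c = 1) ∧ PathV p g (a + 1) (Function.update x a c) ≤ PathV p g a x := by
  have h1p : 0 ≤ 1 - p a := by linarith [hp1 a]
  have hterm : ∀ s : ℝ, |s| = 1 → ∀ f n,
      ENNReal.ofReal (p a) * ENNReal.ofReal (PathT p g s (a + 1) f n (Function.update x a 1)) +
      ENNReal.ofReal (1 - p a) * ENNReal.ofReal (PathT p g s (a + 1) f n (Function.update x a 0)) ≤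
      ENNReal.ofReal (PathT p g s a f n x) := by
    intro s hs f n
    rw [← ENNReal.ofReal_mul (hp0 a), ← ENNReal.ofReal_mul h1p,
      ← ENNReal.ofReal_add (mul_nonneg (hp0 a) (PathT_nonneg _ _ _ _ _ _ _))
        (mul_nonneg h1p (PathT_nonneg _ _ _ _ _ _ _))]
    exact ENNReal.ofReal_le_ofReal (PathT_succ p hp0 hp1 g hg hloc s hs a f n x)
  have hV : ENNReal.ofReal (p a) * PathV p g (a + 1) (Function.update x a 1) +
      ENNReal.ofReal (1 - p a) * PathV p g (a + 1) (Function.update x a 0) ≤ PathV p g a x := by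
    unfold PathV
    rw [Finset.mul_sum, Finset.mul_sum, ← Finset.sum_add_distrib]
    refine Finset.sum_le_sum fun f _ => ?_
    rw [← ENNReal.tsum_mul_left, ← ENNReal.tsum_mul_left, ← ENNReal.tsum_add]
    refine ENNReal.tsum_le_tsum fun n => ?_
    have h1 := hterm 1 (by norm_num) f n
    have h2 := hterm (-1) (by norm_num) f n
    calc _ = (ENNReal.ofReal (p a) *
          ENNReal.ofReal (PathT p g 1 (a + 1) f n (Function.update x a 1)) +
        ENNReal.ofReal (1 - p a) *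
          ENNReal.ofReal (PathT p g 1 (a + 1) f n (Function.update x a 0))) +
        (ENNReal.ofReal (p a) *
          ENNReal.ofReal (PathT p g (-1) (a + 1) f n (Function.update x a 1)) +
        ENNReal.ofReal (1 - p a) *
          ENNReal.ofReal (PathT p g (-1) (a + 1) f n (Function.update x a 0))) := by ring
      _ ≤ _ := add_le_add h1 h2
  have hone : ENNReal.ofReal (p a) + ENNReal.ofReal (1 - p a) = 1 := by
    rw [← ENNReal.ofReal_add (hp0 a) h1p]
    simp
  rcases le_total (PathV p g (a + 1) (Function.update x a 1))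
    (PathV p g (a + 1) (Function.update x a 0)) with h | h
  · refine ⟨1, Or.inr rfl, le_trans ?_ hV⟩
    calc PathV p g (a + 1) (Function.update x a 1)
        = (ENNReal.ofReal (p a) + ENNReal.ofReal (1 - p a)) *
          PathV p g (a + 1) (Function.update x a 1) := by rw [hone, one_mul]
      _ = ENNReal.ofReal (p a) * PathV p g (a + 1) (Function.update x a 1) +
          ENNReal.ofReal (1 - p a) * PathV p g (a + 1) (Function.update x a 1) := by ring
      _ ≤ _ := by gcongr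
  · refine ⟨0, Or.inl rfl, le_trans ?_ hV⟩
    calc PathV p g (a + 1) (Function.update x a 0)
        = (ENNReal.ofReal (p a) + ENNReal.ofReal (1 - p a)) *
          PathV p g (a + 1) (Function.update x a 0) := by rw [hone, one_mul]
      _ = ENNReal.ofReal (p a) * PathV p g (a + 1) (Function.update x a 0) +
          ENNReal.ofReal (1 - p a) * PathV p g (a + 1) (Function.update x a 0) := by ring
      _ ≤ _ := by gcongr

/-- Deterministic martingale lemma. -/
theorem exists_path {F : Type} [Fintype F] (p : ℕ → ℝ) (hp0 : ∀ b, 0 ≤ p b)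
    (hp1 : ∀ b, p b ≤ 1) (g : F → ℕ → ℕ → (ℕ → ℝ) → ℝ)
    (hg : ∀ f n b x, |g f n b x| ≤ 1)
    (hloc : ∀ f n b (x y : ℕ → ℝ), (∀ i < b, x i = y i) → g f n b x = g f n b y) :
    ∃ x : ℕ → ℝ, (∀ b, x b = 0 ∨ x b = 1) ∧ ∃ C : ℝ, ∀ f n a,
      |∑ b ∈ range a, (x b - p b) * g f n b x|
        ≤ ∑ b ∈ range a, p b * (g f n b x) ^ 2 + C + 2 * Real.log (n + 2) := by
  choose c hc01 hc using fun a x => PathV_succ p hp0 hp1 g hg hloc a x
  -- the greedy sequence of prefixes
  let X : ℕ → ℕ → ℝ := fun a => Nat.rec (fun _ => 0) (fun a x => Function.update x a (c a x)) a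
  have hX : ∀ a, X (a + 1) = Function.update (X a) a (c a (X a)) := fun a => rfl
  have hXV : ∀ a, PathV p g a (X a) ≤ PathV p g 0 (X 0) := by
    intro a
    induction a with
    | zero => exact le_rfl
    | succ a ih => rw [hX]; exact (hc a (X a)).trans ih
  set x : ℕ → ℝ := fun b => X (b + 1) b with hx
  have hxX : ∀ a, ∀ i < a, x i = X a i := by
    intro a
    induction a with
    | zero => intro i hi; exact absurd hi (Nat.not_lt_zero i)
    | succ a ih =>
      intro i hi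
      rcases Nat.lt_succ_iff_lt_or_eq.1 hi with h | h
      · rw [hX, Function.update_of_ne h.ne, ih i h]
      · subst h; rfl
  refine ⟨x, fun b => ?_, ?_⟩
  · rw [hx]
    simp only [hX, Function.update_self]
    exact hc01 b (X b)
  set M : ℝ := (PathV p g 0 (X 0)).toReal with hM
  have htop := PathV_zero_ne_top p g (X 0)
  have hbound : ∀ s : ℝ, (s = 1 ∨ s = -1) → ∀ f n a, PathT p g s a f n x ≤ M := by
    intro s hs f n a
    have h1 : PathV p g a x ≤ PathV p g 0 (X 0) := by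
      rw [PathV_congr p g hloc a x (X a) (hxX a)]
      exact hXV a
    have h2 : ENNReal.ofReal (PathT p g s a f n x) ≤ PathV p g a x := by
      unfold PathV
      refine le_trans ?_ (Finset.single_le_sum (f := fun f => ∑' n : ℕ,
        (ENNReal.ofReal (PathT p g 1 a f n x) + ENNReal.ofReal (PathT p g (-1) a f n x)))
        (fun _ _ => zero_le) (Finset.mem_univ f))
      refine le_trans ?_ (ENNReal.le_tsum n)
      rcases hs with h | h
      · subst h; exact le_self_add
      · subst h; exact le_add_self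
    rw [hM]
    exact (ENNReal.ofReal_le_iff_le_toReal htop).1 (h2.trans h1)
  refine ⟨Real.log (max M 1), fun f n a => ?_⟩
  have hM1 : 0 < max M 1 := lt_of_lt_of_le one_pos (le_max_right _ _)
  have hmain : ∀ s : ℝ, (s = 1 ∨ s = -1) →
      s * ∑ b ∈ range a, (x b - p b) * g f n b x ≤
        ∑ b ∈ range a, p b * (g f n b x) ^ 2 + Real.log (max M 1) + 2 * Real.log (n + 2) := by
    intro s hs
    have h1 := (hbound s hs f n a).trans (le_max_left M 1)
    unfold PathT at h1
    rw [div_le_iff₀ (by positivity)] at h1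
    have h2 := Real.log_le_log (Real.exp_pos _) h1
    rw [Real.log_exp, Real.log_mul hM1.ne' (by positivity), Real.log_pow] at h2
    push_cast at h2
    linarith
  rw [abs_le]
  constructor
  · have := hmain (-1) (Or.inr rfl)
    linarith
  · have := hmain 1 (Or.inl rfl)
    linarith

end Pool.Agent.H99.Inc
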