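import Pool.Agent.H99.Inc.Core2
import Pool.Agent.H99.Inc.Binom
import Pool.Agent.H99.Inc.Path

/-!
The mixed terms.
-/

namespace Pool.Agent.H99.Inc

open Finset PowerSeries

/-- growth at most `n^E` -/
def Bd (E : ℝ) (f : ℕ → ℝ) : Prop := ∃ C : ℝ, 0 ≤ C ∧ ∀ n, |f n| ≤ C * ((n : ℝ) + 2) ^ E

theorem Bd.mono {E E' : ℝ} {f : ℕ → ℝ} (h : Bd E f) (hE : E ≤ E') : Bd E' f := by
  obtain ⟨C, hC, h⟩ := h
  refine ⟨C, hC, fun n => (h n).trans (mul_le_mul_of_nonneg_left ?_ hC)⟩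
  exact Real.rpow_le_rpow_of_exponent_le (by linarith [Nat.cast_nonneg (α := ℝ) n]) hE

theorem Bd.sum {ι : Type*} {E : ℝ} (s : Finset ι) (f : ι → ℕ → ℝ)
    (h : ∀ i ∈ s, Bd E (f i)) : Bd E (fun n => ∑ i ∈ s, f i n) := by
  classical
  induction s using Finset.induction_on with
  | empty => exact ⟨0, le_rfl, fun n => by simp⟩
  | insert i s hi ih =>
    obtain ⟨C, hC, h1⟩ := h i (Finset.mem_insert_self _ _)
    obtain ⟨C', hC', h2⟩ := ih fun j hj => h j (Finset.mem_insert_of_mem hj)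
    refine ⟨C + C', by positivity, fun n => ?_⟩
    show |∑ j ∈ insert i s, f j n| ≤ _
    rw [Finset.sum_insert hi, add_mul]
    exact (abs_add_le _ _).trans (add_le_add (h1 n) (h2 n))

theorem Bd.add {E : ℝ} {f g : ℕ → ℝ} (hf : Bd E f) (hg : Bd E g) :
    Bd E (fun n => f n + g n) := by
  obtain ⟨C, hC, h1⟩ := hf
  obtain ⟨C', hC', h2⟩ := hg
  refine ⟨C + C', by positivity, fun n => ?_⟩
  rw [add_mul]
  exact (abs_add_le _ _).trans (add_le_add (h1 n) (h2 n))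

theorem Bd.const_mul {E : ℝ} {f : ℕ → ℝ} (c : ℝ) (hf : Bd E f) :
    Bd E (fun n => c * f n) := by
  obtain ⟨C, hC, h1⟩ := hf
  refine ⟨|c| * C, by positivity, fun n => ?_⟩
  rw [abs_mul, mul_assoc]
  exact mul_le_mul_of_nonneg_left (h1 n) (abs_nonneg _)

/-- Product rule: `ℓ¹` growth times pointwise growth (monotone exponent). -/
theorem Bd.mul {E E' : ℝ} (hE' : 0 ≤ E') {F G : PowerSeries ℝ} (hF : Bd E (l1 F))
    (hG : Bd E' (fun n => coeff n G)) : Bd (E + E') (fun n => coeff n (F * G)) := by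
  obtain ⟨C, hC, h1⟩ := hF
  obtain ⟨C', hC', h2⟩ := hG
  refine ⟨C * C', by positivity, fun n => ?_⟩
  have hy0 : (0 : ℝ) < (n : ℝ) + 2 := by positivity
  have h3 := abs_coeff_mul_le_l1 F G n (C' * ((n : ℝ) + 2) ^ E') (by
    intro m hm
    refine (h2 m).trans (mul_le_mul_of_nonneg_left ?_ hC')
    refine Real.rpow_le_rpow (by positivity) ?_ hE'
    have : (m : ℝ) ≤ n := by exact_mod_cast hm
    linarith)
  have h4 := (le_abs_self _).trans (h1 n)
  calc |coeff n (F * G)| ≤ l1 F n * (C' * ((n : ℝ) + 2) ^ E') := h3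
    _ ≤ (C * ((n : ℝ) + 2) ^ E) * (C' * ((n : ℝ) + 2) ^ E') :=
        mul_le_mul_of_nonneg_right h4 (by positivity)
    _ = C * C' * (((n : ℝ) + 2) ^ E * ((n : ℝ) + 2) ^ E') := by ring
    _ = C * C' * ((n : ℝ) + 2) ^ (E + E') := by rw [← Real.rpow_add hy0]

theorem Bd.l1_mul {E E' : ℝ} {F G : PowerSeries ℝ} (hF : Bd E (l1 F))
    (hG : Bd E' (l1 G)) : Bd (E + E') (l1 (F * G)) := by
  obtain ⟨C, hC, h1⟩ := hF
  obtain ⟨C', hC', h2⟩ := hG
  refine ⟨C * C', by positivity, fun n => ?_⟩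
  have hy0 : (0 : ℝ) < (n : ℝ) + 2 := by positivity
  rw [abs_of_nonneg (l1_nonneg _ _)]
  calc l1 (F * G) n ≤ l1 F n * l1 G n := Inc.l1_mul F G n
    _ ≤ (C * ((n : ℝ) + 2) ^ E) * (C' * ((n : ℝ) + 2) ^ E') :=
        mul_le_mul ((le_abs_self _).trans (h1 n)) ((le_abs_self _).trans (h2 n))
          (l1_nonneg _ _) (by positivity)
    _ = C * C' * (((n : ℝ) + 2) ^ E * ((n : ℝ) + 2) ^ E') := by ring
    _ = C * C' * ((n : ℝ) + 2) ^ (E + E') := by rw [← Real.rpow_add hy0]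

theorem bd_l1_B {β : ℝ} (hβ : -1 ≤ β) : Bd (max β 0) (l1 (B β)) := by
  obtain ⟨C, hC, h⟩ := bc_l1 hβ
  refine ⟨C, hC.le, fun n => ?_⟩
  rw [abs_of_nonneg (l1_nonneg _ _)]
  have h1 : l1 (B β) n = ∑ m ∈ range (n + 1), |bc β m| := by
    unfold l1 B; simp only [coeff_mk]
  rw [h1]
  refine (h n).trans (mul_le_mul_of_nonneg_left ?_ hC.le)
  exact Real.rpow_le_rpow (by positivity) (by linarith) (le_max_right _ _)

theorem S_bc_one (α : ℝ) : S (bc α) 1 = B α := by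
  ext n; simp [S, B]

theorem B_pow (α : ℝ) (m : ℕ) : (B α) ^ m = B ((m : ℝ) * α) := by
  induction m with
  | zero => simp [B_zero]
  | succ m ih =>
    rw [pow_succ, ih, B_mul]
    congr 1; push_cast; ring

/-- agreement of the coefficients up to `n` -/
def EqUp (n : ℕ) (F G : PowerSeries ℝ) : Prop := ∀ m ≤ n, coeff m F = coeff m G

theorem EqUp.mul {n : ℕ} {F G F' G' : PowerSeries ℝ} (h : EqUp n F G) (h' : EqUp n F' G') :
    EqUp n (F * F') (G * G') := by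
  intro m hm
  rw [coeff_mul, coeff_mul]
  refine Finset.sum_congr rfl fun q hq => ?_
  rw [Finset.HasAntidiagonal.mem_antidiagonal] at hq
  rw [h q.1 (by omega), h' q.2 (by omega)]

theorem EqUp.prod {ι : Type*} {n : ℕ} (J : Finset ι) (F G : ι → PowerSeries ℝ)
    (h : ∀ i ∈ J, EqUp n (F i) (G i)) : EqUp n (∏ i ∈ J, F i) (∏ i ∈ J, G i) := by
  classical
  induction J using Finset.induction_on with
  | empty => intro m _; simp
  | insert i J hi ih =>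
    rw [Finset.prod_insert hi, Finset.prod_insert hi]
    exact (h i (Finset.mem_insert_self _ _)).mul
      (ih fun j hj => h j (Finset.mem_insert_of_mem hj))

theorem coeff_eq_XX {ι : Type*} (Q : PowerSeries ℝ) (e : ℕ → ℝ) (μ : ι → ℕ) (J : Finset ι)
    (n : ℕ) : coeff n (Q * ∏ i ∈ J, S e (μ i)) = XX Q e μ J (n + 1) n := by
  unfold XX
  have h : EqUp n (Q * ∏ i ∈ J, S e (μ i)) (Q * ∏ i ∈ J, S (tr e (n + 1)) (μ i)) := by
    apply EqUp.mul (fun m _ => rfl)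
    apply EqUp.prod
    intro i _ m hm
    simp only [S, coeff_mk, tr]
    have : m / μ i < n + 1 := lt_of_le_of_lt (Nat.div_le_self _ _) (by omega)
    simp [this]
  exact h n le_rfl

theorem coeff_one_sub_X_mul (F : PowerSeries ℝ) (n : ℕ) :
    coeff (n + 1) ((1 - X) * F) = coeff (n + 1) F - coeff n F := by
  rw [sub_mul, one_mul, map_sub, coeff_succ_X_mul]

theorem WW_local {k : ℕ} (Q : PowerSeries ℝ) (x x' p : ℕ → ℝ) (μ : Fin k → ℕ)
    (J : Finset (Fin k)) (b n : ℕ) (h : ∀ i < b, x i = x' i) :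
    WW Q x p μ J b n = WW Q x' p μ J b n := by
  have h1 : tr (fun i => x i - p i) b = tr (fun i => x' i - p i) b := by
    funext i
    unfold tr
    split_ifs with hi
    · simp only [h i hi]
    · rfl
  unfold WW sh XX
  rw [h1]

theorem exists_pathHyp (k : ℕ) (hk : 1 ≤ k) {α ε : ℝ} (hα : 0 < α) (hα1 : α < 1)
    (hε : 0 < ε) (hεα : ε ≤ α / 2) :
    ∃ (x : ℕ → ℝ) (Cp C0 : ℝ), PathHyp k α ε (bc α) x Cp C0 := by
  obtain ⟨C1, hC1, hb1⟩ := bc_upper hα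
  obtain ⟨C2, hC2, hb2⟩ := bc_upper (β := α + 1) (by linarith)
  obtain ⟨x, hx, C, hC⟩ := exists_path (F := Bool × Finset (Fin k) × (Fin k → Fin (k + 1)))
    (bc α) (fun b => (bc_pos hα b).le) (fun b => bc_le_one hα.le hα1.le b)
    (fun f n b x => cl (((n : ℝ) + 2) ^ (bif f.1 then
          (-((f.2.1.card : ℝ) * (α / 2 + ε) - ε))
        else (-(max ((f.2.1.card : ℝ) * α - 1) 0 / 2 + (f.2.1.card : ℝ) * ε - ε / 2)))
        * WW (Qser f.1) x (bc α) (fun i => (f.2.2 i : ℕ)) f.2.1 b n))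
    (fun _ _ _ _ => cl_abs _)
    (fun f n b x y hxy => by rw [WW_local (Qser f.1) x y (bc α) _ f.2.1 b n hxy])
  refine ⟨x, max C1 C2, |C|, ?_⟩
  refine
    { hk := hk
      hα := hα
      hα1 := hα1
      hε := hε
      hεα := hεα
      p0 := fun b => (bc_pos hα b).le
      p1 := fun b => bc_le_one hα.le hα1.le b
      hCp := lt_max_of_lt_left hC1
      hpu := ?_
      hps := ?_
      hx := hx
      hC0 := abs_nonneg _
      path1 := ?_
      path0 := ?_ }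
  · intro b
    exact (hb1 b).trans (mul_le_mul_of_nonneg_right (le_max_left _ _)
      (Real.rpow_nonneg (by positivity) _))
  · intro n
    rw [sum_bc]
    refine (hb2 n).trans ?_
    rw [add_sub_cancel_right]
    refine mul_le_mul (le_max_right _ _) ?_ (Real.rpow_nonneg (by positivity) _)
      (le_max_of_le_left hC1.le)
    exact Real.rpow_le_rpow (by positivity) (by linarith) hα.le
  · intro J μ n a
    have := hC (true, J, μ) n a
    simp only [cond_true] at this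
    refine this.trans ?_
    linarith [le_abs_self C]
  · intro J μ n a
    have := hC (false, J, μ) n a
    simp only [cond_false] at this
    refine this.trans ?_
    linarith [le_abs_self C]

section

variable {k : ℕ} {α ε : ℝ} {x : ℕ → ℝ} {Cp C0 : ℝ}

/-- the error sequence -/
noncomputable def ee (α : ℝ) (x : ℕ → ℝ) : ℕ → ℝ := fun i => x i - bc α i

theorem fin_lift {k : ℕ} (μ : Fin k → ℕ) (hμk : ∀ i, μ i ≤ k) :
    ∃ μ' : Fin k → Fin (k + 1), (fun i => (μ' i : ℕ)) = μ :=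
  ⟨fun i => ⟨μ i, Nat.lt_succ_of_le (hμk i)⟩, rfl⟩

theorem PathHyp.bd_T (H : PathHyp k α ε (bc α) x Cp C0) (J : Finset (Fin k))
    (μ : Fin k → ℕ) (hμk : ∀ i, μ i ≤ k) (hμ : ∀ i ∈ J, 1 ≤ μ i) :
    Bd ((J.card : ℝ) * (α / 2 + ε))
      (fun n => coeff n (B 1 * ∏ i ∈ J, S (ee α x) (μ i))) := by
  obtain ⟨K, hK, hb⟩ := H.Y_bound J.card
  obtain ⟨μ', rfl⟩ := fin_lift μ hμk
  refine ⟨K, hK.le, fun n => ?_⟩
  have := hb J μ' rfl hμ (n + 1) n
  have h2 := coeff_eq_XX (B 1) (ee α x) (fun i => (μ' i : ℕ)) J n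
  have hQ : Qser true = B 1 := B_one.symm
  simp only
  rw [h2, ← hQ]
  exact this

theorem PathHyp.bd_X (H : PathHyp k α ε (bc α) x Cp C0) (J : Finset (Fin k))
    (μ : Fin k → ℕ) (hμk : ∀ i, μ i ≤ k) (hμ : ∀ i ∈ J, 1 ≤ μ i) :
    Bd (be α ε J.card) (fun n => coeff n (∏ i ∈ J, S (ee α x) (μ i))) := by
  obtain ⟨K, hK, hb⟩ := H.X_bound J.card
  obtain ⟨μ', rfl⟩ := fin_lift μ hμk
  refine ⟨K, hK.le, fun n => ?_⟩
  have := hb J μ' rfl hμ (n + 1) n
  have h2 := coeff_eq_XX 1 (ee α x) (fun i => (μ' i : ℕ)) J n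
  rw [one_mul] at h2
  simp only
  rw [h2]
  exact this

theorem Bd.pow_l1 {E : ℝ} (e : ℕ → ℝ) {ι : Type*} (J : Finset ι) (μ : ι → ℕ)
    (hμ : ∀ i ∈ J, 1 ≤ μ i) (h : ∃ C, 0 ≤ C ∧ ∀ n : ℕ, ∑ b ∈ range (n + 1), |e b|
      ≤ C * ((n : ℝ) + 2) ^ E) :
    Bd ((J.card : ℝ) * E) (l1 (∏ i ∈ J, S e (μ i))) := by
  obtain ⟨C, hC, h⟩ := h
  refine ⟨C ^ J.card, by positivity, fun n => ?_⟩
  rw [abs_of_nonneg (l1_nonneg _ _)]
  refine (l1_prod_S e μ J hμ n).trans ?_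
  have hy0 : (0 : ℝ) < (n : ℝ) + 2 := by positivity
  calc (∑ b ∈ range (n + 1), |e b|) ^ J.card ≤ (C * ((n : ℝ) + 2) ^ E) ^ J.card :=
        pow_le_pow_left₀ (Finset.sum_nonneg fun _ _ => abs_nonneg _) (h n) _
    _ = C ^ J.card * ((n : ℝ) + 2) ^ ((J.card : ℝ) * E) := by
        rw [mul_pow, ← Real.rpow_natCast (((n : ℝ) + 2) ^ E), ← Real.rpow_mul hy0.le, mul_comm E]

theorem PathHyp.bd_l1_e (H : PathHyp k α ε (bc α) x Cp C0) (J : Finset (Fin k))
    (μ : Fin k → ℕ) (hμ : ∀ i ∈ J, 1 ≤ μ i) :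
    Bd ((J.card : ℝ) * α) (l1 (∏ i ∈ J, S (ee α x) (μ i))) := by
  obtain ⟨Ce, hCe, h⟩ := H.l1_e
  exact Bd.pow_l1 _ J μ hμ ⟨Ce, hCe.le, h⟩

theorem PathHyp.bd_l1_p (H : PathHyp k α ε (bc α) x Cp C0) (J : Finset (Fin k))
    (μ : Fin k → ℕ) (hμ : ∀ i ∈ J, 1 ≤ μ i) :
    Bd ((J.card : ℝ) * α) (l1 (∏ i ∈ J, S (bc α) (μ i))) := by
  refine Bd.pow_l1 _ J μ hμ ⟨Cp, H.hCp.le, fun n => ?_⟩
  refine le_trans (le_of_eq ?_) (H.hps n)
  exact Finset.sum_congr rfl fun b _ => abs_of_nonneg (H.p0 b)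

theorem dom_S_bc {α : ℝ} (hα : 0 < α) (hα1 : α < 1) (k : ℕ) :
    ∃ D > 0, ∀ m, 1 ≤ m → m ≤ k → Dom (S (bc α) m) (PowerSeries.C D * B α) := by
  obtain ⟨C, hC, hu⟩ := bc_upper hα
  obtain ⟨c, hc, hl⟩ := bc_lower hα
  refine ⟨C / c * ((k : ℝ) + 1), by positivity, fun m hm hmk n => ?_⟩
  simp only [S, coeff_mk, coeff_C_mul, B]
  split_ifs with hd
  · obtain ⟨b, rfl⟩ := hd
    rw [Nat.mul_div_cancel_left _ hm, abs_of_pos (bc_pos hα _)]
    have h1 := hu b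
    have h2 := hl (m * b)
    have hm0 : (0 : ℝ) < m := by exact_mod_cast hm
    have h3 : ((k : ℝ) + 1) ^ (α - 1) * ((b : ℝ) + 1) ^ (α - 1)
        ≤ (((m * b : ℕ) : ℝ) + 1) ^ (α - 1) := by
      rw [← Real.mul_rpow (by positivity) (by positivity)]
      apply Real.rpow_le_rpow_of_nonpos (by positivity) ?_ (by linarith)
      push_cast
      have : (m : ℝ) ≤ k := by exact_mod_cast hmk
      nlinarith [Nat.cast_nonneg (α := ℝ) b, mul_le_mul_of_nonneg_right this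
        (Nat.cast_nonneg (α := ℝ) b)]
    have h4 : ((k : ℝ) + 1)⁻¹ ≤ ((k : ℝ) + 1) ^ (α - 1) := by
      rw [← Real.rpow_neg_one]
      apply Real.rpow_le_rpow_of_exponent_le
      · linarith [Nat.cast_nonneg (α := ℝ) k]
      · linarith
    have hb1 : 0 ≤ ((b : ℝ) + 1) ^ (α - 1) := Real.rpow_nonneg (by positivity) _
    have h5 : c * (((k : ℝ) + 1)⁻¹ * ((b : ℝ) + 1) ^ (α - 1)) ≤ bc α (m * b) := by
      refine le_trans (mul_le_mul_of_nonneg_left ?_ hc.le) h2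
      exact (mul_le_mul_of_nonneg_right h4 hb1).trans h3
    calc bc α b ≤ C * ((b : ℝ) + 1) ^ (α - 1) := h1
      _ = C / c * ((k : ℝ) + 1) * (c * (((k : ℝ) + 1)⁻¹ * ((b : ℝ) + 1) ^ (α - 1))) := by
          field_simp
      _ ≤ C / c * ((k : ℝ) + 1) * bc α (m * b) :=
          mul_le_mul_of_nonneg_left h5 (by positivity)
  · rw [abs_zero]
    have := bc_pos hα n
    positivity

theorem bd_sup_p {α : ℝ} (hα : 0 < α) (hα1 : α < 1) (J : Finset (Fin k))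
    (μ : Fin k → ℕ) (hμk : ∀ i, μ i ≤ k) (hμ : ∀ i ∈ J, 1 ≤ μ i)
    (hJα : 1 ≤ (J.card : ℝ) * α) :
    Bd ((J.card : ℝ) * α - 1) (fun n => coeff n (∏ i ∈ J, S (bc α) (μ i))) := by
  obtain ⟨D, hD, hdom⟩ := dom_S_bc hα hα1 k
  have h1 : Dom (∏ i ∈ J, S (bc α) (μ i)) (∏ _i ∈ J, (PowerSeries.C D * B α)) :=
    Dom.prod J _ _ fun i hi => hdom _ (hμ i hi) (hμk i)
  rw [Finset.prod_const, mul_pow, B_pow, ← map_pow] at h1
  obtain ⟨C, hC, hu⟩ := bc_upper (β := (J.card : ℝ) * α) (by linarith)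
  refine ⟨D ^ J.card * C, by positivity, fun n => ?_⟩
  refine (h1 n).trans ?_
  rw [coeff_C_mul, mul_assoc]
  refine mul_le_mul_of_nonneg_left ?_ (by positivity)
  simp only [B, coeff_mk]
  refine (hu n).trans (mul_le_mul_of_nonneg_left ?_ hC.le)
  exact Real.rpow_le_rpow (by positivity) (by linarith) (by linarith)

/-- **Mixed terms.** -/
theorem PathHyp.mixed (H : PathHyp k α ε (bc α) x Cp C0) (h3 : 3 < (k : ℝ) * α)
    (δ : ℝ) (hδ1 : δ + (k : ℝ) * ε ≤ ((k : ℝ) * α - 3) / 2) (hδ2 : δ + (k : ℝ) * ε ≤ α / 2)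
    (J I : Finset (Fin k)) (hI : I ⊆ J) (μ : Fin k → ℕ) (hμk : ∀ i, μ i ≤ k)
    (hμ : ∀ i ∈ J, 1 ≤ μ i) (hsum : ∑ i ∈ J, μ i = k)
    (hne : (∃ i ∈ I, 2 ≤ μ i) ∨ (J \ I).Nonempty) :
    Bd ((k : ℝ) * α - 2 - δ) (fun n => coeff n ((1 - X) *
      ((∏ i ∈ I, S (bc α) (μ i)) * ∏ i ∈ J \ I, S (ee α x) (μ i)))) := by
  have hα := H.hα
  have hα1 := H.hα1
  have hε := H.hε
  set I1 : Finset (Fin k) := I.filter (fun i => μ i = 1) with hI1
  set I2 : Finset (Fin k) := I.filter (fun i => ¬ μ i = 1) with hI2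
  set E : Finset (Fin k) := J \ I with hE
  have hμI : ∀ i ∈ I, 1 ≤ μ i := fun i hi => hμ i (hI hi)
  have hμ2 : ∀ i ∈ I2, 2 ≤ μ i := by
    intro i hi
    rw [hI2, Finset.mem_filter] at hi
    have := hμI i hi.1
    omega
  have hμ2' : ∀ i ∈ I2, 1 ≤ μ i := fun i hi => (hμ2 i hi).trans' (by norm_num)
  have hμE : ∀ i ∈ E, 1 ≤ μ i := fun i hi => hμ i (Finset.mem_sdiff.mp hi).1
  -- the counting inequality
  have hcount : I1.card + 2 * I2.card + E.card ≤ k := by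
    have h1 : ∑ i ∈ J, μ i = ∑ i ∈ E, μ i + ∑ i ∈ I, μ i := (Finset.sum_sdiff hI).symm
    have h2 : ∑ i ∈ I, μ i = ∑ i ∈ I1, μ i + ∑ i ∈ I2, μ i :=
      (Finset.sum_filter_add_sum_filter_not I (fun i => μ i = 1) μ).symm
    have h4 : I1.card ≤ ∑ i ∈ I1, μ i := by
      rw [Finset.card_eq_sum_ones]
      exact Finset.sum_le_sum fun i hi => hμI i (Finset.mem_filter.mp hi).1
    have h5 : 2 * I2.card ≤ ∑ i ∈ I2, μ i := by
      calc 2 * I2.card = ∑ i ∈ I2, 2 := by rw [Finset.sum_const, smul_eq_mul, mul_comm]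
        _ ≤ ∑ i ∈ I2, μ i := Finset.sum_le_sum hμ2
    have h6 : E.card ≤ ∑ i ∈ E, μ i := by
      rw [Finset.card_eq_sum_ones]
      exact Finset.sum_le_sum hμE
    omega
  have hpos : 1 ≤ I2.card + E.card := by
    rcases hne with ⟨i, hi, h2⟩ | h
    · have : 0 < I2.card := Finset.card_pos.mpr ⟨i, by
        rw [hI2, Finset.mem_filter]; exact ⟨hi, by omega⟩⟩
      omega
    · have := Finset.card_pos.mpr h
      omega
  have hcountR : (I1.card : ℝ) + 2 * I2.card + E.card ≤ k := by exact_mod_cast hcount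
  have hposR : (1 : ℝ) ≤ (I2.card : ℝ) + E.card := by exact_mod_cast hpos
  have h0a : (0 : ℝ) ≤ I1.card := Nat.cast_nonneg _
  have h0b : (0 : ℝ) ≤ I2.card := Nat.cast_nonneg _
  have h0c : (0 : ℝ) ≤ E.card := Nat.cast_nonneg _
  have hcε : (E.card : ℝ) * ε ≤ (k : ℝ) * ε := mul_le_mul_of_nonneg_right (by linarith) hε.le
  -- factorisation of the smooth part
  have hfac : (1 - X) * (∏ i ∈ I, S (bc α) (μ i))
      = B ((I1.card : ℝ) * α - 1) * ∏ i ∈ I2, S (bc α) (μ i) := by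
    rw [← Finset.prod_filter_mul_prod_filter_not I (fun i => μ i = 1)]
    have h1 : ∏ i ∈ I1, S (bc α) (μ i) = B ((I1.card : ℝ) * α) := by
      rw [← B_pow, ← Finset.prod_const]
      refine Finset.prod_congr rfl fun i hi => ?_
      rw [(Finset.mem_filter.mp hi).2, S_bc_one]
    rw [h1, ← mul_assoc, ← B_neg_one, B_mul]
    congr 2; ring
  have hfac2 : (1 - X) * ((∏ i ∈ I, S (bc α) (μ i)) * ∏ i ∈ E, S (ee α x) (μ i))
      = B ((I1.card : ℝ) * α - 1) * (∏ i ∈ I2, S (bc α) (μ i))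
        * ∏ i ∈ E, S (ee α x) (μ i) := by
    rw [← mul_assoc, hfac]
  rw [hfac2]
  rcases le_or_gt 1 ((I1.card : ℝ) * α) with hA | hA
  · -- use partial sums
    have hre : B ((I1.card : ℝ) * α - 1) * (∏ i ∈ I2, S (bc α) (μ i))
        * ∏ i ∈ E, S (ee α x) (μ i)
        = (B ((I1.card : ℝ) * α - 2) * (∏ i ∈ I2, S (bc α) (μ i)))
          * (B 1 * ∏ i ∈ E, S (ee α x) (μ i)) := by
      have : B ((I1.card : ℝ) * α - 1) = B ((I1.card : ℝ) * α - 2) * B 1 := by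
        rw [B_mul]; congr 1; ring
      rw [this]; ring
    rw [hre]
    have hb := Bd.mul (by positivity)
      ((bd_l1_B (β := (I1.card : ℝ) * α - 2) (by linarith)).l1_mul (H.bd_l1_p I2 μ hμ2'))
      (H.bd_T E μ hμk hμE)
    refine hb.mono ?_
    rcases le_or_gt 2 ((I1.card : ℝ) * α) with hB | hB
    · rw [max_eq_left (by linarith)]
      nlinarith
    · rw [max_eq_right (by linarith)]
      nlinarith
  · rcases le_or_gt ((I2.card : ℝ) * α) (1 + ((k : ℝ) * α - 3) / 2) with hB | hB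
    · have hb := Bd.mul (be_nonneg hε _)
        ((bd_l1_B (β := (I1.card : ℝ) * α - 1) (by nlinarith)).l1_mul (H.bd_l1_p I2 μ hμ2'))
        (H.bd_X E μ hμk hμE)
      refine hb.mono ?_
      rw [max_eq_right (by linarith)]
      unfold be
      rcases le_or_gt 1 ((E.card : ℝ) * α) with hC | hC
      · rw [max_eq_left (by linarith)]
        nlinarith
      · rw [max_eq_right (by linarith)]
        nlinarith
    · have hb := Bd.mul (F := B ((I1.card : ℝ) * α - 1) * ∏ i ∈ E, S (ee α x) (μ i))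
        (G := ∏ i ∈ I2, S (bc α) (μ i)) (by linarith)
        ((bd_l1_B (β := (I1.card : ℝ) * α - 1) (by nlinarith)).l1_mul (H.bd_l1_e E μ hμE))
        (bd_sup_p hα hα1 I2 μ hμk hμ2' (by linarith))
      have hre : B ((I1.card : ℝ) * α - 1) * (∏ i ∈ I2, S (bc α) (μ i))
          * ∏ i ∈ E, S (ee α x) (μ i)
          = B ((I1.card : ℝ) * α - 1) * (∏ i ∈ E, S (ee α x) (μ i))
            * ∏ i ∈ I2, S (bc α) (μ i) := by ring
      rw [hre]
      refine hb.mono ?_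
      rw [max_eq_right (by linarith)]
      nlinarith

end

end Pool.Agent.H99.Inc
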